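import Pool.Agent.Lib_MP_40e650.E5a_SmallSet

/-!
Piece E5: markers with bounded gaps.

* `exists_marker`. `D = {x | ∀ i, τ⁻ⁱ x ∉ A}` is null by ergodicity
  (`τ` maps `Dᶜ` into itself, `μ Dᶜ ≥ μ A > 0`; `Ergodic` / `PreErgodic`
  `ae_empty_or_univ_of_...`). For `x ∉ D` let `n x` be the least `n` with `τ⁻ⁿ x ∈ A`.
  `B = D ∪ {x ∉ D | N ∣ n x}`. Gap: if `x ∉ D`, `i = n x % N`, then `τ⁻ⁱ x` has `n = n x - i`,
  divisible by `N`. Measure: `B ⊆ D ∪ A ∪ B'`, `B' = {x ∉ D | N ∣ n x, n x > 0}`; the sets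
  `τ^[l] ⁻¹' ... ` i.e. `τ⁻ˡ B'`, `0 ≤ l < N`, are pairwise disjoint (on `τ⁻ˡ B'` one has
  `n ≡ -l mod N`), all of measure `μ B'`, so `N μ B' ≤ 1`.
* `exists_markers`: `exists_small_set` with `δ = 1/2^j` and `exists_marker` with `N = 2^j`.
-/

open MeasureTheory Filter

namespace PosEnt

variable {X : Type*} [MeasurableSpace X] {μ : Measure X} [IsProbabilityMeasure μ]

theorem exists_marker (τ : X ≃ᵐ X) (hτ : Ergodic τ μ) {A : Set X} (hA : MeasurableSet A)
    (hApos : 0 < μ.real A) {N : ℕ} (hN : 1 ≤ N) :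
    ∃ B : Set X, MeasurableSet B ∧ μ.real B ≤ μ.real A + 1 / N ∧
      ∀ x, ∃ i < N, (τ.symm^[i]) x ∈ B := by
  classical
  have hσ : MeasurePreserving τ.symm μ μ := hτ.toMeasurePreserving.symm τ
  have hit : ∀ (k : ℕ), MeasurableSet ((τ.symm^[k]) ⁻¹' A) := fun k =>
    (hσ.measurable.iterate k) hA
  have hadd : ∀ (a b : ℕ) (x : X), (τ.symm^[a]) ((τ.symm^[b]) x) = (τ.symm^[a + b]) x := fun a b x =>
    (Function.iterate_add_apply _ a b x).symm
  have hcancel : ∀ (l : ℕ) (x : X), (τ.symm^[l]) ((τ^[l]) x) = x := by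
    intro l
    have h1 : Function.LeftInverse (τ.symm : X → X) (τ : X → X) := τ.left_inv
    exact (h1.iterate l)
  -- never hitting
  obtain ⟨D, hD⟩ : ∃ D : Set X, D = {x | ∀ i : ℕ, (τ.symm^[i]) x ∉ A} := ⟨_, rfl⟩
  have hDm : MeasurableSet D := by
    have h1 : D = ⋂ i : ℕ, ((τ.symm^[i]) ⁻¹' A)ᶜ := by
      rw [hD]
      ext x
      simp
    rw [h1]
    exact MeasurableSet.iInter fun i => (hit i).compl
  have hD0 : μ.real D = 0 := by
    have h1 : Dᶜ ⊆ τ ⁻¹' Dᶜ := by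
      intro x hx hx'
      apply hx
      rw [hD] at hx' ⊢
      intro i hi
      refine hx' (i + 1) ?_
      rw [Function.iterate_succ_apply, MeasurableEquiv.symm_apply_apply]
      exact hi
    have h2 := hτ.ae_empty_or_univ_of_ae_le_preimage hDm.compl.nullMeasurableSet
      (HasSubset.Subset.eventuallyLE h1)
    have h3 : A ⊆ Dᶜ := by
      intro x hx hx'
      rw [hD] at hx'
      exact hx' 0 hx
    rcases h2 with h2 | h2
    · have h4 : μ.real A ≤ μ.real Dᶜ := measureReal_mono h3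
      have h5 : μ.real Dᶜ = 0 := by
        rw [measureReal_congr h2, measureReal_empty]
      linarith
    · have h4 : D =ᵐ[μ] (∅ : Set X) := by
        have h5 := h2.compl
        rwa [compl_compl, Set.compl_univ] at h5
      rw [measureReal_congr h4, measureReal_empty]
  -- hitting for the first time after `k` steps
  obtain ⟨E, hE⟩ : ∃ E : ℕ → Set X, ∀ k, E k = {x | (τ.symm^[k]) x ∈ A ∧
      ∀ i < k, (τ.symm^[i]) x ∉ A} := ⟨_, fun _ => rfl⟩
  have hEm : ∀ k, MeasurableSet (E k) := by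
    intro k
    have h1 : E k = ((τ.symm^[k]) ⁻¹' A) ∩ ⋂ i : ℕ, ⋂ _ : i < k, ((τ.symm^[i]) ⁻¹' A)ᶜ := by
      rw [hE]
      ext x
      simp
    rw [h1]
    exact (hit k).inter (MeasurableSet.iInter fun i => MeasurableSet.iInter fun _ => (hit i).compl)
  have huniq : ∀ a b x, x ∈ E a → x ∈ E b → a = b := by
    intro a b x ha hb
    rw [hE] at ha hb
    by_contra hne
    rcases lt_or_gt_of_ne hne with h | h
    · exact hb.2 a h ha.1
    · exact ha.2 b h hb.1
  have hshift : ∀ (k l : ℕ) (x : X), l ≤ k → (τ^[l]) x ∈ E k → x ∈ E (k - l) := by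
    intro k l x hl hx
    rw [hE] at hx ⊢
    have h1 : ∀ i, (τ.symm^[i + l]) ((τ^[l]) x) = (τ.symm^[i]) x := by
      intro i
      rw [← hadd, hcancel]
    refine ⟨?_, ?_⟩
    · rw [← h1, Nat.sub_add_cancel hl]
      exact hx.1
    · intro i hi
      rw [← h1]
      exact hx.2 _ (by omega)
  obtain ⟨B', hB'⟩ : ∃ B' : Set X, B' = ⋃ k : ℕ, E (N * (k + 1)) := ⟨_, rfl⟩
  have hB'm : MeasurableSet B' := by
    rw [hB']
    exact MeasurableSet.iUnion fun k => hEm _
  refine ⟨D ∪ ⋃ k : ℕ, E (N * k), hDm.union (MeasurableSet.iUnion fun k => hEm _), ?_, ?_⟩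
  · -- the measure
    have h1 : D ∪ ⋃ k : ℕ, E (N * k) ⊆ D ∪ (A ∪ B') := by
      rintro x (hx | hx)
      · exact Or.inl hx
      · rw [Set.mem_iUnion] at hx
        obtain ⟨k, hk⟩ := hx
        cases k with
        | zero =>
          rw [hE] at hk
          exact Or.inr (Or.inl hk.1)
        | succ k =>
          refine Or.inr (Or.inr ?_)
          rw [hB']
          exact Set.mem_iUnion.2 ⟨k, hk⟩
    have h2 : μ.real (D ∪ ⋃ k : ℕ, E (N * k)) ≤ μ.real D + (μ.real A + μ.real B') :=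
      (measureReal_mono h1).trans ((measureReal_union_le _ _).trans
        (add_le_add_right (measureReal_union_le _ _) _))
    -- disjoint translates
    have h3 : ∀ l, μ.real ((τ^[l]) ⁻¹' B') = μ.real B' := fun l =>
      (hτ.toMeasurePreserving.iterate l).measureReal_preimage hB'm.nullMeasurableSet
    have h4 : Set.PairwiseDisjoint (↑(Finset.range N) : Set ℕ) fun l => (τ^[l]) ⁻¹' B' := by
      intro l hl l' hl' hne
      rw [Finset.coe_range, Set.mem_Iio] at hl hl'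
      change Disjoint ((τ^[l]) ⁻¹' B') ((τ^[l']) ⁻¹' B')
      rw [Set.disjoint_left]
      intro x hx hx'
      rw [Set.mem_preimage, hB', Set.mem_iUnion] at hx hx'
      obtain ⟨k, hk⟩ := hx
      obtain ⟨k', hk'⟩ := hx'
      have hkN : N ≤ N * (k + 1) := Nat.le_mul_of_pos_right N (Nat.succ_pos k)
      have hkN' : N ≤ N * (k' + 1) := Nat.le_mul_of_pos_right N (Nat.succ_pos k')
      have h5 := huniq _ _ x (hshift _ l x (by omega) hk) (hshift _ l' x (by omega) hk')
      apply hne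
      have h6 : N * (k + 1) + l' = N * (k' + 1) + l := by omega
      have h7 : (N * (k + 1) + l') % N = (N * (k' + 1) + l) % N := by rw [h6]
      rw [Nat.mul_add_mod, Nat.mul_add_mod, Nat.mod_eq_of_lt hl, Nat.mod_eq_of_lt hl'] at h7
      exact h7.symm
    have h5 := measureReal_biUnion_finset (μ := μ) h4 fun l _ =>
      (hτ.toMeasurePreserving.iterate l).measurable hB'm
    have h6 : μ.real (⋃ l ∈ Finset.range N, (τ^[l]) ⁻¹' B') ≤ 1 := measureReal_le_one
    rw [h5, Finset.sum_congr rfl fun l _ => h3 l, Finset.sum_const, Finset.card_range,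
      nsmul_eq_mul] at h6
    have hNpos : (0 : ℝ) < N := by exact_mod_cast hN
    have h7 : μ.real B' ≤ 1 / N := by
      rw [le_div_iff₀ hNpos]
      linarith
    linarith
  · intro x
    by_cases hx : x ∈ D
    · exact ⟨0, hN, Or.inl hx⟩
    · have h1 : ∃ m : ℕ, (τ.symm^[m]) x ∈ A := by
        rw [hD] at hx
        by_contra hcon
        push Not at hcon
        exact hx hcon
      have h2 := Nat.find_spec h1
      have h3 : ∀ i < Nat.find h1, (τ.symm^[i]) x ∉ A := fun i hi => Nat.find_min h1 hi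
      generalize Nat.find h1 = m at h2 h3
      have hNpos : 0 < N := hN
      refine ⟨m % N, Nat.mod_lt _ hNpos, Or.inr (Set.mem_iUnion.2 ⟨m / N, ?_⟩)⟩
      have h4 : N * (m / N) + m % N = m := Nat.div_add_mod m N
      rw [hE]
      refine ⟨?_, fun i hi => ?_⟩
      · rw [hadd, h4]
        exact h2
      · rw [hadd]
        exact h3 _ (by omega)

/-- markers at all scales -/
theorem exists_markers (τ : X ≃ᵐ X) (hτ : Ergodic τ μ) (hent : 0 < ksEntropy μ τ) :
    ∃ B : ℕ → Set X, (∀ j, MeasurableSet (B j)) ∧ (∀ j, μ.real (B j) ≤ 2 / 2 ^ j) ∧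
      ∀ j x, ∃ i < 2 ^ j, (τ.symm^[i]) x ∈ B j := by
  have h1 : ∀ j : ℕ, ∃ B : Set X, MeasurableSet B ∧ μ.real B ≤ 2 / 2 ^ j ∧
      ∀ x, ∃ i < 2 ^ j, (τ.symm^[i]) x ∈ B := by
    intro j
    obtain ⟨A, hA, hA0, hA1⟩ := exists_small_set (μ := μ) τ hτ.toMeasurePreserving hent
      (δ := 1 / 2 ^ j) (by positivity)
    obtain ⟨B, hB, hB1, hB2⟩ := exists_marker τ hτ hA hA0 (N := 2 ^ j) Nat.one_le_two_pow
    refine ⟨B, hB, ?_, hB2⟩
    refine hB1.trans ?_
    push_cast
    have h2 : (2 : ℝ) / 2 ^ j = 1 / 2 ^ j + 1 / 2 ^ j := by ring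
    rw [h2]
    exact add_le_add_left hA1 _
  choose B hB hB1 hB2 using h1
  exact ⟨B, hB, hB1, hB2⟩

end PosEnt
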