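import Pool.Agent.Lib_MP_40e650.E10_Mul
import Pool.Agent.Lib_MP_40e650.E5_Marker

/-!
Piece E12: the two easy cases.

* `idempotent_of_not_ergodic`: there is a measurable `E` with `τ ⁻¹' E = E` and `0 < μ E < 1`
  (definition of `Ergodic` / `PreErgodic`); `P = M_{1_E}`.
* `invariant_of_zero`: if `φ = 0` on a set `Z` of positive measure then `T` is not injective: for
  `A = τ '' Z = τ.symm ⁻¹' Z` and `f = 1_A`, `T f = φ * 1_A ∘ τ = φ 1_Z = 0`. `M = ker T` is closed,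
  invariant, `≠ ⊥`; if `M = ⊤` then `T = 0` and every subspace is invariant: take
  `M' = {f | f = 0 a.e. on A}` for a set `A` with `0 < μ A < 1` (`exists_small_set` with `δ = 1/2`),
  e.g. the kernel of `M_{1_A}`.
* `invariant_of_idempotent`: `M = ker P` is closed, invariant under `T`, `≠ ⊤`, and `≠ ⊥` because
  `P ≠ 1`.
-/

open MeasureTheory Filter

namespace PosEnt

variable {X : Type*} [MeasurableSpace X] {μ : Measure X} [IsProbabilityMeasure μ]

private lemma ind_exists {E : Set X} (hE : MeasurableSet E) :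
    ∃ P : Lp ℂ 2 μ →L[ℂ] Lp ℂ 2 μ, ∀ f : Lp ℂ 2 μ,
      (P f : X → ℂ) =ᵐ[μ] fun x => E.indicator (fun _ => (1 : ℂ)) x * f x :=
  exists_mulOp (measurable_const.indicator hE) (C := 1) (fun x => by
    by_cases hx : x ∈ E <;> simp [hx])

private lemma ind_idem {E : Set X} {P : Lp ℂ 2 μ →L[ℂ] Lp ℂ 2 μ}
    (hP : ∀ f : Lp ℂ 2 μ, (P f : X → ℂ) =ᵐ[μ] fun x => E.indicator (fun _ => (1 : ℂ)) x * f x) :
    P ∘L P = P := by
  apply ContinuousLinearMap.ext
  intro f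
  apply Lp.ext
  filter_upwards [hP (P f), hP f] with x h1 h2
  rw [ContinuousLinearMap.comp_apply, h1, h2]
  by_cases hx : x ∈ E <;> simp [hx]

private lemma indLp_ne {E : Set X} (hE : MeasurableSet E) (h : μ E ≠ 0) :
    indicatorConstLp 2 hE (measure_ne_top μ E) (1 : ℂ) ≠ 0 := by
  intro h0
  apply h
  have h1 : (indicatorConstLp 2 hE (measure_ne_top μ E) (1 : ℂ) : X → ℂ) =ᵐ[μ] 0 := by
    rw [h0]
    exact Lp.coeFn_zero _ _ _
  have h2 := indicatorConstLp_coeFn (p := 2) (hs := hE) (hμs := measure_ne_top μ E) (c := (1 : ℂ))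
  have h3 : ∀ᵐ x ∂μ, x ∉ E := by
    filter_upwards [h1, h2] with x hx1 hx2 hxE
    rw [hx1] at hx2
    simp [hxE] at hx2
  simpa using (ae_iff.1 h3)

private lemma ind_ne_zero {E : Set X} (hE : MeasurableSet E) (h : μ E ≠ 0)
    {P : Lp ℂ 2 μ →L[ℂ] Lp ℂ 2 μ}
    (hP : ∀ f : Lp ℂ 2 μ, (P f : X → ℂ) =ᵐ[μ] fun x => E.indicator (fun _ => (1 : ℂ)) x * f x) :
    P ≠ 0 := by
  intro h0
  apply indLp_ne hE h
  have h1 : P (indicatorConstLp 2 hE (measure_ne_top μ E) (1 : ℂ)) =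
      indicatorConstLp 2 hE (measure_ne_top μ E) (1 : ℂ) := by
    apply Lp.ext
    filter_upwards [hP (indicatorConstLp 2 hE (measure_ne_top μ E) (1 : ℂ)),
      indicatorConstLp_coeFn (p := 2) (hs := hE) (hμs := measure_ne_top μ E) (c := (1 : ℂ))]
      with x hx1 hx2
    rw [hx1, hx2]
    by_cases hx : x ∈ E <;> simp [hx]
  rw [← h1, h0]
  rfl

private lemma ind_ne_id {E : Set X} (hE : MeasurableSet E) (h : μ Eᶜ ≠ 0)
    {P : Lp ℂ 2 μ →L[ℂ] Lp ℂ 2 μ}
    (hP : ∀ f : Lp ℂ 2 μ, (P f : X → ℂ) =ᵐ[μ] fun x => E.indicator (fun _ => (1 : ℂ)) x * f x) :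
    P ≠ ContinuousLinearMap.id ℂ _ := by
  intro h0
  apply indLp_ne hE.compl h
  have h1 : P (indicatorConstLp 2 hE.compl (measure_ne_top μ Eᶜ) (1 : ℂ)) = 0 := by
    apply Lp.ext
    filter_upwards [hP (indicatorConstLp 2 hE.compl (measure_ne_top μ Eᶜ) (1 : ℂ)),
      indicatorConstLp_coeFn (p := 2) (hs := hE.compl) (hμs := measure_ne_top μ Eᶜ)
        (c := (1 : ℂ)), Lp.coeFn_zero ℂ 2 μ] with x hx1 hx2 hx3
    rw [hx1, hx2, hx3]
    by_cases hx : x ∈ E <;> simp [hx]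
  rw [h0] at h1
  exact h1

theorem idempotent_of_not_ergodic (τ : X ≃ᵐ X) (hτ : MeasurePreserving τ μ μ)
    (hne : ¬ Ergodic τ μ) :
    ∃ P : Lp ℂ 2 μ →L[ℂ] Lp ℂ 2 μ, P ∘L P = P ∧ P ≠ 0 ∧ P ≠ ContinuousLinearMap.id ℂ _ ∧
      (∀ (φ : X → ℂ) (T : Lp ℂ 2 μ →L[ℂ] Lp ℂ 2 μ),
        (∀ f : Lp ℂ 2 μ, (T f : X → ℂ) =ᵐ[μ] fun x => φ x * f (τ x)) → P ∘L T = T ∘L P) ∧
      (∀ (ψ : X → ℂ) (S : Lp ℂ 2 μ →L[ℂ] Lp ℂ 2 μ),
        (∀ f : Lp ℂ 2 μ, (S f : X → ℂ) =ᵐ[μ] fun x => ψ x * f x) → P ∘L S = S ∘L P) := by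
  classical
  have hpre : ¬ PreErgodic τ μ := fun h => hne ⟨hτ, h⟩
  have hex : ∃ E : Set X, MeasurableSet E ∧ τ ⁻¹' E = E ∧ μ E ≠ 0 ∧ μ Eᶜ ≠ 0 := by
    by_contra hcon
    push Not at hcon
    apply hpre
    refine ⟨fun s hs hfs => ?_⟩
    rw [eventuallyConst_set']
    by_cases h0 : μ s = 0
    · left
      exact ae_eq_empty.2 h0
    · right
      have := hcon s hs hfs h0
      exact ae_eq_univ.2 this
  obtain ⟨E, hE, hinv, hpos, hcpos⟩ := hex
  obtain ⟨P, hP⟩ := ind_exists (μ := μ) hE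
  refine ⟨P, ind_idem hP, ind_ne_zero hE hpos hP, ind_ne_id hE hcpos hP, ?_, ?_⟩
  · intro φ T hT
    apply ContinuousLinearMap.ext
    intro f
    apply Lp.ext
    have hq := hτ.quasiMeasurePreserving.ae_eq_comp (hP f)
    filter_upwards [hP (T f), hT f, hT (P f), hq] with x h1 h2 h3 h4
    have h4' : (P f : X → ℂ) (τ x) = E.indicator (fun _ => (1 : ℂ)) (τ x) * f (τ x) := h4
    rw [ContinuousLinearMap.comp_apply, ContinuousLinearMap.comp_apply, h1, h2, h3, h4']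
    have hiff : τ x ∈ E ↔ x ∈ E := by
      conv_rhs => rw [← hinv]
      rfl
    by_cases hx : x ∈ E
    · simp [hx, hiff.2 hx]
    · have hx' : τ x ∉ E := fun h => hx (hiff.1 h)
      simp [hx, hx']
  · intro ψ S hS
    apply ContinuousLinearMap.ext
    intro f
    apply Lp.ext
    filter_upwards [hP (S f), hS f, hS (P f), hP f] with x h1 h2 h3 h4
    rw [ContinuousLinearMap.comp_apply, ContinuousLinearMap.comp_apply, h1, h2, h3, h4]
    ring

theorem invariant_of_idempotent {P T : Lp ℂ 2 μ →L[ℂ] Lp ℂ 2 μ} (hP : P ∘L P = P) (h0 : P ≠ 0)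
    (h1 : P ≠ ContinuousLinearMap.id ℂ _) (hPT : P ∘L T = T ∘L P) :
    ∃ M : Submodule ℂ (Lp ℂ 2 μ), IsClosed (M : Set (Lp ℂ 2 μ)) ∧ M ≠ ⊥ ∧ M ≠ ⊤ ∧
      ∀ f ∈ M, T f ∈ M := by
  refine ⟨LinearMap.ker (P : Lp ℂ 2 μ →ₗ[ℂ] Lp ℂ 2 μ), P.isClosed_ker, ?_, ?_, ?_⟩
  · intro hbot
    apply h1
    apply ContinuousLinearMap.ext
    intro f
    have hmem : f - P f ∈ LinearMap.ker (P : Lp ℂ 2 μ →ₗ[ℂ] Lp ℂ 2 μ) := by
      rw [LinearMap.mem_ker]
      have h2 : P (P f) = P f := by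
        have := congrArg (fun Q : Lp ℂ 2 μ →L[ℂ] Lp ℂ 2 μ => Q f) hP
        simpa using this
      change P (f - P f) = 0
      rw [map_sub, h2, sub_self]
    rw [hbot, Submodule.mem_bot, sub_eq_zero] at hmem
    exact hmem.symm
  · intro htop
    apply h0
    apply ContinuousLinearMap.ext
    intro f
    have hmem : f ∈ LinearMap.ker (P : Lp ℂ 2 μ →ₗ[ℂ] Lp ℂ 2 μ) := by
      rw [htop]
      trivial
    exact LinearMap.mem_ker.1 hmem
  · intro f hf
    have hf' : P f = 0 := LinearMap.mem_ker.1 hf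
    rw [LinearMap.mem_ker]
    have h2 := congrArg (fun Q : Lp ℂ 2 μ →L[ℂ] Lp ℂ 2 μ => Q f) hPT
    have h3 : P (T f) = T (P f) := by simpa using h2
    change P (T f) = 0
    rw [h3, hf', map_zero]

theorem invariant_of_zero (τ : X ≃ᵐ X) (hτ : MeasurePreserving τ μ μ)
    (hent : 0 < ksEntropy μ τ) {φ : X → ℂ} (hφ : Measurable φ)
    (hz : ¬ ∀ᵐ x ∂μ, φ x ≠ 0) (T : Lp ℂ 2 μ →L[ℂ] Lp ℂ 2 μ)
    (hT : ∀ f : Lp ℂ 2 μ, (T f : X → ℂ) =ᵐ[μ] fun x => φ x * f (τ x)) :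
    ∃ M : Submodule ℂ (Lp ℂ 2 μ), IsClosed (M : Set (Lp ℂ 2 μ)) ∧ M ≠ ⊥ ∧ M ≠ ⊤ ∧
      ∀ f ∈ M, T f ∈ M := by
  classical
  by_cases htop : LinearMap.ker (T : Lp ℂ 2 μ →ₗ[ℂ] Lp ℂ 2 μ) = ⊤
  · have hT0 : T = 0 := by
      apply ContinuousLinearMap.ext
      intro f
      have hmem : f ∈ LinearMap.ker (T : Lp ℂ 2 μ →ₗ[ℂ] Lp ℂ 2 μ) := by
        rw [htop]
        trivial
      exact LinearMap.mem_ker.1 hmem
    obtain ⟨A, hA, hA0, hA1⟩ := exists_small_set τ hτ hent (δ := 1 / 2) (by norm_num)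
    have hApos : μ A ≠ 0 := by
      intro h
      rw [Measure.real, h] at hA0
      simp at hA0
    have hAc : μ Aᶜ ≠ 0 := by
      intro h
      have h1 : μ.real Aᶜ = 1 - μ.real A := probReal_compl_eq_one_sub hA
      rw [Measure.real, h] at h1
      simp at h1
      linarith
    obtain ⟨P, hP⟩ := ind_exists (μ := μ) hA
    exact invariant_of_idempotent (ind_idem hP) (ind_ne_zero hA hApos hP) (ind_ne_id hA hAc hP)
      (T := T) (by rw [hT0]; simp)
  · refine ⟨LinearMap.ker (T : Lp ℂ 2 μ →ₗ[ℂ] Lp ℂ 2 μ), T.isClosed_ker, ?_, htop, ?_⟩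
    · set Z : Set X := {x | φ x = 0} with hZ
      have hZm : MeasurableSet Z := hφ (measurableSet_singleton 0)
      have hZ0 : μ Z ≠ 0 := by
        intro h
        apply hz
        rw [ae_iff]
        simpa [hZ] using h
      set A : Set X := τ.symm ⁻¹' Z with hA
      have hAm : MeasurableSet A := τ.symm.measurable hZm
      have hAZ : τ ⁻¹' A = Z := by
        ext x
        simp [hA]
      have hA0 : μ A ≠ 0 := by
        rw [← hτ.measure_preimage hAm.nullMeasurableSet, hAZ]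
        exact hZ0
      intro hbot
      apply indLp_ne hAm hA0
      have hmem : indicatorConstLp 2 hAm (measure_ne_top μ A) (1 : ℂ) ∈
          LinearMap.ker (T : Lp ℂ 2 μ →ₗ[ℂ] Lp ℂ 2 μ) := by
        rw [LinearMap.mem_ker]
        change T (indicatorConstLp 2 hAm (measure_ne_top μ A) (1 : ℂ)) = 0
        apply Lp.ext
        have hq := hτ.quasiMeasurePreserving.ae_eq_comp
          (indicatorConstLp_coeFn (p := 2) (hs := hAm) (hμs := measure_ne_top μ A) (c := (1 : ℂ)))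
        filter_upwards [hT (indicatorConstLp 2 hAm (measure_ne_top μ A) (1 : ℂ)), hq,
          Lp.coeFn_zero ℂ 2 μ] with x h1 h2 h3
        have h2' : (indicatorConstLp 2 hAm (measure_ne_top μ A) (1 : ℂ) : X → ℂ) (τ x) =
            A.indicator (fun _ => (1 : ℂ)) (τ x) := h2
        rw [h1, h2', h3]
        by_cases hx : x ∈ Z
        · have : φ x = 0 := hx
          simp [this]
        · have hx' : τ x ∉ A := by
            intro h
            apply hx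
            rw [← hAZ]
            exact h
          simp [hx']
      rw [hbot, Submodule.mem_bot] at hmem
      exact hmem
    · intro f hf
      have hf' : T f = 0 := LinearMap.mem_ker.1 hf
      rw [LinearMap.mem_ker]
      change T (T f) = 0
      rw [hf', map_zero]

end PosEnt
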