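import Pool.Agent.Lib_MP_40e650.Defs

/-!
Piece E2: two explicit entropy bounds.

The elementary inequality is `-p log p ≤ p s + exp (-1 - s)` for `p ≥ 0` and every real `s`
(`log y ≤ y - 1` with `y = exp (-1-s) / p`), and `-p log p ≤ 1 - p` for `0 ≤ p ≤ 1`.

* `shannon_support_le`: let `p' = μ {V ≠ v0} ≤ p`, `m = card ι`. For `v ≠ v0` use
  `s = log m + log (1/p) ≥ 0`: `∑_{v ≠ v0} ≤ p' s + m exp (-1-s) ≤ p s + p / e`; the term of `v0` is
  `≤ 1 - μ{V = v0} = p' ≤ p`.
* `shannon_bool_small`: continuity of `negMulLog` at `0` and `1`.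
-/

open MeasureTheory Filter

namespace PosEnt

variable {X : Type*} [MeasurableSpace X] {μ : Measure X} [IsProbabilityMeasure μ]

private theorem negMulLog_le_aux {x : ℝ} (hx : 0 ≤ x) (s : ℝ) :
    Real.negMulLog x ≤ x * s + Real.exp (-1 - s) := by
  rcases hx.eq_or_lt with h | h
  · rw [← h]
    simp only [Real.negMulLog_zero, zero_mul, zero_add]
    exact (Real.exp_pos _).le
  · have h1 : Real.log (Real.exp (-1 - s) / x) ≤ Real.exp (-1 - s) / x - 1 :=
      Real.log_le_sub_one_of_pos (div_pos (Real.exp_pos _) h)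
    rw [Real.log_div (Real.exp_pos _).ne' h.ne', Real.log_exp] at h1
    have h2 : -Real.log x ≤ s + Real.exp (-1 - s) / x := by linarith
    have h3 : x * (-Real.log x) ≤ x * (s + Real.exp (-1 - s) / x) :=
      mul_le_mul_of_nonneg_left h2 hx
    have h4 : x * (s + Real.exp (-1 - s) / x) = x * s + Real.exp (-1 - s) := by
      field_simp
    rw [h4] at h3
    unfold Real.negMulLog
    linarith

private theorem negMulLog_le_one_sub {x : ℝ} (hx : 0 ≤ x) :
    Real.negMulLog x ≤ 1 - x := by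
  have h := negMulLog_le_aux hx (-1)
  have h1 : Real.exp (-1 - -1) = 1 := by norm_num
  rw [h1] at h
  linarith

private theorem sum_real_aux {ι : Type*} [Fintype ι] (V : X → ι)
    (hV : ∀ v, MeasurableSet (V ⁻¹' {v})) :
    ∑ v, μ.real (V ⁻¹' {v}) = 1 := by
  have h := measureReal_biUnion_finset (μ := μ) (s := (Finset.univ : Finset ι))
    (f := fun v => V ⁻¹' {v})
    (fun v _ w _ hvw => Set.disjoint_left.2 fun x hx hy => hvw (by
      have h1 : V x = v := hx
      have h2 : V x = w := hy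
      rw [← h1, h2]))
    (fun v _ => hV v)
  rw [← h]
  have h2 : (⋃ v ∈ (Finset.univ : Finset ι), V ⁻¹' {v}) = Set.univ := by
    ext x
    simp
  rw [h2]
  simp

theorem shannon_support_le {ι : Type*} [Fintype ι] (V : X → ι)
    (hV : ∀ v, MeasurableSet (V ⁻¹' {v})) (v0 : ι) {p : ℝ} (hp : 0 < p) (hp1 : p ≤ 1)
    (hsupp : μ.real {x | V x ≠ v0} ≤ p) :
    shannon μ V ≤ p * (Real.log (Fintype.card ι) + Real.log (1 / p) + 2) := by
  classical
  have hsum := sum_real_aux (μ := μ) V hV
  have hm : (1 : ℝ) ≤ (Fintype.card ι : ℝ) := by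
    exact_mod_cast Fintype.card_pos_iff.2 ⟨v0⟩
  have hm0 : (0 : ℝ) < (Fintype.card ι : ℝ) := by linarith
  set s : ℝ := Real.log (Fintype.card ι) + Real.log (1 / p) with hs
  have hs0 : 0 ≤ s := by
    have h1 : 0 ≤ Real.log (Fintype.card ι : ℝ) := Real.log_nonneg hm
    have h2 : 0 ≤ Real.log (1 / p) := Real.log_nonneg (by
      rw [le_div_iff₀ hp]; linarith)
    linarith
  have hexp : (Fintype.card ι : ℝ) * Real.exp (-1 - s) ≤ p := by
    have h1 : Real.exp (-1 - s) = Real.exp (-1) * (p / Fintype.card ι) := by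
      rw [hs, sub_eq_add_neg, Real.exp_add, neg_add, Real.exp_add, ← Real.log_inv, ← Real.log_inv,
        Real.exp_log (inv_pos.2 hm0), Real.exp_log (by positivity)]
      rw [one_div, inv_inv]
      ring
    rw [h1]
    have h2 : (Fintype.card ι : ℝ) * (Real.exp (-1) * (p / Fintype.card ι)) = Real.exp (-1) * p := by
      field_simp
    rw [h2]
    have h3 : Real.exp (-1) ≤ 1 := Real.exp_le_one_iff.2 (by norm_num)
    calc Real.exp (-1) * p ≤ 1 * p := mul_le_mul_of_nonneg_right h3 hp.le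
      _ = p := one_mul p
  -- the total mass outside `v0`
  have hcompl : ∑ v ∈ Finset.univ.erase v0, μ.real (V ⁻¹' {v}) = μ.real {x | V x ≠ v0} := by
    have h1 : ∑ v ∈ Finset.univ.erase v0, μ.real (V ⁻¹' {v}) + μ.real (V ⁻¹' {v0}) = 1 := by
      rw [Finset.sum_erase_add _ _ (Finset.mem_univ v0)]
      exact hsum
    have h2 : μ.real {x | V x ≠ v0} = 1 - μ.real (V ⁻¹' {v0}) := by
      have h3 : {x | V x ≠ v0} = (V ⁻¹' {v0})ᶜ := by
        ext x
        simp
      rw [h3, probReal_compl_eq_one_sub (hV v0)]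
    linarith
  have hv0 : Real.negMulLog (μ.real (V ⁻¹' {v0})) ≤ p := by
    have h1 : Real.negMulLog (μ.real (V ⁻¹' {v0})) ≤ 1 - μ.real (V ⁻¹' {v0}) :=
      negMulLog_le_one_sub measureReal_nonneg
    have h2 : ∑ v ∈ Finset.univ.erase v0, μ.real (V ⁻¹' {v}) + μ.real (V ⁻¹' {v0}) = 1 := by
      rw [Finset.sum_erase_add _ _ (Finset.mem_univ v0)]
      exact hsum
    linarith
  have hrest : ∑ v ∈ Finset.univ.erase v0, Real.negMulLog (μ.real (V ⁻¹' {v})) ≤ p * s + p := by
    calc ∑ v ∈ Finset.univ.erase v0, Real.negMulLog (μ.real (V ⁻¹' {v}))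
        ≤ ∑ v ∈ Finset.univ.erase v0, (μ.real (V ⁻¹' {v}) * s + Real.exp (-1 - s)) :=
          Finset.sum_le_sum fun v _ => negMulLog_le_aux measureReal_nonneg s
      _ = (∑ v ∈ Finset.univ.erase v0, μ.real (V ⁻¹' {v})) * s
            + ((Finset.univ.erase v0).card : ℝ) * Real.exp (-1 - s) := by
          rw [Finset.sum_add_distrib, Finset.sum_mul, Finset.sum_const, nsmul_eq_mul]
      _ ≤ p * s + (Fintype.card ι : ℝ) * Real.exp (-1 - s) := by
          rw [hcompl]
          have h1 : ((Finset.univ.erase v0).card : ℝ) ≤ (Fintype.card ι : ℝ) := by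
            exact_mod_cast (Finset.card_le_univ _)
          exact add_le_add (mul_le_mul_of_nonneg_right hsupp hs0)
            (mul_le_mul_of_nonneg_right h1 (Real.exp_pos _).le)
      _ ≤ p * s + p := by linarith
  have htot : shannon μ V = ∑ v ∈ Finset.univ.erase v0, Real.negMulLog (μ.real (V ⁻¹' {v}))
      + Real.negMulLog (μ.real (V ⁻¹' {v0})) := by
    unfold shannon
    rw [Finset.sum_erase_add _ _ (Finset.mem_univ v0)]
  rw [htot]
  calc ∑ v ∈ Finset.univ.erase v0, Real.negMulLog (μ.real (V ⁻¹' {v}))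
      + Real.negMulLog (μ.real (V ⁻¹' {v0})) ≤ (p * s + p) + p := add_le_add hrest hv0
    _ = p * (s + 2) := by ring

open Classical in
theorem shannon_bool_small {η : ℝ} (hη : 0 < η) : ∃ δ : ℝ, 0 < δ ∧
    ∀ A : Set X, MeasurableSet A → μ.real A < δ →
      shannon μ (fun x => decide (x ∈ A)) ≤ η := by
  have hc : Continuous fun a : ℝ => Real.negMulLog a + Real.negMulLog (1 - a) :=
    Real.continuous_negMulLog.add (Real.continuous_negMulLog.comp (continuous_const.sub continuous_id))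
  have h0 : (fun a : ℝ => Real.negMulLog a + Real.negMulLog (1 - a)) 0 = 0 := by
    simp
  obtain ⟨δ, hδ, hδ'⟩ := Metric.continuous_iff.1 hc 0 η hη
  refine ⟨δ, hδ, fun A hA hlt => ?_⟩
  have hd : dist (μ.real A) 0 < δ := by
    rw [Real.dist_eq, sub_zero, abs_of_nonneg measureReal_nonneg]
    exact hlt
  have h1 := hδ' (μ.real A) hd
  have h2 : Real.negMulLog (μ.real A) + Real.negMulLog (1 - μ.real A) < η := by
    rw [Real.dist_eq] at h1
    have h3 := (abs_lt.1 h1).2
    have h4 : Real.negMulLog (0 : ℝ) + Real.negMulLog (1 - 0) = 0 := by simp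
    linarith
  have ht : (fun x => decide (x ∈ A)) ⁻¹' {true} = A := by
    ext x
    simp
  have hf : (fun x => decide (x ∈ A)) ⁻¹' {false} = Aᶜ := by
    ext x
    simp
  unfold shannon
  rw [Fintype.sum_bool, ht, hf, probReal_compl_eq_one_sub hA]
  exact h2.le

end PosEnt
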