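import Pool.Agent.Lib_MP_40e650.Defs

/-!
Piece E3: approximation of sets of the factor by finite windows.

`W K : X → κ K` are finite valued, measurable, and `W K` is a function of `W (K+1)`. The sets
`{x | (W K (τ^i x))_{|i| ≤ m} ∈ c}` (all `K`, `m`, `c`) form an algebra of sets which generates
`factor τ W`, so every set `A` of the factor is approximated in measure by one of them
(`exists_measure_symmDiff_lt_of_generateFrom_isSetRing`, or `MeasurableSpace.induction_on_inter`,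
applied to `μ` restricted / trimmed to the factor). Composing with `τ^m` (measure preserving) gives
a window of non-negative indices `0 ≤ i ≤ 2 m`.
Useful intermediate class: `C = {A | ∃ K m c, τ^[m] ⁻¹' A = {x | (W K (τ^[i] x))_{i ≤ 2m} ∈ c}}`
(closed under complements, finite unions: enlarge `K` and `m` first).
-/

open MeasureTheory Filter

namespace PosEnt

variable {X : Type*} [MeasurableSpace X] {μ : Measure X} [IsProbabilityMeasure μ]

/-- the set of the points whose centred window of radius `m` lies in `c` -/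
private def win {X : Type*} (τ : Equiv.Perm X) {κ : ℕ → Type*} (W : (K : ℕ) → X → κ K)
    (K m : ℕ) (c : Set (Fin (2 * m + 1) → κ K)) : Set X :=
  {x | (fun i : Fin (2 * m + 1) => W K ((τ ^ (((i : ℕ) : ℤ) - (m : ℤ))) x)) ∈ c}

private theorem win_up {X : Type*} (τ : Equiv.Perm X) {κ : ℕ → Type*} (W : (K : ℕ) → X → κ K)
    (hfac : ∀ K, ∃ F : κ (K + 1) → κ K, ∀ x, W K x = F (W (K + 1) x))
    {K K' : ℕ} (hK : K ≤ K') : ∃ F : κ K' → κ K, ∀ x, W K x = F (W K' x) := by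
  induction K', hK using Nat.le_induction with
  | base => exact ⟨id, fun x => rfl⟩
  | succ n hn ih =>
    obtain ⟨F, hF⟩ := ih
    obtain ⟨G, hG⟩ := hfac n
    exact ⟨F ∘ G, fun x => by rw [hF x, hG x]; rfl⟩

private theorem win_enlarge {X : Type*} (τ : Equiv.Perm X) {κ : ℕ → Type*}
    (W : (K : ℕ) → X → κ K)
    (hfac : ∀ K, ∃ F : κ (K + 1) → κ K, ∀ x, W K x = F (W (K + 1) x))
    {K K' m m' : ℕ} (hK : K ≤ K') (hm : m ≤ m') (c : Set (Fin (2 * m + 1) → κ K)) :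
    ∃ c' : Set (Fin (2 * m' + 1) → κ K'), win τ W K m c = win τ W K' m' c' := by
  obtain ⟨F, hF⟩ := win_up τ W hfac hK
  refine ⟨{v | (fun i : Fin (2 * m + 1) => F (v ⟨(i : ℕ) + (m' - m), by omega⟩)) ∈ c}, ?_⟩
  ext x
  simp only [win, Set.mem_ofPred_eq]
  have : (fun i : Fin (2 * m + 1) => W K ((τ ^ (((i : ℕ) : ℤ) - (m : ℤ))) x)) =
      (fun i : Fin (2 * m + 1) =>
        F (W K' ((τ ^ ((((i : ℕ) + (m' - m) : ℕ) : ℤ) - (m' : ℤ))) x))) := by
    funext i
    rw [hF]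
    have h1 : (((i : ℕ) + (m' - m) : ℕ) : ℤ) - (m' : ℤ) = ((i : ℕ) : ℤ) - (m : ℤ) := by
      push_cast [Nat.cast_sub hm]
      ring
    rw [h1]
  rw [this]

private def winClass {X : Type*} (τ : Equiv.Perm X) {κ : ℕ → Type*} (W : (K : ℕ) → X → κ K) :
    Set (Set X) := {A | ∃ K m c, A = win τ W K m c}

private theorem winClass_ring {X : Type*} (τ : Equiv.Perm X) {κ : ℕ → Type*}
    (W : (K : ℕ) → X → κ K)
    (hfac : ∀ K, ∃ F : κ (K + 1) → κ K, ∀ x, W K x = F (W (K + 1) x)) :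
    IsSetRing (winClass τ W) := by
  have key : ∀ s t : Set X, s ∈ winClass τ W → t ∈ winClass τ W →
      ∃ K m c c', s = win τ W K m c ∧ t = win τ W K m c' := by
    rintro s t ⟨K, m, c, rfl⟩ ⟨K', m', c', rfl⟩
    obtain ⟨d, hd⟩ := win_enlarge τ W hfac (le_max_left K K') (le_max_left m m') c
    obtain ⟨d', hd'⟩ := win_enlarge τ W hfac (le_max_right K K') (le_max_right m m') c'
    exact ⟨_, _, d, d', hd, hd'⟩
  refine ⟨⟨0, 0, ∅, by ext x; simp [win]⟩, ?_, ?_⟩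
  · intro s t hs ht
    obtain ⟨K, m, c, c', rfl, rfl⟩ := key s t hs ht
    exact ⟨K, m, c ∪ c', by ext x; simp [win]⟩
  · intro s t hs ht
    obtain ⟨K, m, c, c', rfl, rfl⟩ := key s t hs ht
    exact ⟨K, m, c \ c', by ext x; simp [win]⟩

private theorem factor_le_gen {X : Type*} (τ : Equiv.Perm X) {κ : ℕ → Type*}
    (W : (K : ℕ) → X → κ K) :
    factor τ W ≤ MeasurableSpace.generateFrom (winClass τ W) := by
  refine iSup_le fun K => iSup_le fun i => ?_
  rintro s ⟨B, -, rfl⟩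
  apply MeasurableSpace.measurableSet_generateFrom
  refine ⟨K, i.natAbs, {v | v ⟨(i + i.natAbs).toNat, by omega⟩ ∈ B}, ?_⟩
  ext x
  simp only [win, Set.mem_ofPred_eq, Set.mem_preimage]
  have h1 : (((i + (i.natAbs : ℤ)).toNat : ℕ) : ℤ) - (i.natAbs : ℤ) = i := by
    rw [Int.toNat_of_nonneg (by omega)]
    ring
  rw [h1]

private theorem perm_pow_meas (τ : X ≃ᵐ X) (i : ℤ) : Measurable (fun x => (τ.toEquiv ^ i) x) := by
  obtain ⟨n, rfl | rfl⟩ := i.eq_nat_or_neg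
  · have : (fun x => (τ.toEquiv ^ (n : ℤ)) x) = (τ : X → X)^[n] := by
      funext x
      rw [zpow_natCast, Equiv.Perm.coe_pow]
      rfl
    rw [this]
    exact τ.measurable.iterate n
  · have : (fun x => (τ.toEquiv ^ (-(n : ℤ))) x) = (τ.symm : X → X)^[n] := by
      funext x
      rw [zpow_neg, zpow_natCast, ← inv_pow, Equiv.Perm.coe_pow]
      rfl
    rw [this]
    exact τ.symm.measurable.iterate n

private theorem win_meas (τ : X ≃ᵐ X) {κ : ℕ → Type*} (W : (K : ℕ) → X → κ K)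
    [∀ K, Fintype (κ K)] (hW : ∀ K v, MeasurableSet (W K ⁻¹' {v})) (K m : ℕ)
    (c : Set (Fin (2 * m + 1) → κ K)) : MeasurableSet (win τ.toEquiv W K m c) := by
  have h1 : win τ.toEquiv W K m c = ⋃ v ∈ c, ⋂ i : Fin (2 * m + 1),
      (fun x => (τ.toEquiv ^ (((i : ℕ) : ℤ) - (m : ℤ))) x) ⁻¹' (W K ⁻¹' {v i}) := by
    ext x
    simp only [win, Set.mem_ofPred_eq, Set.mem_iUnion, Set.mem_iInter, Set.mem_preimage,
      Set.mem_singleton_iff, exists_prop]
    constructor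
    · intro h
      exact ⟨_, h, fun i => rfl⟩
    · rintro ⟨v, hv, h⟩
      rwa [show (fun i : Fin (2 * m + 1) => W K ((τ.toEquiv ^ (((i : ℕ) : ℤ) - (m : ℤ))) x)) = v
        from funext h]
  rw [h1]
  refine MeasurableSet.biUnion (Set.to_countable c) fun v _ => MeasurableSet.iInter fun i => ?_
  exact perm_pow_meas τ _ (hW K (v i))

private theorem gen_le (τ : X ≃ᵐ X) {κ : ℕ → Type*} (W : (K : ℕ) → X → κ K)
    [∀ K, Fintype (κ K)] (hW : ∀ K v, MeasurableSet (W K ⁻¹' {v})) :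
    MeasurableSpace.generateFrom (winClass τ.toEquiv W) ≤ (inferInstance : MeasurableSpace X) := by
  apply MeasurableSpace.generateFrom_le
  rintro s ⟨K, m, c, rfl⟩
  exact win_meas τ W hW K m c

theorem factor_le (τ : X ≃ᵐ X) {κ : ℕ → Type*} (W : (K : ℕ) → X → κ K)
    [∀ K, Fintype (κ K)] (hW : ∀ K v, MeasurableSet (W K ⁻¹' {v})) :
    factor τ.toEquiv W ≤ (inferInstance : MeasurableSpace X) :=
  (factor_le_gen _ _).trans (gen_le τ W hW)

private theorem approx_win (τ : X ≃ᵐ X) {κ : ℕ → Type*}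
    (W : (K : ℕ) → X → κ K) [∀ K, Fintype (κ K)] (hW : ∀ K v, MeasurableSet (W K ⁻¹' {v}))
    (hfac : ∀ K, ∃ F : κ (K + 1) → κ K, ∀ x, W K x = F (W (K + 1) x))
    {A : Set X} (hA : MeasurableSet[factor τ.toEquiv W] A) {δ : ℝ} (hδ : 0 < δ) :
    ∃ (K m : ℕ) (c : Set (Fin (2 * m + 1) → κ K)),
      μ (symmDiff (win τ.toEquiv W K m c) A) < ENNReal.ofReal δ := by
  have hle := gen_le τ W hW
  have hA' : MeasurableSet[MeasurableSpace.generateFrom (winClass τ.toEquiv W)] A :=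
    factor_le_gen _ _ _ hA
  have hfin : IsFiniteMeasure (μ.trim hle) := inferInstance
  obtain ⟨t, ⟨K, m, c, rfl⟩, ht⟩ := @exists_measure_symmDiff_lt_of_generateFrom_isSetRing X
    (MeasurableSpace.generateFrom (winClass τ.toEquiv W)) (μ.trim hle) hfin
    (winClass τ.toEquiv W) (winClass_ring τ.toEquiv W hfac)
    ⟨{Set.univ}, Set.countable_singleton _, by
      rintro s rfl
      exact ⟨0, 0, Set.univ, by ext x; simp [win]⟩, by simp⟩ rfl A hA' (ENNReal.ofReal δ)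
      (ENNReal.ofReal_pos.2 hδ)
  refine ⟨K, m, c, ?_⟩
  rwa [trim_measurableSet_eq hle] at ht
  refine MeasurableSet.symmDiff ?_ hA'
  exact MeasurableSpace.measurableSet_generateFrom ⟨K, m, c, rfl⟩

private theorem win_shift (τ : X ≃ᵐ X) (hτ : MeasurePreserving τ μ μ) {κ : ℕ → Type*}
    (W : (K : ℕ) → X → κ K) [∀ K, Fintype (κ K)] (hW : ∀ K v, MeasurableSet (W K ⁻¹' {v}))
    {A : Set X} (hA : MeasurableSet[factor τ.toEquiv W] A) {δ : ℝ} (hδ : 0 < δ)
    (K m : ℕ) (c : Set (Fin (2 * m + 1) → κ K))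
    (h : μ (symmDiff (win τ.toEquiv W K m c) A) < ENNReal.ofReal δ) :
    μ.real (symmDiff ((τ^[m]) ⁻¹' A) {x | (fun i : Fin (2 * m + 1) => W K (τ^[(i : ℕ)] x)) ∈ c})
        < δ := by
  have h1 : {x | (fun i : Fin (2 * m + 1) => W K (τ^[(i : ℕ)] x)) ∈ c} =
      (τ^[m]) ⁻¹' (win τ.toEquiv W K m c) := by
    ext x
    simp only [win, Set.mem_ofPred_eq, Set.mem_preimage]
    have : (fun i : Fin (2 * m + 1) => W K (τ^[(i : ℕ)] x)) =
        (fun i : Fin (2 * m + 1) =>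
          W K ((τ.toEquiv ^ (((i : ℕ) : ℤ) - (m : ℤ))) (τ^[m] x))) := by
      funext i
      congr 1
      have e1 : ∀ n : ℕ, (τ : X → X)^[n] x = (τ.toEquiv ^ n) x := by
        intro n
        rw [Equiv.Perm.coe_pow]
        rfl
      rw [e1, e1, ← Equiv.Perm.mul_apply, ← zpow_natCast τ.toEquiv m, ← zpow_add,
        sub_add_cancel, zpow_natCast]
    rw [this]
  have hAm : MeasurableSet A := factor_le τ W hW _ hA
  have h2 : μ (symmDiff ((τ^[m]) ⁻¹' A)
      {x | (fun i : Fin (2 * m + 1) => W K (τ^[(i : ℕ)] x)) ∈ c}) =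
      μ (symmDiff (win τ.toEquiv W K m c) A) := by
    rw [h1, ← Set.preimage_symmDiff, symmDiff_comm]
    exact (hτ.iterate m).measure_preimage
      ((win_meas τ W hW K m c).symmDiff hAm).nullMeasurableSet
  rw [measureReal_def, h2]
  exact ENNReal.toReal_lt_of_lt_ofReal h

theorem approx_factor (τ : X ≃ᵐ X) (hτ : MeasurePreserving τ μ μ) {κ : ℕ → Type*}
    (W : (K : ℕ) → X → κ K) [∀ K, Fintype (κ K)] (hW : ∀ K v, MeasurableSet (W K ⁻¹' {v}))
    (hfac : ∀ K, ∃ F : κ (K + 1) → κ K, ∀ x, W K x = F (W (K + 1) x))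
    {A : Set X} (hA : MeasurableSet[factor τ.toEquiv W] A) {δ : ℝ} (hδ : 0 < δ) :
    ∃ (K m : ℕ) (c : Set (Fin (2 * m + 1) → κ K)),
      μ.real (symmDiff ((τ^[m]) ⁻¹' A) {x | (fun i : Fin (2 * m + 1) => W K (τ^[(i : ℕ)] x)) ∈ c})
        < δ := by
  obtain ⟨K, m, c, h⟩ := approx_win (μ := μ) τ W hW hfac hA hδ
  exact ⟨K, m, c, win_shift τ hτ W hW hA hδ K m c h⟩

/-- common window: finitely many sets are approximated with the same `K`, `m`. -/
theorem approx_factor_fin (τ : X ≃ᵐ X) (hτ : MeasurePreserving τ μ μ) {κ : ℕ → Type*}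
    (W : (K : ℕ) → X → κ K) [∀ K, Fintype (κ K)] (hW : ∀ K v, MeasurableSet (W K ⁻¹' {v}))
    (hfac : ∀ K, ∃ F : κ (K + 1) → κ K, ∀ x, W K x = F (W (K + 1) x))
    {r : ℕ} (A : Fin r → Set X) (hA : ∀ l, MeasurableSet[factor τ.toEquiv W] (A l))
    {δ : ℝ} (hδ : 0 < δ) :
    ∃ (K m : ℕ) (c : Fin r → Set (Fin (2 * m + 1) → κ K)), ∀ l,
      μ.real (symmDiff ((τ^[m]) ⁻¹' (A l))
        {x | (fun i : Fin (2 * m + 1) => W K (τ^[(i : ℕ)] x)) ∈ c l}) < δ := by
  choose K m c h using fun l => approx_win (μ := μ) τ W hW hfac (hA l) hδ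
  choose d hd using fun l => win_enlarge τ.toEquiv W hfac
    (Finset.le_sup (f := K) (Finset.mem_univ l)) (Finset.le_sup (f := m) (Finset.mem_univ l)) (c l)
  refine ⟨_, _, d, fun l => win_shift τ hτ W hW (hA l) hδ _ _ _ ?_⟩
  rw [← hd l]
  exact h l

end PosEnt
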