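import Pool.Agent.Lib_MP_40e650.E4a_Name
import Pool.Agent.Lib_MP_40e650.E2_Small
import Pool.Agent.Lib_MP_40e650.E3_Approx

/-!
Piece E4: a factor generated with entropy `≤ b < h(τ)` is proper.

Choose a finite partition `Q : X → Fin r` with `limsup H_n(Q)/n > b` (definition of `ksEntropy` as
a supremum), and a real `c > b` with `H_n(Q)/n ≥ c` for infinitely many `n`. Suppose every set
`Q ⁻¹' {l}` is a.e. equal to a set `A l` of the factor. Let `η > 0` with `b + 2 η < c`, `δ` from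
`shannon_bool_small` for `η / (r + 1)`, and `K, m, c_l` from `approx_factor_fin`. Put
`C l = {x | (W K (τ^[i] x))_{i ≤ 2m} ∈ c_l}` and `Δ l = symmDiff (τ^[m] ⁻¹' (Q ⁻¹' {l})) (C l)`,
`μ.real (Δ l) < δ`. The name `(Q (τ^[k+m] x))_{k < n}` is a function of
`(W K (τ^[i] x))_{i < n + 2 m}` and `(decide (τ^[k] x ∈ Δ l))_{k < n, l}`: indeed
`Q (τ^[m] (τ^[k] x)) = l` iff exactly one of `τ^[k] x ∈ C l`, `τ^[k] x ∈ Δ l` holds.
So (`shannon_comp_le`, `shannon_prod_le`, `shannon_pi_le`, `shannon_comp_measurePreserving`)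
`H_n(Q) = shannon (name τ Q n ∘ τ^[m]) ≤ (n + 2 m) b + n r (η / (r+1)) ≤ (n + 2m) b + n η`.
Divide by `n`: for large `n` this is `≤ b + 2 η < c`, a contradiction.
-/

open MeasureTheory Filter

namespace PosEnt

variable {X : Type*} [MeasurableSpace X] {μ : Measure X} [IsProbabilityMeasure μ]

theorem exists_not_mem_factor (τ : X ≃ᵐ X) (hτ : MeasurePreserving τ μ μ) {κ : ℕ → Type*}
    (W : (K : ℕ) → X → κ K) [∀ K, Fintype (κ K)] (hW : ∀ K v, MeasurableSet (W K ⁻¹' {v}))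
    (hfac : ∀ K, ∃ F : κ (K + 1) → κ K, ∀ x, W K x = F (W (K + 1) x))
    {b : ℝ} (hb : ∀ K, shannon μ (W K) ≤ b) (hent : (b : EReal) < ksEntropy μ τ) :
    ∃ A : Set X, MeasurableSet A ∧
      ∀ A' : Set X, MeasurableSet[factor τ.toEquiv W] A' → ¬ (A =ᵐ[μ] A') := by
  by_contra hcon
  push Not at hcon
  -- a finite partition with large entropy
  unfold ksEntropy at hent
  rw [lt_iSup_iff] at hent
  obtain ⟨r, hent⟩ := hent
  rw [lt_iSup_iff] at hent
  obtain ⟨Q, hent⟩ := hent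
  rw [lt_iSup_iff] at hent
  obtain ⟨hQ, hent⟩ := hent
  obtain ⟨c, hbc, hcl⟩ := EReal.lt_iff_exists_real_btwn.1 hent
  have hbc' : b < c := by exact_mod_cast hbc
  have hfreq := frequently_lt_of_lt_limsup (by isBoundedDefault) hcl
  -- sets of the factor
  have hQm : ∀ l : Fin r, MeasurableSet (Q ⁻¹' {l}) := fun l => hQ (measurableSet_singleton l)
  choose A' hA' hAe using fun l : Fin r => hcon (Q ⁻¹' {l}) (hQm l)
  set η : ℝ := (c - b) / 2 with hηdef
  have hη : 0 < η := by rw [hηdef]; linarith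
  have hη0 : 0 < η / (r + 1) := by positivity
  obtain ⟨δ, hδ, hsmall⟩ := shannon_bool_small (μ := μ) hη0
  obtain ⟨K, m, cl, hcl'⟩ := approx_factor_fin τ hτ W hW hfac A' hA' hδ
  have hτm : Measurable (τ^[m]) := τ.measurable.iterate m
  have hC : ∀ l, MeasurableSet {x | (fun i : Fin (2 * m + 1) => W K (τ^[(i : ℕ)] x)) ∈ cl l} := by
    intro l
    have h1 : {x | (fun i : Fin (2 * m + 1) => W K (τ^[(i : ℕ)] x)) ∈ cl l} =
        ⋃ v ∈ cl l, ⋂ i : Fin (2 * m + 1), (τ^[(i : ℕ)]) ⁻¹' (W K ⁻¹' {v i}) := by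
      ext x
      simp only [Set.mem_setOf_eq, Set.mem_iUnion, Set.mem_iInter, Set.mem_preimage,
        Set.mem_singleton_iff, exists_prop]
      constructor
      · intro h
        exact ⟨_, h, fun _ => rfl⟩
      · rintro ⟨v, hv, h⟩
        have : (fun i : Fin (2 * m + 1) => W K (τ^[(i : ℕ)] x)) = v := funext h
        rw [this]
        exact hv
    rw [h1]
    refine MeasurableSet.biUnion (Set.to_countable _) fun v _ => ?_
    exact MeasurableSet.iInter fun i => (τ.measurable.iterate i) (hW K (v i))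
  have hkey : ∀ l, ∀ D : Set X, D = symmDiff ((τ^[m]) ⁻¹' (Q ⁻¹' {l}))
        {x | (fun i : Fin (2 * m + 1) => W K (τ^[(i : ℕ)] x)) ∈ cl l} →
      shannon μ (fun x => @decide (x ∈ D) (Classical.propDecidable _)) ≤ η / (r + 1) := by
    intro l D hD
    have hDm : MeasurableSet D := by
      rw [hD]
      exact (hτm (hQm l)).symmDiff (hC l)
    refine hsmall D hDm ?_
    have h2 : D =ᵐ[μ] (symmDiff ((τ^[m]) ⁻¹' (A' l))
        {x | (fun i : Fin (2 * m + 1) => W K (τ^[(i : ℕ)] x)) ∈ cl l} : Set X) := by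
      rw [hD]
      have h3 : ((τ^[m]) ⁻¹' (Q ⁻¹' {l}) : Set X) =ᵐ[μ] ((τ^[m]) ⁻¹' (A' l) : Set X) :=
        (hτ.iterate m).quasiMeasurePreserving.preimage_ae_eq (hAe l)
      exact h3.symmDiff (ae_eq_refl _)
    rw [measureReal_congr h2]
    exact hcl' l
  have hent2 : ∀ n : ℕ, shannon μ (name τ Q n) ≤ (n + 2 * m) * b + n * (r * (η / (r + 1))) :=
    fun n => name_entropy_le τ hτ (W K) (hW K) Q hQ m cl (hb K) hkey n
  have hrη : r * (η / (r + 1)) ≤ η := by
    rw [mul_div_assoc', div_le_iff₀ (by positivity)]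
    nlinarith
  obtain ⟨N, hN⟩ := exists_nat_gt (2 * m * b / η)
  obtain ⟨n, hn, hnN⟩ := (hfreq.and_eventually (eventually_ge_atTop (N + 1))).exists
  have hn' : c < shannon μ (name τ Q n) / n := by exact_mod_cast hn
  have hn0 : (0 : ℝ) < n := by
    have : 0 < n := by omega
    exact_mod_cast this
  rw [lt_div_iff₀ hn0] at hn'
  have h5 := hent2 n
  have h6 : (n : ℝ) * (r * (η / (r + 1))) ≤ n * η := mul_le_mul_of_nonneg_left hrη hn0.le
  have h7 : (N : ℝ) < n := by
    have : N < n := by omega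
    exact_mod_cast this
  have h8 : 2 * m * b < n * η := by
    rw [← div_lt_iff₀ hη]
    linarith
  have h9 : c = b + 2 * η := by rw [hηdef]; ring
  rw [h9] at hn'
  nlinarith

end PosEnt
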