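import Pool.Agent.Lib_MP_40e650.E6_Step

/-!
Piece E7: iteration of the step.

Put `j k = a + k + 1`. Start with `e_0 = f`, `E_0 = F`; at step `k` apply `step` with `B (j k)`,
`N = 2 ^ (j k)`, `E_k` (`= F` for `k = 0`, `= 1/4^(j (k-1))` for `k ≥ 1`), `ε_k = 1/4^(j k)`,
`L_k = ⌈4 F 8^(j k)⌉₊`: `(N+1) E_k / ε_k + 1 ≤ 4 F 8^(j k)` in both cases. (Construct the
sequence by recursion on pairs (function, proof of measurability and bound), or by
`exists_seq`-like choice.) Then `f = ∑_{k<K} (s_k ∘ τ - s_k) + ∑_{k<K} val (w_k) + e_K`,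
`‖s_k‖ ≤ 2^(j k) / 4^(j (k-1)) ≤ 4 / 2^(a+k+1) * ...` for `k ≥ 1` (geometric), so `u = ∑ s_k`
converges uniformly (bounded, measurable as a limit) and `g = ∑ val (w_k)` is the pointwise limit.
-/

open MeasureTheory Filter Topology

namespace PosEnt

variable {X : Type*} [MeasurableSpace X]

/-- the bound of the error function before step `k` -/
private noncomputable def Eb (F : ℝ) (a k : ℕ) : ℝ :=
  if k = 0 then F else 4 / 4 ^ (a + k + 1)

private lemma Eb_succ (F : ℝ) (a k : ℕ) : Eb F a (k + 1) = 1 / 4 ^ (a + k + 1) := by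
  unfold Eb
  rw [if_neg (Nat.succ_ne_zero k)]
  rw [show a + (k + 1) + 1 = (a + k + 1) + 1 by ring, pow_succ]
  field_simp

private lemma box_bound {F : ℝ} (hF1 : 1 ≤ F) (a k : ℕ) :
    (((2 ^ (a + k + 1) : ℕ) : ℝ) + 1) * Eb F a k / (1 / 4 ^ (a + k + 1)) + 1
      ≤ ((⌈4 * F * 8 ^ (a + k + 1)⌉₊ : ℕ) : ℝ) := by
  refine le_trans ?_ (Nat.le_ceil _)
  have h8 : (8 : ℝ) ^ (a + k + 1) = 2 ^ (a + k + 1) * 4 ^ (a + k + 1) := by
    rw [← mul_pow]; norm_num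
  have h2 : (1 : ℝ) ≤ 2 ^ (a + k + 1) := one_le_pow₀ (by norm_num)
  have h4 : (1 : ℝ) ≤ 4 ^ (a + k + 1) := one_le_pow₀ (by norm_num)
  push_cast
  rw [h8]
  set p : ℝ := 2 ^ (a + k + 1) with hp
  set q : ℝ := 4 ^ (a + k + 1) with hq
  have hpq : 1 ≤ p * q := one_le_mul_of_one_le_of_one_le h2 h4
  unfold Eb
  split_ifs with hk
  · have e1 : (p + 1) * F / (1 / q) + 1 = (p + 1) * F * q + 1 := by
      field_simp
    rw [e1]
    have h5 : q ≤ p * q := le_mul_of_one_le_left (by linarith) h2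
    have h6 : F * q ≤ F * (p * q) := mul_le_mul_of_nonneg_left h5 (by linarith)
    have h7 : 1 ≤ F * (p * q) := one_le_mul_of_one_le_of_one_le hF1 hpq
    nlinarith
  · have e1 : (p + 1) * (4 / q) / (1 / q) + 1 = 4 * p + 5 := by
      field_simp
      ring
    rw [e1]
    have hk1 : 2 ≤ a + k + 1 := by omega
    have h16 : (16 : ℝ) ≤ q := by
      have : (4 : ℝ) ^ 2 ≤ 4 ^ (a + k + 1) := pow_le_pow_right₀ (by norm_num) hk1
      rw [hq]; linarith
    have h9 : p * 16 ≤ p * q := mul_le_mul_of_nonneg_left h16 (by linarith)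
    have h10 : p * q ≤ F * (p * q) := le_mul_of_one_le_left (by linarith) hF1
    nlinarith

private lemma s_bound {F : ℝ} (hF1 : 1 ≤ F) (a k : ℕ) :
    (((2 ^ (a + k + 1) : ℕ) : ℝ)) * Eb F a k ≤ (2 ^ (a + 1) * F + 4) * (1 / 2) ^ k := by
  push_cast
  unfold Eb
  have hpos : (0 : ℝ) < 2 ^ (a + 1) * F := by positivity
  split_ifs with hk
  · subst hk
    simp
  · have h4 : (4 : ℝ) ^ (a + k + 1) = 2 ^ (a + k + 1) * 2 ^ (a + k + 1) := by
      rw [← mul_pow]; norm_num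
    have h2 : (0 : ℝ) < 2 ^ (a + k + 1) := by positivity
    have e1 : (2 : ℝ) ^ (a + k + 1) * (4 / 4 ^ (a + k + 1)) = 4 * (1 / 2) ^ (a + k + 1) := by
      rw [h4, one_div, inv_pow]
      field_simp
    rw [e1]
    have h3 : ((1 : ℝ) / 2) ^ (a + k + 1) ≤ (1 / 2) ^ k :=
      pow_le_pow_of_le_one (by norm_num) (by norm_num) (by omega)
    have h5 : (0 : ℝ) ≤ (1 / 2) ^ k := by positivity
    nlinarith [mul_nonneg hpos.le h5]

private lemma Eb_tendsto (F : ℝ) (a : ℕ) : Tendsto (Eb F a) atTop (𝓝 0) := by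
  rw [← tendsto_add_atTop_iff_nat 1]
  have h : (fun k => Eb F a (k + 1)) = fun k => (1 / 4 ^ (a + 1)) * (1 / 4 : ℝ) ^ k := by
    funext k
    rw [Eb_succ, show a + k + 1 = (a + 1) + k by ring, pow_add, one_div_pow]
    field_simp
  rw [h]
  have := (tendsto_pow_atTop_nhds_zero_of_lt_one (r := (1 / 4 : ℝ)) (by norm_num)
    (by norm_num)).const_mul (1 / 4 ^ (a + 1) : ℝ)
  simpa using this

theorem iterate (τ : X ≃ᵐ X) (B : ℕ → Set X) (hB : ∀ j, MeasurableSet (B j))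
    (hgap : ∀ j x, ∃ i < 2 ^ j, (τ.symm^[i]) x ∈ B j) {f : X → ℂ} (hf : Measurable f) {F : ℝ}
    (hF1 : 1 ≤ F) (hF : ∀ x, ‖f x‖ ≤ F) (a : ℕ) :
    ∃ (u g : X → ℂ) (L : ℕ → ℕ) (ε : ℕ → ℝ) (w : (k : ℕ) → X → Box (L k)),
      Measurable u ∧ (∃ C : ℝ, ∀ x, ‖u x‖ ≤ C) ∧ (∀ k, Measurable (w k)) ∧
      (∀ x, f x = u (τ x) - u x + g x) ∧
      (∀ x, Tendsto (fun K => ∑ k ∈ Finset.range K, val (ε k) (L k) (w k x)) atTop (𝓝 (g x))) ∧
      (∀ k x, τ x ∉ B (a + k + 1) → w k x = zeroBox (L k)) ∧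
      (∀ k, (L k : ℝ) ≤ 5 * F * 8 ^ (a + k + 1)) := by
  classical
  have key : ∀ (k : ℕ) (e : X → ℂ), Measurable e → (∀ x, ‖e x‖ ≤ Eb F a k) →
      ∃ (s e' : X → ℂ) (w : X → Box (⌈4 * F * 8 ^ (a + k + 1)⌉₊)),
        Measurable s ∧ Measurable e' ∧ Measurable w ∧
        (∀ x, e x = s (τ x) - s x + val (1 / 4 ^ (a + k + 1)) (⌈4 * F * 8 ^ (a + k + 1)⌉₊) (w x)
          + e' x) ∧
        (∀ x, ‖s x‖ ≤ ((2 ^ (a + k + 1) : ℕ) : ℝ) * Eb F a k) ∧
        (∀ x, ‖e' x‖ ≤ Eb F a (k + 1)) ∧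
        (∀ x, τ x ∉ B (a + k + 1) → w x = zeroBox (⌈4 * F * 8 ^ (a + k + 1)⌉₊)) := by
    intro k e he hE
    rw [Eb_succ]
    exact step τ (hB (a + k + 1)) (hgap (a + k + 1)) he hE (by positivity) (box_bound hF1 a k)
  choose S E' W hS hE' hW heq hSb hE'b hWB using key
  let st : (k : ℕ) → {e : X → ℂ // Measurable e ∧ ∀ x, ‖e x‖ ≤ Eb F a k} := fun k =>
    Nat.rec ⟨f, hf, by intro x; simpa [Eb] using hF x⟩
      (fun k p => ⟨E' k p.1 p.2.1 p.2.2, hE' k p.1 p.2.1 p.2.2, hE'b k p.1 p.2.1 p.2.2⟩) k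
  have st0 : (st 0).1 = f := rfl
  have stS : ∀ k, (st (k + 1)).1 = E' k (st k).1 (st k).2.1 (st k).2.2 := fun k => rfl
  let s : ℕ → X → ℂ := fun k => S k (st k).1 (st k).2.1 (st k).2.2
  have hsb : ∀ k x, ‖s k x‖ ≤ (2 ^ (a + 1) * F + 4) * (1 / 2) ^ k := fun k x =>
    (hSb k (st k).1 (st k).2.1 (st k).2.2 x).trans (s_bound hF1 a k)
  have hsum : HasSum (fun k : ℕ => (2 ^ (a + 1) * F + 4) * (1 / 2 : ℝ) ^ k)
      ((2 ^ (a + 1) * F + 4) * 2) := hasSum_geometric_two.mul_left _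
  have hssum : ∀ x, Summable (fun k => s k x) := fun x =>
    Summable.of_norm_bounded hsum.summable (fun k => hsb k x)
  have hrec : ∀ (x : X) (K : ℕ), f x = (∑ k ∈ Finset.range K, s k (τ x))
      - (∑ k ∈ Finset.range K, s k x)
      + (∑ k ∈ Finset.range K, val (1 / 4 ^ (a + k + 1)) (⌈4 * F * 8 ^ (a + k + 1)⌉₊)
          (W k (st k).1 (st k).2.1 (st k).2.2 x)) + (st K).1 x := by
    intro x K
    induction K with
    | zero => simp [st0]
    | succ K ih =>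
      have h := heq K (st K).1 (st K).2.1 (st K).2.2 x
      rw [Finset.sum_range_succ, Finset.sum_range_succ, Finset.sum_range_succ, stS]
      rw [ih]
      rw [h]
      simp only [s]
      ring
  refine ⟨fun x => ∑' k, s k x, fun x => f x - ((∑' k, s k (τ x)) - ∑' k, s k x),
    fun k => ⌈4 * F * 8 ^ (a + k + 1)⌉₊, fun k => 1 / 4 ^ (a + k + 1),
    fun k => W k (st k).1 (st k).2.1 (st k).2.2, ?_, ⟨(2 ^ (a + 1) * F + 4) * 2, ?_⟩, ?_, ?_, ?_,
    ?_, ?_⟩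
  · refine measurable_of_tendsto_metrizable (f := fun K x => ∑ k ∈ Finset.range K, s k x) ?_ ?_
    · intro K
      refine Finset.measurable_fun_sum _ ?_
      intro k _
      exact hS k (st k).1 (st k).2.1 (st k).2.2
    · rw [tendsto_pi_nhds]
      intro x
      exact (hssum x).hasSum.tendsto_sum_nat
  · intro x
    exact tsum_of_norm_bounded hsum (fun k => hsb k x)
  · intro k
    exact hW k (st k).1 (st k).2.1 (st k).2.2
  · intro x
    ring
  · intro x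
    have h1 := (hssum (τ x)).hasSum.tendsto_sum_nat
    have h2 := (hssum x).hasSum.tendsto_sum_nat
    have h3 : Tendsto (fun K => (st K).1 x) atTop (𝓝 0) := by
      refine squeeze_zero_norm (fun K => (st K).2.2 x) (Eb_tendsto F a)
    have h4 : Tendsto (fun K => f x - ((∑ k ∈ Finset.range K, s k (τ x))
      - (∑ k ∈ Finset.range K, s k x)) - (st K).1 x) atTop
        (𝓝 (f x - ((∑' k, s k (τ x)) - ∑' k, s k x) - 0)) :=
      (tendsto_const_nhds.sub (h1.sub h2)).sub h3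
    rw [sub_zero] at h4
    refine h4.congr ?_
    intro K
    have h5 := hrec x K
    rw [h5]
    ring
  · intro k x hx
    exact hWB k (st k).1 (st k).2.1 (st k).2.2 x hx
  · intro k
    have h8 : (1 : ℝ) ≤ 8 ^ (a + k + 1) := one_le_pow₀ (by norm_num)
    have h1 : ((⌈4 * F * 8 ^ (a + k + 1)⌉₊ : ℕ) : ℝ) ≤ 4 * F * 8 ^ (a + k + 1) + 1 :=
      (Nat.ceil_lt_add_one (by positivity)).le
    have h2 : 1 ≤ F * 8 ^ (a + k + 1) := one_le_mul_of_one_le_of_one_le hF1 h8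
    have h3 : ((⌈4 * F * 8 ^ (a + k + 1)⌉₊ : ℕ) : ℝ) ≤ 5 * F * 8 ^ (a + k + 1) := by
      linarith
    exact h3

end PosEnt
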