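import Pool.Agent.Lib_MP_40e650.E2_Small
import Pool.Agent.Lib_MP_40e650.E5_Marker
import Pool.Agent.Lib_MP_40e650.E7_Iterate

/-!
Piece E8: every bounded function is boundedly cohomologous to a function of small entropy.

Take the markers of `exists_markers` and apply `iterate` with a large `a`. By `shannon_support_le`
with `p = 2 / 2 ^ j`, `j = a + k + 1` (`{w_k ≠ 0} ⊆ τ ⁻¹' (B j)`, `card = (2 L_k + 1)^2 ≤ (11 F 8^j)^2`),
`shannon μ (w k) ≤ 2/2^j (2 log (11 F) + 2 j log 8 + (j - 1) log 2 + 2) ≤ 2/2^j (c + 7 j)`, which is summable in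
`j`; its tail sum is `≤ η` for `a` large.
-/

open MeasureTheory Filter Topology

namespace PosEnt

variable {X : Type*} [MeasurableSpace X] {μ : Measure X} [IsProbabilityMeasure μ]

private theorem summable_bound (c : ℝ) :
    Summable (fun j : ℕ => 2 / 2 ^ j * (c + 7 * (j : ℝ))) := by
  have h1 : Summable (fun j : ℕ => (2 * c) * ((1 : ℝ) / 2) ^ j) :=
    (summable_geometric_of_lt_one (by norm_num) (by norm_num)).mul_left _
  have h2 : Summable (fun j : ℕ => 14 * ((j : ℝ) ^ 1 * ((1 : ℝ) / 2) ^ j)) := by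
    have h := summable_pow_mul_geometric_of_norm_lt_one (R := ℝ) 1 (r := 1 / 2)
      (by rw [Real.norm_eq_abs, abs_of_pos (by norm_num : (0 : ℝ) < 1 / 2)]; norm_num)
    exact h.mul_left 14
  have h3 : (fun j : ℕ => 2 / 2 ^ j * (c + 7 * (j : ℝ))) =
      fun j : ℕ => (2 * c) * ((1 : ℝ) / 2) ^ j + 14 * ((j : ℝ) ^ 1 * ((1 : ℝ) / 2) ^ j) := by
    funext j
    rw [one_div, inv_pow]
    ring
  rw [h3]
  exact h1.add h2

private theorem term_bound {F : ℝ} (hF : 1 ≤ F) {j L : ℕ} (hj : 1 ≤ j)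
    (hL : (L : ℝ) ≤ 5 * F * 8 ^ j) :
    (2 : ℝ) / 2 ^ j * (Real.log (Fintype.card (Box L)) + Real.log (1 / (2 / 2 ^ j)) + 2)
      ≤ 2 / 2 ^ j * ((2 * Real.log (11 * F) + 2) + 7 * (j : ℝ)) := by
  have hp : (0 : ℝ) < 2 / 2 ^ j := by positivity
  apply mul_le_mul_of_nonneg_left _ hp.le
  have hcard : (Fintype.card (Box L) : ℝ) = (2 * (L : ℝ) + 1) ^ 2 := by
    simp [Box, Fintype.card_prod, Fintype.card_fin]
    ring
  have h8 : (1 : ℝ) ≤ 8 ^ j := one_le_pow₀ (by norm_num)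
  have h1 : 2 * (L : ℝ) + 1 ≤ 11 * F * 8 ^ j := by nlinarith
  have h2 : Real.log (2 * (L : ℝ) + 1) ≤ Real.log (11 * F) + j * Real.log 8 := by
    have := Real.log_le_log (by positivity) h1
    rwa [Real.log_mul (by positivity) (by positivity), Real.log_pow] at this
  have hlog2 : Real.log 2 ≤ 1 := by
    have := Real.log_two_lt_d9
    linarith
  have h3 : Real.log 8 ≤ 3 := by
    have : (8 : ℝ) = 2 ^ 3 := by norm_num
    rw [this, Real.log_pow]
    push_cast
    linarith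
  have h4 : Real.log (1 / (2 / 2 ^ j)) ≤ (j : ℝ) := by
    have : (1 : ℝ) / (2 / 2 ^ j) = 2 ^ j / 2 := by
      field_simp
    rw [this]
    have h5 : Real.log ((2 : ℝ) ^ j / 2) ≤ Real.log (2 ^ j) :=
      Real.log_le_log (by positivity) (by
        have : (0 : ℝ) < 2 ^ j := by positivity
        linarith)
    rw [Real.log_pow] at h5
    have hj0 : (0 : ℝ) ≤ j := by positivity
    nlinarith
  rw [hcard, Real.log_pow]
  push_cast
  have hj0 : (0 : ℝ) ≤ j := by positivity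
  have : (j : ℝ) * Real.log 8 ≤ 3 * j := by nlinarith
  linarith

theorem cohom (τ : X ≃ᵐ X) (hτ : Ergodic τ μ) (hent : 0 < ksEntropy μ τ) {f : X → ℂ}
    (hf : Measurable f) {F : ℝ} (hF : ∀ x, ‖f x‖ ≤ F) {η : ℝ} (hη : 0 < η) :
    ∃ (u g : X → ℂ) (L : ℕ → ℕ) (ε : ℕ → ℝ) (w : (k : ℕ) → X → Box (L k)),
      Measurable u ∧ (∃ C : ℝ, ∀ x, ‖u x‖ ≤ C) ∧ (∀ k, Measurable (w k)) ∧
      (∀ x, f x = u (τ x) - u x + g x) ∧
      (∀ x, Tendsto (fun K => ∑ k ∈ Finset.range K, val (ε k) (L k) (w k x)) atTop (𝓝 (g x))) ∧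
      (∀ K, ∑ k ∈ Finset.range K, shannon μ (w k) ≤ η) := by
  obtain ⟨B, hB, hBμ, hgap⟩ := exists_markers τ hτ hent
  set F' : ℝ := max F 1 with hF'
  have hF1 : 1 ≤ F' := le_max_right _ _
  have hFf : ∀ x, ‖f x‖ ≤ F' := fun x => (hF x).trans (le_max_left _ _)
  set b : ℕ → ℝ := fun j => 2 / 2 ^ j * ((2 * Real.log (11 * F') + 2) + 7 * (j : ℝ)) with hb
  have hbs : Summable b := summable_bound _
  have hb0 : ∀ j, 0 ≤ b j := by
    intro j
    have : 0 ≤ Real.log (11 * F') := Real.log_nonneg (by linarith)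
    simp only [hb]
    positivity
  obtain ⟨a, ha⟩ : ∃ a : ℕ, ∑' k, b (k + (a + 1)) ≤ η := by
    have h := (tendsto_sum_nat_add b).comp (tendsto_add_atTop_nat 1)
    have h2 := (h.eventually (ge_mem_nhds hη)).exists
    obtain ⟨a, ha⟩ := h2
    exact ⟨a, ha⟩
  obtain ⟨u, g, L, ε, w, hu, hC, hw, hcoh, hlim, hsupp, hL⟩ :=
    iterate τ B hB hgap hf hF1 hFf a
  refine ⟨u, g, L, ε, w, hu, hC, hw, hcoh, hlim, fun K => ?_⟩
  have hterm : ∀ k, shannon μ (w k) ≤ b (k + (a + 1)) := by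
    intro k
    have hj : k + (a + 1) = a + k + 1 := by ring
    rw [hj]
    have hp : (0 : ℝ) < 2 / 2 ^ (a + k + 1) := by positivity
    have hp1 : (2 : ℝ) / 2 ^ (a + k + 1) ≤ 1 := by
      rw [div_le_one (by positivity)]
      calc (2 : ℝ) = 2 ^ 1 := by norm_num
        _ ≤ 2 ^ (a + k + 1) := pow_le_pow_right₀ (by norm_num) (by omega)
    have hms : μ.real {x | w k x ≠ zeroBox (L k)} ≤ 2 / 2 ^ (a + k + 1) := by
      have hsub : {x | w k x ≠ zeroBox (L k)} ⊆ τ ⁻¹' (B (a + k + 1)) := by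
        intro x hx
        by_contra hcon
        exact hx (hsupp k x hcon)
      calc μ.real {x | w k x ≠ zeroBox (L k)} ≤ μ.real (τ ⁻¹' (B (a + k + 1))) :=
            measureReal_mono hsub
        _ = μ.real (B (a + k + 1)) := by
            rw [measureReal_def, measureReal_def,
              hτ.toMeasurePreserving.measure_preimage (hB _).nullMeasurableSet]
        _ ≤ 2 / 2 ^ (a + k + 1) := hBμ _
    exact (shannon_support_le (w k) (fun v => hw k (MeasurableSet.of_discrete)) (zeroBox (L k))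
      hp hp1 hms).trans (term_bound hF1 (by omega) (hL k))
  calc ∑ k ∈ Finset.range K, shannon μ (w k) ≤ ∑ k ∈ Finset.range K, b (k + (a + 1)) :=
        Finset.sum_le_sum fun k _ => hterm k
    _ ≤ ∑' k, b (k + (a + 1)) :=
        ((summable_nat_add_iff (a + 1)).2 hbs).sum_le_tsum _ (fun k _ => hb0 _)
    _ ≤ η := ha

end PosEnt
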