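import Pool.Agent.Lib_MP_40e650.E11_Project

/-!
Piece F11: the invariant subspace from a one-sided σ-algebra (one-sided version of E11_Project.lean).

`K = lpMeas ℂ ℂ m 2 μ` (closed: `isClosed_aestronglyMeasurable hm`), `V = M_{exp u}`, `V' = M_{exp (-u)}`
from `exists_mulOp`, `M = K.comap V` (`f ∈ M` iff `exp(u) f ∈ K`). Closed as a preimage. `M ≠ ⊥`:
the function `exp (-u)` is in `M` (`V (V' 1) = 1`, `1 ∈ K`) and nonzero. `M ≠ ⊤`: otherwise
`V (V' 1_A) = 1_A ∈ K` for the set `A` of `hproper`, and `A =ᵐ h ⁻¹' {1}` for an `m`-measurable `h`.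
Invariance: `exp(u) * T f = exp(u) φ (f ∘ τ) = w * ((exp(u) f) ∘ τ)` a.e., `w` is `m`-measurable and
`h ∘ τ` is `m`-measurable if `h` is (by `hm1`). Multiplication operators: clear.
-/

open MeasureTheory Filter

namespace PosEnt

theorem exists_invariant {X : Type*} (m : MeasurableSpace X) {m0 : MeasurableSpace X}
    {μ : Measure X} [IsProbabilityMeasure μ] (τ : X ≃ᵐ X) (hτ : MeasurePreserving τ μ μ)
    (hm : m ≤ m0)
    (hm1 : ∀ A, MeasurableSet[m] A → MeasurableSet[m] (τ ⁻¹' A))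
    (hproper : ∃ A : Set X, MeasurableSet A ∧ ∀ A', MeasurableSet[m] A' → ¬ (A =ᵐ[μ] A'))
    {u w : X → ℂ} (hu : Measurable u) {C : ℝ} (hC : ∀ x, ‖u x‖ ≤ C)
    (hw : Measurable[m] w) {φ : X → ℂ}
    (hφ : ∀ᵐ x ∂μ, φ x = Complex.exp (u (τ x)) * Complex.exp (- u x) * w x) :
    ∃ M : Submodule ℂ (Lp ℂ 2 μ), IsClosed (M : Set (Lp ℂ 2 μ)) ∧ M ≠ ⊥ ∧ M ≠ ⊤ ∧
      (∀ T : Lp ℂ 2 μ →L[ℂ] Lp ℂ 2 μ,
        (∀ f : Lp ℂ 2 μ, (T f : X → ℂ) =ᵐ[μ] fun x => φ x * f (τ x)) → ∀ f ∈ M, T f ∈ M) ∧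
      (∀ (ψ : X → ℂ) (S : Lp ℂ 2 μ →L[ℂ] Lp ℂ 2 μ), Measurable[m] ψ →
        (∀ f : Lp ℂ 2 μ, (S f : X → ℂ) =ᵐ[μ] fun x => ψ x * f x) → ∀ f ∈ M, S f ∈ M) := by
  classical
  have hexpu : Measurable fun x => Complex.exp (u x) := Complex.measurable_exp.comp hu
  have hexpu' : Measurable fun x => Complex.exp (- u x) := Complex.measurable_exp.comp hu.neg
  have hb : ∀ x, ‖Complex.exp (u x)‖ ≤ Real.exp C := fun x => by
    rw [Complex.norm_exp]
    exact Real.exp_le_exp.2 ((Complex.re_le_norm _).trans (hC x))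
  have hb' : ∀ x, ‖Complex.exp (- u x)‖ ≤ Real.exp C := fun x => by
    rw [Complex.norm_exp]
    exact Real.exp_le_exp.2 ((Complex.re_le_norm _).trans (by rw [norm_neg]; exact hC x))
  obtain ⟨V, hV⟩ := exists_mulOp (μ := μ) hexpu hb
  obtain ⟨V', hV'⟩ := exists_mulOp (μ := μ) hexpu' hb'
  have a1 : ∀ x, Complex.exp (u x) * Complex.exp (- u x) = 1 := fun x => by
    rw [← Complex.exp_add]; simp
  have hVV'a : ∀ f, V (V' f) = f := fun f => by
    apply Lp.ext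
    filter_upwards [hV (V' f), hV' f] with x e1 e2
    rw [e1, e2, ← mul_assoc, a1, one_mul]
  have hmemM : ∀ f : Lp ℂ 2 μ, f ∈ (lpMeas ℂ ℂ m 2 μ).comap (V : Lp ℂ 2 μ →ₗ[ℂ] Lp ℂ 2 μ) ↔
      AEStronglyMeasurable[m] (V f : X → ℂ) μ := fun f => by
    rw [Submodule.mem_comap]
    exact mem_lpMeas_iff_aestronglyMeasurable
  refine ⟨(lpMeas ℂ ℂ m 2 μ).comap (V : Lp ℂ 2 μ →ₗ[ℂ] Lp ℂ 2 μ), ?_, ?_, ?_, ?_, ?_⟩
  · -- closed
    have hcl : IsClosed {f : Lp ℂ 2 μ | AEStronglyMeasurable[m] (f : X → ℂ) μ} :=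
      isClosed_aestronglyMeasurable hm
    have h2 : (((lpMeas ℂ ℂ m 2 μ).comap (V : Lp ℂ 2 μ →ₗ[ℂ] Lp ℂ 2 μ) :
        Submodule ℂ (Lp ℂ 2 μ)) : Set (Lp ℂ 2 μ))
        = V ⁻¹' {f : Lp ℂ 2 μ | AEStronglyMeasurable[m] (f : X → ℂ) μ} := by
      ext f
      rw [SetLike.mem_coe, hmemM]
      rfl
    rw [h2]
    exact hcl.preimage V.continuous
  · -- nonzero
    intro h0
    set one : Lp ℂ 2 μ := indicatorConstLp 2 MeasurableSet.univ (measure_ne_top μ _) (1 : ℂ)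
      with hone
    have h1 : (one : X → ℂ) =ᵐ[μ] fun _ => (1 : ℂ) := by
      filter_upwards [indicatorConstLp_coeFn (p := 2) (μ := μ) (hs := MeasurableSet.univ)
        (hμs := measure_ne_top μ _) (c := (1 : ℂ))] with x hx
      rw [hone, hx]; simp
    have h2 : V' one ∈ (lpMeas ℂ ℂ m 2 μ).comap (V : Lp ℂ 2 μ →ₗ[ℂ] Lp ℂ 2 μ) := by
      rw [hmemM, hVV'a]
      exact ⟨fun _ => 1, stronglyMeasurable_const, h1⟩
    rw [h0, Submodule.mem_bot] at h2
    have h3 : one = 0 := by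
      rw [← hVV'a one, h2, map_zero]
    have h4 : ∀ᵐ _x ∂μ, False := by
      filter_upwards [h1, Lp.coeFn_zero ℂ 2 μ] with x e1 e2
      rw [h3, e2] at e1
      simp at e1
    exact IsProbabilityMeasure.ne_zero μ (by simpa using h4)
  · -- proper
    intro h0
    obtain ⟨A, hA, hA'⟩ := hproper
    set a : Lp ℂ 2 μ := indicatorConstLp 2 hA (measure_ne_top μ _) (1 : ℂ) with ha
    have h1 : V' a ∈ (lpMeas ℂ ℂ m 2 μ).comap (V : Lp ℂ 2 μ →ₗ[ℂ] Lp ℂ 2 μ) := by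
      rw [h0]; exact Submodule.mem_top
    rw [hmemM, hVV'a] at h1
    obtain ⟨h, hsm, hah⟩ := h1
    refine hA' (h ⁻¹' {1}) (hsm.measurable (measurableSet_singleton 1)) ?_
    filter_upwards [hah, indicatorConstLp_coeFn (p := 2) (μ := μ) (hs := hA)
        (hμs := measure_ne_top μ _) (c := (1 : ℂ))] with x e1 e2
    rw [ha, e2] at e1
    change (x ∈ A) = (x ∈ h ⁻¹' {1})
    apply propext
    rw [Set.mem_preimage, Set.mem_singleton_iff, ← e1]
    by_cases hx : x ∈ A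
    · simp [hx]
    · simp [hx]
  · -- invariance under `T`
    intro T hT f hf
    rw [hmemM] at hf ⊢
    obtain ⟨g, hg, hfg⟩ := hf
    have hcm : Measurable[m, m] (τ : X → X) := fun s hs => hm1 s hs
    refine ⟨fun x => w x * g (τ x), hw.stronglyMeasurable.mul (hg.comp_measurable hcm), ?_⟩
    have h3 := hτ.quasiMeasurePreserving.ae_eq_comp (hV f)
    have h4 := hτ.quasiMeasurePreserving.ae_eq_comp hfg
    filter_upwards [hV (T f), hT f, hφ, h3, h4] with x e1 e2 e3 e4 e5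
    simp only [Function.comp_apply] at e4 e5
    rw [e1, e2, e3, ← e5, e4]
    calc Complex.exp (u x) * (Complex.exp (u (τ x)) * Complex.exp (- u x) * w x * f (τ x))
        = (Complex.exp (u x) * Complex.exp (- u x)) *
          (w x * (Complex.exp (u (τ x)) * f (τ x))) := by ring
      _ = w x * (Complex.exp (u (τ x)) * f (τ x)) := by rw [a1, one_mul]
  · -- multiplication operators
    intro ψ S hψ hS f hf
    rw [hmemM] at hf ⊢
    obtain ⟨g, hg, hfg⟩ := hf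
    refine ⟨fun x => ψ x * g x, hψ.stronglyMeasurable.mul hg, ?_⟩
    filter_upwards [hV (S f), hS f, hV f, hfg] with x e1 e2 e3 e4
    rw [e1, e2, ← e4, e3]
    ring

end PosEnt
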