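import Pool.Agent.Lib_MP_40e650.Defs1

/-!
Piece F3: approximation of sets of the one-sided factor by finite windows of non-negative indices
(the one-sided version of E3_Approx.lean; the same proof, simpler because no shift by `τ^m` is
needed).

`W K : X → κ K` are finite valued, measurable, and `W K` is a function of `W (K+1)`. The sets
`{x | (W K (τ^[i] x))_{i < m} ∈ c}` (all `K`, `m`, `c`) form an algebra of sets which generates
`factor1 τ W`, so every set `A` of the factor is approximated in measure by one of them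
(`exists_measure_symmDiff_lt_of_generateFrom_isSetRing`). For a finite family enlarge `K`, `m`.
-/

open MeasureTheory Filter

namespace PosEnt

variable {X : Type*} [MeasurableSpace X] {μ : Measure X} [IsProbabilityMeasure μ]

/-- the set of the points whose window of the indices `i < m` lies in `c` -/
private def win {X : Type*} (τ : X → X) {κ : ℕ → Type*} (W : (K : ℕ) → X → κ K)
    (K m : ℕ) (c : Set (Fin m → κ K)) : Set X :=
  {x | (fun i : Fin m => W K (τ^[(i : ℕ)] x)) ∈ c}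

private theorem win_up {X : Type*} {κ : ℕ → Type*} (W : (K : ℕ) → X → κ K)
    (hfac : ∀ K, ∃ F : κ (K + 1) → κ K, ∀ x, W K x = F (W (K + 1) x))
    {K K' : ℕ} (hK : K ≤ K') : ∃ F : κ K' → κ K, ∀ x, W K x = F (W K' x) := by
  induction K', hK using Nat.le_induction with
  | base => exact ⟨id, fun x => rfl⟩
  | succ n hn ih =>
    obtain ⟨F, hF⟩ := ih
    obtain ⟨G, hG⟩ := hfac n
    exact ⟨F ∘ G, fun x => by rw [hF x, hG x]; rfl⟩

private theorem win_enlarge {X : Type*} (τ : X → X) {κ : ℕ → Type*}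
    (W : (K : ℕ) → X → κ K)
    (hfac : ∀ K, ∃ F : κ (K + 1) → κ K, ∀ x, W K x = F (W (K + 1) x))
    {K K' m m' : ℕ} (hK : K ≤ K') (hm : m ≤ m') (c : Set (Fin m → κ K)) :
    ∃ c' : Set (Fin m' → κ K'), win τ W K m c = win τ W K' m' c' := by
  obtain ⟨F, hF⟩ := win_up W hfac hK
  refine ⟨{v | (fun i : Fin m => F (v ⟨(i : ℕ), by omega⟩)) ∈ c}, ?_⟩
  ext x
  simp only [win, Set.mem_ofPred_eq]
  have : (fun i : Fin m => W K (τ^[(i : ℕ)] x)) =
      (fun i : Fin m => F (W K' (τ^[(i : ℕ)] x))) := by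
    funext i
    rw [hF]
  rw [this]

private def winClass {X : Type*} (τ : X → X) {κ : ℕ → Type*} (W : (K : ℕ) → X → κ K) :
    Set (Set X) := {A | ∃ K m c, A = win τ W K m c}

private theorem winClass_ring {X : Type*} (τ : X → X) {κ : ℕ → Type*}
    (W : (K : ℕ) → X → κ K)
    (hfac : ∀ K, ∃ F : κ (K + 1) → κ K, ∀ x, W K x = F (W (K + 1) x)) :
    IsSetRing (winClass τ W) := by
  have key : ∀ s t : Set X, s ∈ winClass τ W → t ∈ winClass τ W →
      ∃ K m c c', s = win τ W K m c ∧ t = win τ W K m c' := by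
    rintro s t ⟨K, m, c, rfl⟩ ⟨K', m', c', rfl⟩
    obtain ⟨d, hd⟩ := win_enlarge τ W hfac (le_max_left K K') (le_max_left m m') c
    obtain ⟨d', hd'⟩ := win_enlarge τ W hfac (le_max_right K K') (le_max_right m m') c'
    exact ⟨_, _, d, d', hd, hd'⟩
  refine ⟨⟨0, 0, ∅, by ext x; simp [win]⟩, ?_, ?_⟩
  · intro s t hs ht
    obtain ⟨K, m, c, c', rfl, rfl⟩ := key s t hs ht
    exact ⟨K, m, c ∪ c', by ext x; simp [win]⟩
  · intro s t hs ht
    obtain ⟨K, m, c, c', rfl, rfl⟩ := key s t hs ht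
    exact ⟨K, m, c \ c', by ext x; simp [win]⟩

private theorem factor1_le_gen {X : Type*} (τ : X → X) {κ : ℕ → Type*}
    (W : (K : ℕ) → X → κ K) :
    factor1 τ W ≤ MeasurableSpace.generateFrom (winClass τ W) := by
  refine iSup_le fun K => iSup_le fun i => ?_
  rintro s ⟨B, -, rfl⟩
  apply MeasurableSpace.measurableSet_generateFrom
  refine ⟨K, i + 1, {v | v ⟨i, by omega⟩ ∈ B}, ?_⟩
  ext x
  simp only [win, Set.mem_ofPred_eq, Set.mem_preimage]

private theorem win_meas {τ : X → X} (hτ : Measurable τ) {κ : ℕ → Type*}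
    (W : (K : ℕ) → X → κ K)
    [∀ K, Fintype (κ K)] (hW : ∀ K v, MeasurableSet (W K ⁻¹' {v})) (K m : ℕ)
    (c : Set (Fin m → κ K)) : MeasurableSet (win τ W K m c) := by
  have h1 : win τ W K m c = ⋃ v ∈ c, ⋂ i : Fin m,
      (fun x => τ^[(i : ℕ)] x) ⁻¹' (W K ⁻¹' {v i}) := by
    ext x
    simp only [win, Set.mem_ofPred_eq, Set.mem_iUnion, Set.mem_iInter, Set.mem_preimage,
      Set.mem_singleton_iff, exists_prop]
    constructor
    · intro h
      exact ⟨_, h, fun i => rfl⟩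
    · rintro ⟨v, hv, h⟩
      rwa [show (fun i : Fin m => W K (τ^[(i : ℕ)] x)) = v from funext h]
  rw [h1]
  refine MeasurableSet.biUnion (Set.to_countable c) fun v _ => MeasurableSet.iInter fun i => ?_
  exact (hτ.iterate (i : ℕ)) (hW K (v i))

private theorem gen_le {τ : X → X} (hτ : Measurable τ) {κ : ℕ → Type*}
    (W : (K : ℕ) → X → κ K)
    [∀ K, Fintype (κ K)] (hW : ∀ K v, MeasurableSet (W K ⁻¹' {v})) :
    MeasurableSpace.generateFrom (winClass τ W) ≤ (inferInstance : MeasurableSpace X) := by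
  apply MeasurableSpace.generateFrom_le
  rintro s ⟨K, m, c, rfl⟩
  exact win_meas hτ W hW K m c

theorem factor1_le {τ : X → X} (hτ : Measurable τ) {κ : ℕ → Type*} (W : (K : ℕ) → X → κ K)
    [∀ K, Fintype (κ K)] (hW : ∀ K v, MeasurableSet (W K ⁻¹' {v})) :
    factor1 τ W ≤ (inferInstance : MeasurableSpace X) :=
  (factor1_le_gen _ _).trans (gen_le hτ W hW)

private theorem approx_win {τ : X → X} (hτ : Measurable τ) {κ : ℕ → Type*}
    (W : (K : ℕ) → X → κ K) [∀ K, Fintype (κ K)] (hW : ∀ K v, MeasurableSet (W K ⁻¹' {v}))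
    (hfac : ∀ K, ∃ F : κ (K + 1) → κ K, ∀ x, W K x = F (W (K + 1) x))
    {A : Set X} (hA : MeasurableSet[factor1 τ W] A) {δ : ℝ} (hδ : 0 < δ) :
    ∃ (K m : ℕ) (c : Set (Fin m → κ K)),
      μ.real (symmDiff A (win τ W K m c)) < δ := by
  have hle := gen_le hτ W hW
  have hA' : MeasurableSet[MeasurableSpace.generateFrom (winClass τ W)] A :=
    factor1_le_gen _ _ _ hA
  have hfin : IsFiniteMeasure (μ.trim hle) := inferInstance
  obtain ⟨t, ⟨K, m, c, rfl⟩, ht⟩ := @exists_measure_symmDiff_lt_of_generateFrom_isSetRing X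
    (MeasurableSpace.generateFrom (winClass τ W)) (μ.trim hle) hfin
    (winClass τ W) (winClass_ring τ W hfac)
    ⟨{Set.univ}, Set.countable_singleton _, by
      rintro s rfl
      exact ⟨0, 0, Set.univ, by ext x; simp [win]⟩, by simp⟩ rfl A hA' (ENNReal.ofReal δ)
      (ENNReal.ofReal_pos.2 hδ)
  refine ⟨K, m, c, ?_⟩
  rw [symmDiff_comm, measureReal_def]
  refine ENNReal.toReal_lt_of_lt_ofReal ?_
  rwa [trim_measurableSet_eq hle] at ht
  refine MeasurableSet.symmDiff ?_ hA'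
  exact MeasurableSpace.measurableSet_generateFrom ⟨K, m, c, rfl⟩

theorem approx_factor1 {τ : X → X} (hτ : Measurable τ) {κ : ℕ → Type*}
    (W : (K : ℕ) → X → κ K) [∀ K, Fintype (κ K)] (hW : ∀ K v, MeasurableSet (W K ⁻¹' {v}))
    (hfac : ∀ K, ∃ F : κ (K + 1) → κ K, ∀ x, W K x = F (W (K + 1) x))
    {A : Set X} (hA : MeasurableSet[factor1 τ W] A) {δ : ℝ} (hδ : 0 < δ) :
    ∃ (K m : ℕ) (c : Set (Fin m → κ K)),
      μ.real (symmDiff A {x | (fun i : Fin m => W K (τ^[(i : ℕ)] x)) ∈ c}) < δ :=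
  approx_win (μ := μ) hτ W hW hfac hA hδ

/-- common window: finitely many sets are approximated with the same `K`, `m`. -/
theorem approx_factor1_fin {τ : X → X} (hτ : Measurable τ) {κ : ℕ → Type*}
    (W : (K : ℕ) → X → κ K) [∀ K, Fintype (κ K)] (hW : ∀ K v, MeasurableSet (W K ⁻¹' {v}))
    (hfac : ∀ K, ∃ F : κ (K + 1) → κ K, ∀ x, W K x = F (W (K + 1) x))
    {J : Type*} [Fintype J] (A : J → Set X) (hA : ∀ l, MeasurableSet[factor1 τ W] (A l))
    {δ : ℝ} (hδ : 0 < δ) :
    ∃ (K m : ℕ) (c : J → Set (Fin m → κ K)), ∀ l,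
      μ.real (symmDiff (A l) {x | (fun i : Fin m => W K (τ^[(i : ℕ)] x)) ∈ c l}) < δ := by
  choose K m c h using fun l => approx_win (μ := μ) hτ W hW hfac (hA l) hδ
  choose d hd using fun l => win_enlarge τ W hfac
    (Finset.le_sup (f := K) (Finset.mem_univ l)) (Finset.le_sup (f := m) (Finset.mem_univ l)) (c l)
  refine ⟨_, _, d, fun l => ?_⟩
  have h1 := h l
  rw [hd l] at h1
  exact h1

end PosEnt
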