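import Pool.Agent.Lib_MP_40e650.F4a_Name1
import Pool.Agent.Lib_MP_40e650.E2_Small
import Pool.Agent.Lib_MP_40e650.F3_Approx1
import Pool.Agent.Lib_MP_40e650.E4_Proper

/-!
Piece F4: the one-sided factor generated by an arbitrary finite partition `R` and a sequence `E K`
of entropy `≤ b < h(τ)` is proper (one-sided version of E4_Proper.lean).

Suppose not: every measurable set is a.e. equal to a set of `𝓕 = factor1 τ W`, `W K = (R, E K)`.
Choose `Q : X → Fin s` and a real `c₀ > b` with `shannon (name τ Q n) / n ≥ c₀` for infinitely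
many `n` (as in E4). Let `η > 0` with `b + (card ρ + s + 1) η < c₀` and `δ` from
`shannon_bool_small η`. The sets `τ.symm ⁻¹' (R ⁻¹' {v})` and `Q ⁻¹' {l}` (index set `ρ ⊕ Fin s`)
are a.e. equal to sets of `𝓕`, hence (`approx_factor1_fin`) approximated up to `δ` by windows of
`W K`, the same `K`, `m`. Apply `τ ⁻¹'` to the first: `R ⁻¹' {v}` is approximated up to `δ` by
`{x | (W K (τ^[i+1] x))_{i<m} ∈ c v}`. `name_entropy_le1` gives
`shannon (name τ Q n) ≤ m b₁ + n (b + card ρ η + s η)`; divide by `n`.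
-/

open MeasureTheory Filter

namespace PosEnt

variable {X : Type*} [MeasurableSpace X] {μ : Measure X} [IsProbabilityMeasure μ]

theorem exists_not_mem_factor1 (τ : X ≃ᵐ X) (hτ : MeasurePreserving τ μ μ) {ρ : Type*} [Fintype ρ]
    (R : X → ρ) (hR : ∀ v, MeasurableSet (R ⁻¹' {v})) {κ : ℕ → Type*}
    (E : (K : ℕ) → X → κ K) [∀ K, Fintype (κ K)] (hE : ∀ K v, MeasurableSet (E K ⁻¹' {v}))
    (hfac : ∀ K, ∃ F : κ (K + 1) → κ K, ∀ x, E K x = F (E (K + 1) x))
    {b : ℝ} (hb : ∀ K, shannon μ (E K) ≤ b) (hent : (b : EReal) < ksEntropy μ τ) :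
    ∃ A : Set X, MeasurableSet A ∧
      ∀ A' : Set X, MeasurableSet[factor1 τ (fun K x => (R x, E K x))] A' → ¬ (A =ᵐ[μ] A') := by
  by_contra hcon
  push Not at hcon
  -- a finite partition with large entropy
  unfold ksEntropy at hent
  rw [lt_iSup_iff] at hent
  obtain ⟨r, hent⟩ := hent
  rw [lt_iSup_iff] at hent
  obtain ⟨Q, hent⟩ := hent
  rw [lt_iSup_iff] at hent
  obtain ⟨hQ, hent⟩ := hent
  obtain ⟨c, hbc, hcl⟩ := EReal.lt_iff_exists_real_btwn.1 hent
  have hbc' : b < c := by exact_mod_cast hbc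
  have hfreq := frequently_lt_of_lt_limsup (by isBoundedDefault) hcl
  -- the sequence `W`
  obtain ⟨W, hWdef⟩ : ∃ W : (K : ℕ) → X → ρ × κ K, W = fun K x => (R x, E K x) := ⟨_, rfl⟩
  have hWap : ∀ K x, W K x = (R x, E K x) := fun K x => by rw [hWdef]
  have hW : ∀ K v, MeasurableSet (W K ⁻¹' {v}) := by
    rintro K ⟨v, u⟩
    have h1 : W K ⁻¹' {(v, u)} = R ⁻¹' {v} ∩ E K ⁻¹' {u} := by
      ext x
      simp only [Set.mem_preimage, Set.mem_singleton_iff, Set.mem_inter_iff, hWap, Prod.mk.injEq]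
    rw [h1]
    exact (hR v).inter (hE K u)
  have hWfac : ∀ K, ∃ F : ρ × κ (K + 1) → ρ × κ K, ∀ x, W K x = F (W (K + 1) x) := by
    intro K
    obtain ⟨F, hF⟩ := hfac K
    exact ⟨fun t => (t.1, F t.2), fun x => by rw [hWap, hWap, hF]⟩
  rw [← hWdef] at hcon
  -- sets of the factor
  obtain ⟨B, hBl, hBr⟩ : ∃ B : ρ ⊕ Fin r → Set X,
      (∀ v, B (Sum.inl v) = τ.symm ⁻¹' (R ⁻¹' {v})) ∧ ∀ l, B (Sum.inr l) = Q ⁻¹' {l} :=
    ⟨fun j => Sum.elim (fun v => τ.symm ⁻¹' (R ⁻¹' {v})) (fun l => Q ⁻¹' {l}) j,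
      fun _ => rfl, fun _ => rfl⟩
  have hBm : ∀ j, MeasurableSet (B j) := by
    rintro (v | l)
    · rw [hBl]
      exact τ.symm.measurable (hR v)
    · rw [hBr]
      exact hQ (measurableSet_singleton l)
  choose A' hA' hAe using fun j => hcon (B j) (hBm j)
  obtain ⟨η, hηdef⟩ : ∃ η : ℝ, η = (c - b) / (Fintype.card ρ + r + 1) := ⟨_, rfl⟩
  have hden : (0 : ℝ) < (Fintype.card ρ : ℝ) + r + 1 := by positivity
  have hη : 0 < η := by
    rw [hηdef]
    exact div_pos (by linarith) hden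
  have hηc : c = b + (Fintype.card ρ + r + 1) * η := by
    rw [hηdef]
    field_simp
    ring
  obtain ⟨δ, hδ, hsmall⟩ := shannon_bool_small (μ := μ) hη
  obtain ⟨K, m, cl, hcl'⟩ := approx_factor1_fin (μ := μ) τ.measurable W hW hWfac A' hA' hδ
  have hCm : ∀ j, MeasurableSet {x | (fun i : Fin m => W K (τ^[(i : ℕ)] x)) ∈ cl j} := by
    intro j
    have h1 : {x | (fun i : Fin m => W K (τ^[(i : ℕ)] x)) ∈ cl j} =
        ⋃ v ∈ cl j, ⋂ i : Fin m, (τ^[(i : ℕ)]) ⁻¹' (W K ⁻¹' {v i}) := by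
      ext x
      simp only [Set.mem_ofPred_eq, Set.mem_iUnion, Set.mem_iInter, Set.mem_preimage,
        Set.mem_singleton_iff, exists_prop]
      constructor
      · intro h
        exact ⟨_, h, fun _ => rfl⟩
      · rintro ⟨v, hv, h⟩
        have : (fun i : Fin m => W K (τ^[(i : ℕ)] x)) = v := funext h
        rw [this]
        exact hv
    rw [h1]
    refine MeasurableSet.biUnion (Set.to_countable _) fun v _ => ?_
    exact MeasurableSet.iInter fun i => (τ.measurable.iterate i) (hW K (v i))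
  have hDm : ∀ j, MeasurableSet (symmDiff (B j)
      {x | (fun i : Fin m => W K (τ^[(i : ℕ)] x)) ∈ cl j}) :=
    fun j => (hBm j).symmDiff (hCm j)
  have hDs : ∀ j, μ.real (symmDiff (B j)
      {x | (fun i : Fin m => W K (τ^[(i : ℕ)] x)) ∈ cl j}) < δ := by
    intro j
    have h1 : (symmDiff (B j) {x | (fun i : Fin m => W K (τ^[(i : ℕ)] x)) ∈ cl j} : Set X)
        =ᵐ[μ] (symmDiff (A' j) {x | (fun i : Fin m => W K (τ^[(i : ℕ)] x)) ∈ cl j} : Set X) :=
      (hAe j).symmDiff (ae_eq_refl _)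
    rw [measureReal_congr h1]
    exact hcl' j
  have hkey1 : ∀ v, ∀ D : Set X, D = symmDiff (R ⁻¹' {v})
        {x | (fun i : Fin m => (R (τ^[(i : ℕ) + 1] x), E K (τ^[(i : ℕ) + 1] x))) ∈
          cl (Sum.inl v)} →
      shannon μ (fun x => @decide (x ∈ D) (Classical.propDecidable _)) ≤ η := by
    intro v D hD
    have h1 : D = τ ⁻¹' (symmDiff (B (Sum.inl v))
        {x | (fun i : Fin m => W K (τ^[(i : ℕ)] x)) ∈ cl (Sum.inl v)}) := by
      rw [hD, Set.preimage_symmDiff, hBl]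
      congr 1
      · ext x
        simp only [Set.mem_preimage, MeasurableEquiv.symm_apply_apply]
      · ext x
        simp only [Set.mem_preimage, Set.mem_ofPred_eq, hWap, Function.iterate_succ_apply]
    have h2 : μ.real D = μ.real (symmDiff (B (Sum.inl v))
        {x | (fun i : Fin m => W K (τ^[(i : ℕ)] x)) ∈ cl (Sum.inl v)}) := by
      rw [h1, measureReal_def, measureReal_def,
        hτ.measure_preimage (hDm (Sum.inl v)).nullMeasurableSet]
    refine hsmall D ?_ ?_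
    · rw [h1]
      exact τ.measurable (hDm _)
    · rw [h2]
      exact hDs _
  have hkey2 : ∀ l, ∀ D : Set X, D = symmDiff (Q ⁻¹' {l})
        {x | (fun i : Fin m => (R (τ^[(i : ℕ)] x), E K (τ^[(i : ℕ)] x))) ∈ cl (Sum.inr l)} →
      shannon μ (fun x => @decide (x ∈ D) (Classical.propDecidable _)) ≤ η := by
    intro l D hD
    have h1 : D = symmDiff (B (Sum.inr l))
        {x | (fun i : Fin m => W K (τ^[(i : ℕ)] x)) ∈ cl (Sum.inr l)} := by
      rw [hD, hBr]
      simp only [hWap]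
    refine hsmall D ?_ ?_
    · rw [h1]
      exact hDm _
    · rw [h1]
      exact hDs _
  obtain ⟨b₁, hb₁⟩ : ∃ b₁ : ℝ, shannon μ (fun x => (R x, E K x)) ≤ b₁ := ⟨_, le_rfl⟩
  have hent2 : ∀ n : ℕ, shannon μ (name τ Q n) ≤
      m * b₁ + n * (b + Fintype.card ρ * η + r * η) :=
    fun n => name_entropy_le1 τ hτ R (E K) hR (hE K) Q hQ m (fun v => cl (Sum.inl v))
      (fun l => cl (Sum.inr l)) (hb K) hb₁ hkey1 hkey2 n
  obtain ⟨N, hN⟩ := exists_nat_gt (m * b₁ / η)
  obtain ⟨n, hn, hnN⟩ := (hfreq.and_eventually (eventually_ge_atTop (N + 1))).exists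
  have hn' : c < shannon μ (name τ Q n) / n := by exact_mod_cast hn
  have hn0 : (0 : ℝ) < n := by
    have : 0 < n := by omega
    exact_mod_cast this
  rw [lt_div_iff₀ hn0] at hn'
  have h5 := hent2 n
  have h7 : (N : ℝ) < n := by
    have : N < n := by omega
    exact_mod_cast this
  have h8 : m * b₁ < n * η := by
    rw [← div_lt_iff₀ hη]
    linarith
  have h9 : c * n = n * (b + Fintype.card ρ * η + r * η) + n * η := by
    rw [hηc]
    ring
  linarith

end PosEnt
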