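import Pool.Agent.Lib_MP_40e650.E9_Cut

/-!
Piece F9: the cut for a function which may vanish. Apply `exists_cut` to
`φ' x = if φ x = 0 then 1 else φ x` (`log ‖φ' x‖ = log ‖φ x‖` for all `x`, as `Real.log 0 = 0`).
-/

open MeasureTheory Filter Topology

namespace PosEnt

variable {X : Type*} [MeasurableSpace X] {μ : Measure X} [IsProbabilityMeasure μ]

open Classical in
theorem exists_cut0 {φ : X → ℂ} (hφ : Measurable φ) (hb : ∃ C : ℝ, ∀ᵐ x ∂μ, ‖φ x‖ ≤ C)
    (hlog : Integrable (fun x => Real.log (1 + |Real.log ‖φ x‖|)) μ)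
    {η : ℝ} (hη : 0 < η) :
    ∃ (D : X → ℕ) (f : X → ℂ) (F : ℝ), Measurable D ∧ Measurable f ∧ (∀ x, ‖f x‖ ≤ F) ∧
      (∀ᵐ x ∂μ, φ x = (if φ x = 0 then 0 else 1) *
        (Complex.exp (f x) * (Real.exp (-(D x : ℝ)) : ℂ))) ∧
      ∀ K, shannon μ (trunc D K) ≤ η := by
  obtain ⟨C, hC⟩ := hb
  have hφ' : Measurable (fun x => if φ x = 0 then (1 : ℂ) else φ x) :=
    Measurable.ite (hφ (measurableSet_singleton 0)) measurable_const hφ
  have hlog' : Integrable
      (fun x => Real.log (1 + |Real.log ‖(if φ x = 0 then (1 : ℂ) else φ x)‖|)) μ := by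
    refine hlog.congr (Eventually.of_forall fun x => ?_)
    by_cases hx : φ x = 0
    · simp [hx]
    · simp [hx]
  obtain ⟨D, f, F, hD, hf, hF, hφf, hent⟩ := exists_cut (μ := μ) hφ'
    ⟨max C 1, by
      filter_upwards [hC] with x hx
      by_cases h0 : φ x = 0
      · simp [h0]
      · simp only [h0, if_false]
        exact hx.trans (le_max_left _ _)⟩
    (Eventually.of_forall fun x => by
      by_cases h0 : φ x = 0
      · simp [h0]
      · simp [h0])
    hlog' hη
  refine ⟨D, f, F, hD, hf, hF, ?_, hent⟩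
  filter_upwards [hφf] with x hx
  by_cases h0 : φ x = 0
  · simp [h0]
  · simp only [h0, if_false, one_mul] at hx ⊢
    exact hx

end PosEnt
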