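import Pool.Agent.Lib_MP_40e650.Factor
import Pool.Agent.Lib_MP_40e650.E4_Proper
import Pool.Agent.Lib_MP_40e650.E8_Cohom
import Pool.Agent.Lib_MP_40e650.F9_Cut0
import Pool.Agent.Lib_MP_40e650.E12_Simple
import Pool.Agent.Lib_MP_40e650.F4_Proper1
import Pool.Agent.Lib_MP_40e650.F11_Invariant

/-!
Assembly: from the pieces to the two statements of the main theorem.
-/

open MeasureTheory Filter Topology

namespace PosEnt

variable {X : Type*} [mX : MeasurableSpace X] {μ : Measure X} [IsProbabilityMeasure μ]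

/-- the joint label of the first `K` quantisation labels and the truncated cut -/
def joint {L : ℕ → ℕ} (w : (k : ℕ) → X → Box (L k)) (D : X → ℕ) (K : ℕ) :
    X → ((k : Fin K) → Box (L k)) × Fin (K + 1) :=
  fun x => ((fun k : Fin K => w k x), trunc D K x)

theorem measurableSet_pi {J : Type*} [Fintype J] {ι : J → Type*}
    (V : (j : J) → X → ι j) (hV : ∀ j v, MeasurableSet (V j ⁻¹' {v})) (v : (j : J) → ι j) :
    MeasurableSet ((fun x (j : J) => V j x) ⁻¹' {v}) := by
  have : ((fun x (j : J) => V j x) ⁻¹' {v}) = ⋂ j, (V j ⁻¹' {v j}) := by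
    ext x
    simp [funext_iff]
  rw [this]
  exact MeasurableSet.iInter fun j => hV j (v j)

theorem measurableSet_pair {ι κ : Type*} (V : X → ι) (W : X → κ)
    (hV : ∀ v, MeasurableSet (V ⁻¹' {v})) (hW : ∀ v, MeasurableSet (W ⁻¹' {v})) (v : ι × κ) :
    MeasurableSet ((fun x => (V x, W x)) ⁻¹' {v}) := by
  have : ((fun x => (V x, W x)) ⁻¹' {v}) = (V ⁻¹' {v.1}) ∩ (W ⁻¹' {v.2}) := by
    ext x
    simp [Prod.ext_iff]
  rw [this]
  exact (hV _).inter (hW _)

theorem measurable_trunc {D : X → ℕ} (hD : Measurable D) (K : ℕ) (v : Fin (K + 1)) :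
    MeasurableSet (trunc D K ⁻¹' {v}) := by
  have : trunc D K ⁻¹' {v} = D ⁻¹' {n | min n K = (v : ℕ)} := by
    ext x
    simp [trunc, Fin.ext_iff]
  rw [this]
  exact hD (MeasurableSet.of_discrete)

/-- The output of the quantisation: a bounded function `u`, a σ-algebra-free description of the
rest. -/
theorem core (τ : X ≃ᵐ X) (hτ : Ergodic τ μ) (hpos : 0 < ksEntropy μ τ) {φ : X → ℂ}
    (hφ : Measurable φ) (hb : ∃ C : ℝ, ∀ᵐ x ∂μ, ‖φ x‖ ≤ C)
    (hlog : Integrable (fun x => Real.log (1 + |Real.log ‖φ x‖|)) μ) {η : ℝ} (hη : 0 < η) :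
    ∃ (u v : X → ℂ) (C : ℝ) (L : ℕ → ℕ) (w : (k : ℕ) → X → Box (L k)) (D : X → ℕ),
      Measurable u ∧ (∀ x, ‖u x‖ ≤ C) ∧ (∀ k, Measurable (w k)) ∧ Measurable D ∧
      (∀ K, shannon μ (joint w D K) ≤ η) ∧
      (∀ (m : MeasurableSpace X), (∀ K (S : Set (((k : Fin K) → Box (L k)) × Fin (K + 1))),
        MeasurableSet[m] {x | joint w D K x ∈ S}) → Measurable[m] v) ∧
      (∀ᵐ x ∂μ, φ x ≠ 0 → φ x = Complex.exp (u (τ x)) * Complex.exp (- u x) * v x) := by
  obtain ⟨D, f, F, hD, hf, hF, hφf, hDent⟩ := exists_cut0 (μ := μ) hφ hb hlog (half_pos hη)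
  obtain ⟨u, g, L, ε, w, hu, ⟨C, hC⟩, hw, hcoh, hlim, hwent⟩ := cohom τ hτ hpos hf hF (half_pos hη)
  have hwv : ∀ k v, MeasurableSet (w k ⁻¹' {v}) := fun k v => hw k (MeasurableSet.of_discrete)
  refine ⟨u, fun x => Complex.exp (g x) * ((Real.exp (-(D x : ℝ)) : ℝ) : ℂ), C, L, w, D, hu, hC,
    hw, hD, ?_, ?_, ?_⟩
  · intro K
    have h1 : shannon μ (fun x (k : Fin K) => w k x) ≤ η / 2 :=
      (shannon_pi_le (fun k : Fin K => w k) (fun k v => hwv k v)).trans
        (by rw [Fin.sum_univ_eq_sum_range (fun k => shannon μ (w k)) K]; exact hwent K)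
    have h2 : shannon μ (joint w D K) ≤ η / 2 + η / 2 :=
      (shannon_prod_le (fun x (k : Fin K) => w k x) (trunc D K)
        (measurableSet_pi (fun k : Fin K => w k) (fun k v => hwv k v)) (measurable_trunc hD K)).trans
        (add_le_add h1 (hDent K))
    linarith
  · intro m hm
    have hwG : ∀ k, Measurable[m] (fun x => val (ε k) (L k) (w k x)) := by
      intro k S _
      exact hm (k + 1) {z | val (ε k) (L k) (z.1 (Fin.last k)) ∈ S}
    have hDG : Measurable[m] (fun x => (D x : ℝ)) := by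
      have : Measurable[m] D := by
        refine @measurable_to_countable' ℕ X _ _ m D fun n => ?_
        have h := hm (n + 1) {z | (z.2 : ℕ) = n}
        have h2 : D ⁻¹' {n} = {x | joint w D (n + 1) x ∈
            {z : ((k : Fin (n + 1)) → Box (L k)) × Fin (n + 1 + 1) | (z.2 : ℕ) = n}} := by
          ext x
          simp only [joint, trunc, Set.mem_preimage, Set.mem_singleton_iff, Set.mem_ofPred_eq]
          omega
        rw [h2]
        exact h
      exact (measurable_from_nat (f := fun n : ℕ => (n : ℝ))).comp this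
    have hgG : Measurable[m] g := by
      refine @measurable_of_tendsto_metrizable X ℂ m _ _ _ _
        (fun K x => ∑ k ∈ Finset.range K, val (ε k) (L k) (w k x)) g (fun K => ?_)
        (tendsto_pi_nhds.2 hlim)
      exact Finset.measurable_fun_sum _ (fun k _ => hwG k)
    refine Measurable.mul ?_ ?_
    · exact Complex.measurable_exp.comp hgG
    · exact Complex.measurable_ofReal.comp (Real.measurable_exp.comp hDG.neg)
  · filter_upwards [hφf] with x hx h0
    rw [hx]
    simp only [h0, if_false, one_mul]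
    rw [hcoh x, Complex.exp_add, sub_eq_add_neg, Complex.exp_add]
    ring

theorem joint_measurable {L : ℕ → ℕ} {w : (k : ℕ) → X → Box (L k)} {D : X → ℕ}
    (hw : ∀ k, Measurable (w k)) (hD : Measurable D) (K : ℕ)
    (v : ((k : Fin K) → Box (L k)) × Fin (K + 1)) : MeasurableSet (joint w D K ⁻¹' {v}) :=
  measurableSet_pair _ _ (measurableSet_pi (fun k : Fin K => w k)
    (fun k v => hw k (MeasurableSet.of_discrete))) (measurable_trunc hD K) v

theorem joint_factor {L : ℕ → ℕ} (w : (k : ℕ) → X → Box (L k)) (D : X → ℕ) (K : ℕ) :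
    ∃ G : (((k : Fin (K + 1)) → Box (L k)) × Fin (K + 1 + 1)) →
      (((k : Fin K) → Box (L k)) × Fin (K + 1)), ∀ x, joint w D K x = G (joint w D (K + 1) x) := by
  refine ⟨fun z => ((fun k : Fin K => z.1 k.castSucc), ⟨min (z.2 : ℕ) K, by omega⟩), fun x => ?_⟩
  simp [joint, trunc]

open Classical in
/-- (A) a common invariant subspace of `M_φ U_τ` and all `M_ψ`, `ψ` measurable with respect to an
arbitrary finite partition. -/
theorem main_invariant2 (τ : X ≃ᵐ X) (hτ : MeasurePreserving τ μ μ) (hpos : 0 < ksEntropy μ τ)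
    {φ : X → ℂ} (hφ : Measurable φ) (hb : ∃ C : ℝ, ∀ᵐ x ∂μ, ‖φ x‖ ≤ C)
    (hlog : Integrable (fun x => Real.log (1 + |Real.log ‖φ x‖|)) μ)
    {r : ℕ} (R : X → Fin r) (hR : Measurable R) :
    ∃ M : Submodule ℂ (Lp ℂ 2 μ), IsClosed (M : Set (Lp ℂ 2 μ)) ∧ M ≠ ⊥ ∧ M ≠ ⊤ ∧
      (∀ T : Lp ℂ 2 μ →L[ℂ] Lp ℂ 2 μ,
        (∀ f : Lp ℂ 2 μ, (T f : X → ℂ) =ᵐ[μ] fun x => φ x * f (τ x)) → ∀ f ∈ M, T f ∈ M) ∧
      (∀ (ψ : Fin r → ℂ) (S : Lp ℂ 2 μ →L[ℂ] Lp ℂ 2 μ),
        (∀ f : Lp ℂ 2 μ, (S f : X → ℂ) =ᵐ[μ] fun x => ψ (R x) * f x) → ∀ f ∈ M, S f ∈ M) := by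
  by_cases he : Ergodic τ μ
  · have hRv : ∀ v, MeasurableSet (R ⁻¹' {v}) := fun v => hR (MeasurableSet.of_discrete)
    -- the partition refined by the zero set of `φ`
    set R' : X → Fin r × Bool := fun x => (R x, decide (φ x = 0)) with hR'
    have hZ : ∀ b, MeasurableSet ((fun x => decide (φ x = 0)) ⁻¹' {b}) := by
      intro b
      have hz : MeasurableSet {x | φ x = 0} := hφ (measurableSet_singleton 0)
      cases b
      · have : ((fun x => decide (φ x = 0)) ⁻¹' {false}) = {x | φ x = 0}ᶜ := by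
          ext x; simp
        rw [this]; exact hz.compl
      · have : ((fun x => decide (φ x = 0)) ⁻¹' {true}) = {x | φ x = 0} := by
          ext x; simp
        rw [this]; exact hz
    have hR'v : ∀ v, MeasurableSet (R' ⁻¹' {v}) :=
      fun v => measurableSet_pair R (fun x => decide (φ x = 0)) hRv hZ v
    obtain ⟨b, hb1, hb2⟩ : ∃ b : ℝ, 0 < b ∧ (b : EReal) < ksEntropy μ τ := by
      obtain ⟨c, hc1, hc2⟩ := EReal.lt_iff_exists_real_btwn.1 hpos
      exact ⟨c, by exact_mod_cast hc1, hc2⟩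
    obtain ⟨u, v, C, L, w, D, hu, hC, hw, hD, hent, hv, hφu⟩ := core τ he hpos hφ hb hlog hb1
    have hmp : MeasurePreserving τ μ μ := he.toMeasurePreserving
    have hproper := exists_not_mem_factor1 τ hmp R' hR'v (fun K => joint w D K)
      (fun K v => joint_measurable hw hD K v) (joint_factor w D) hent hb2
    set W : (K : ℕ) → X → (Fin r × Bool) × (((k : Fin K) → Box (L k)) × Fin (K + 1)) :=
      fun K x => (R' x, joint w D K x) with hW
    have hle : factor1 τ W ≤ mX := factor1_le hmp.measurable W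
      (fun K v => measurableSet_pair R' (joint w D K) hR'v
        (fun v => joint_measurable hw hD K v) v)
    have hvG : Measurable[factor1 τ W] v := hv _ (fun K S =>
      measurable_factor1 τ W K {z | z.2 ∈ S})
    have hZG : MeasurableSet[factor1 τ W] {x | φ x = 0} := by
      have := measurable_factor1 τ W 0 {z | z.1.2 = true}
      have h2 : {x | φ x = 0} = {x | W 0 x ∈ {z : (Fin r × Bool) ×
          (((k : Fin 0) → Box (L k)) × Fin (0 + 1)) | z.1.2 = true}} := by
        ext x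
        simp [hW, hR']
      rw [h2]
      exact this
    obtain ⟨M, h1, h2, h3, h4, h5⟩ := exists_invariant (factor1 τ W)
      (w := fun x => if φ x = 0 then 0 else v x) (φ := φ) (u := u) τ hmp hle
      (fun A hA => factor1_preimage τ W hA) hproper hu hC
      (Measurable.ite hZG measurable_const hvG) (by
        filter_upwards [hφu] with x hx
        by_cases h0 : φ x = 0
        · simp [h0]
        · simp only [h0, if_false]
          exact hx h0)
    refine ⟨M, h1, h2, h3, h4, fun ψ S hS => h5 (fun x => ψ (R x)) S ?_ hS⟩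
    intro S' _
    exact measurable_factor1 τ W 0 {z | ψ z.1.1 ∈ S'}
  · obtain ⟨P, hP1, hP2, hP3, hP4, hP5⟩ := idempotent_of_not_ergodic τ hτ he
    refine ⟨LinearMap.ker P.toLinearMap, P.isClosed_ker, ?_, ?_, ?_, ?_⟩
    · intro hbot
      apply hP3
      ext1 f
      have h1 : P (P f - f) = 0 := by
        rw [map_sub]
        have : P (P f) = P f := by
          have := congrArg (fun Q => Q f) hP1
          simpa using this
        rw [this, sub_self]
      have h2 : P f - f ∈ LinearMap.ker P.toLinearMap := h1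
      rw [hbot, Submodule.mem_bot] at h2
      simpa using sub_eq_zero.1 h2
    · intro htop
      apply hP2
      ext1 f
      have : f ∈ LinearMap.ker P.toLinearMap := by rw [htop]; trivial
      exact this
    · intro T hT f hf
      have h := congrArg (fun Q => Q f) (hP4 φ T hT)
      simp only [ContinuousLinearMap.comp_apply] at h
      have hf' : P f = 0 := hf
      rw [hf', map_zero] at h
      exact h
    · intro ψ S hS f hf
      have h := congrArg (fun Q => Q f) (hP5 (fun x => ψ (R x)) S hS)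
      simp only [ContinuousLinearMap.comp_apply] at h
      have hf' : P f = 0 := hf
      rw [hf', map_zero] at h
      exact h

open Classical in
/-- (B) a commuting idempotent. -/
theorem main_idempotent2 (τ : X ≃ᵐ X) (hτ : MeasurePreserving τ μ μ)
    {φ : X → ℂ} (hφ : Measurable φ) (hb : ∃ C : ℝ, ∀ᵐ x ∂μ, ‖φ x‖ ≤ C)
    (hlog : Integrable (fun x => Real.log (1 + |Real.log ‖φ x‖|)) μ)
    {r : ℕ} (R : X → Fin r) (hR : Measurable R) (hent : (shannon μ R : EReal) < ksEntropy μ τ)
    (hZ : ∃ S : Set (Fin r), ∀ᵐ x ∂μ, φ x = 0 ↔ R x ∈ S) :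
    ∃ P : Lp ℂ 2 μ →L[ℂ] Lp ℂ 2 μ, P ∘L P = P ∧ P ≠ 0 ∧ P ≠ ContinuousLinearMap.id ℂ _ ∧
      (∀ T : Lp ℂ 2 μ →L[ℂ] Lp ℂ 2 μ,
        (∀ f : Lp ℂ 2 μ, (T f : X → ℂ) =ᵐ[μ] fun x => φ x * f (τ x)) → P ∘L T = T ∘L P) ∧
      (∀ (ψ : Fin r → ℂ) (S : Lp ℂ 2 μ →L[ℂ] Lp ℂ 2 μ),
        (∀ f : Lp ℂ 2 μ, (S f : X → ℂ) =ᵐ[μ] fun x => ψ (R x) * f x) → P ∘L S = S ∘L P) := by
  by_cases he : Ergodic τ μ
  · have hRv : ∀ v, MeasurableSet (R ⁻¹' {v}) := fun v => hR (MeasurableSet.of_discrete)
    have hR0 : (0 : EReal) ≤ (shannon μ R : EReal) := by exact_mod_cast shannon_nonneg R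
    have hpos : 0 < ksEntropy μ τ := lt_of_le_of_lt hR0 hent
    obtain ⟨b, hb1, hb2⟩ : ∃ b : ℝ, shannon μ R < b ∧ (b : EReal) < ksEntropy μ τ := by
      obtain ⟨c, hc1, hc2⟩ := EReal.lt_iff_exists_real_btwn.1 hent
      exact ⟨c, by exact_mod_cast hc1, hc2⟩
    obtain ⟨S, hS⟩ := hZ
    obtain ⟨u, v, C, L, w, D, hu, hC, hw, hD, hent', hv, hφu⟩ :=
      core τ he hpos hφ hb hlog (sub_pos.2 hb1)
    have hmp : MeasurePreserving τ μ μ := he.toMeasurePreserving
    set W : (K : ℕ) → X → Fin r × (((k : Fin K) → Box (L k)) × Fin (K + 1)) :=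
      fun K x => (R x, joint w D K x) with hW
    have hWv : ∀ K v, MeasurableSet (W K ⁻¹' {v}) := fun K v =>
      measurableSet_pair R (joint w D K) hRv (fun v => joint_measurable hw hD K v) v
    have hfac : ∀ K, ∃ F : (Fin r × (((k : Fin (K + 1)) → Box (L k)) × Fin (K + 1 + 1))) →
        (Fin r × (((k : Fin K) → Box (L k)) × Fin (K + 1))), ∀ x, W K x = F (W (K + 1) x) := by
      intro K
      obtain ⟨G, hG⟩ := joint_factor w D K
      exact ⟨fun z => (z.1, G z.2), fun x => by simp [hW, hG]⟩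
    have hWent : ∀ K, shannon μ (W K) ≤ b := by
      intro K
      have h := shannon_prod_le (μ := μ) R (joint w D K) hRv
        (fun v => joint_measurable hw hD K v)
      have h2 := hent' K
      have h3 : shannon μ (W K) ≤ shannon μ R + shannon μ (joint w D K) := h
      linarith
    have hproper := exists_not_mem_factor τ hmp W hWv hfac hWent hb2
    have hle := factor_le τ W hWv
    have hvG : Measurable[factor τ.toEquiv W] v := hv _ (fun K S =>
      measurable_factor τ.toEquiv W K {z | z.2 ∈ S})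
    have hSG : MeasurableSet[factor τ.toEquiv W] {x | R x ∈ S} :=
      measurable_factor τ.toEquiv W 0 {z | z.1 ∈ S}
    obtain ⟨P, hP1, hP2, hP3, hP4, hP5⟩ := exists_idempotent (factor τ.toEquiv W)
      (w := fun x => if R x ∈ S then 0 else v x) (u := u) (φ := φ) τ hmp hle
      (fun A hA => by simpa using factor_preimage τ.toEquiv W hA 1)
      (fun A hA => by
        have := factor_preimage τ.toEquiv W hA (-1)
        rw [zpow_neg_one] at this
        exact this)
      hproper hu hC (Measurable.ite hSG measurable_const hvG) (by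
        filter_upwards [hφu, hS] with x hx hxS
        by_cases h0 : φ x = 0
        · simp [h0, hxS.1 h0]
        · have h1 : R x ∉ S := fun h => h0 (hxS.2 h)
          simp only [h1, if_false]
          exact hx h0)
    refine ⟨P, hP1, hP2, hP3, hP4, fun ψ S' hS' => hP5 (fun x => ψ (R x)) S' ?_ hS'⟩
    intro S'' _
    exact measurable_factor τ.toEquiv W 0 {z | ψ z.1 ∈ S''}
  · obtain ⟨P, hP1, hP2, hP3, hP4, hP5⟩ := idempotent_of_not_ergodic τ hτ he
    exact ⟨P, hP1, hP2, hP3, fun T hT => hP4 φ T hT, fun ψ S hS => hP5 (fun x => ψ (R x)) S hS⟩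

end PosEnt
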