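import Mathlib

/-!
# Definitions for MP_40e650_an: Kolmogorov-Sinai entropy

`shannon μ Q` is the Shannon entropy of the finite partition into the level sets of `Q`,
`name τ Q n` the map whose level sets are the atoms of `Q ∨ τ⁻¹Q ∨ ... ∨ τ⁻ⁿ⁺¹Q`, and
`ksEntropy μ τ` the Kolmogorov-Sinai entropy of `τ`.
-/

open MeasureTheory Filter

namespace PosEnt

/-- Shannon entropy `-∑ p log p` (natural logarithm) of the finite partition of `X` into the
level sets `{Q = i}`. -/
noncomputable def shannon {X ι : Type*} [MeasurableSpace X] [Fintype ι] (μ : Measure X)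
    (Q : X → ι) : ℝ :=
  ∑ i, Real.negMulLog (μ.real (Q ⁻¹' {i}))

/-- `x ↦ (Q x, Q (τ x), ..., Q (τ^(n-1) x))`; its level sets are the atoms of the joined
partition `⋁_{k < n} τ^{-k} Q`. -/
def name {X ι : Type*} (τ : X → X) (Q : X → ι) (n : ℕ) : X → Fin n → ι :=
  fun x k => Q (τ^[(k : ℕ)] x)

/-- The Kolmogorov-Sinai entropy of `τ` with respect to `μ`: the supremum, over all finite
measurable partitions `Q`, of the limit (it exists by subadditivity) of `H(⋁_{k<n} τ^{-k}Q) / n`. -/
noncomputable def ksEntropy {X : Type*} [MeasurableSpace X] (μ : Measure X) (τ : X → X) : EReal :=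
  ⨆ (r : ℕ) (Q : X → Fin r) (_ : Measurable Q),
    limsup (fun n : ℕ => ((shannon μ (name τ Q n) / n : ℝ) : EReal)) atTop

/-- the finite set of lattice labels of size `(2L+1)^2` -/
abbrev Box (L : ℕ) : Type := Fin (2 * L + 1) × Fin (2 * L + 1)

/-- the label of `0` -/
def zeroBox (L : ℕ) : Box L := (⟨L, by omega⟩, ⟨L, by omega⟩)

/-- the point of the lattice `ε ℤ[i]` with label `w` -/
noncomputable def val (ε : ℝ) (L : ℕ) (w : Box L) : ℂ :=
  ((ε * ((w.1 : ℝ) - L) : ℝ) : ℂ) + ((ε * ((w.2 : ℝ) - L) : ℝ) : ℂ) * Complex.I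

/-- truncation of a function with values in `ℕ` -/
def trunc {X : Type*} (D : X → ℕ) (K : ℕ) : X → Fin (K + 1) :=
  fun x => ⟨min (D x) K, by omega⟩

/-- the two-sided factor generated by a sequence of finite-valued functions -/
def factor {X : Type*} (τ : Equiv.Perm X) {κ : ℕ → Type*} (W : (K : ℕ) → X → κ K) :
    MeasurableSpace X :=
  ⨆ (K : ℕ) (i : ℤ), (⊤ : MeasurableSpace (κ K)).comap (fun x => W K ((τ ^ i) x))

end PosEnt
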