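import Pool.Agent.Lib_MP_40e650.Defs

/-!
The one-sided factor.
-/

open MeasureTheory Filter

namespace PosEnt

/-- the one-sided σ-algebra generated by the forward shifts of a sequence of finite-valued
functions -/
@[instance_reducible]
def factor1 {X : Type*} (τ : X → X) {κ : ℕ → Type*} (W : (K : ℕ) → X → κ K) :
    MeasurableSpace X :=
  ⨆ (K : ℕ) (i : ℕ), (⊤ : MeasurableSpace (κ K)).comap (fun x => W K (τ^[i] x))

theorem measurable_factor1_comp {X : Type*} (τ : X → X) {κ : ℕ → Type*}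
    (W : (K : ℕ) → X → κ K) (K i : ℕ) (S : Set (κ K)) :
    MeasurableSet[factor1 τ W] {x | W K (τ^[i] x) ∈ S} := by
  have h : (⊤ : MeasurableSpace (κ K)).comap (fun x => W K (τ^[i] x)) ≤ factor1 τ W :=
    le_iSup_of_le K (le_iSup (fun i : ℕ =>
      (⊤ : MeasurableSpace (κ K)).comap (fun x => W K (τ^[i] x))) i)
  exact h _ ⟨S, trivial, rfl⟩

theorem measurable_factor1 {X : Type*} (τ : X → X) {κ : ℕ → Type*}
    (W : (K : ℕ) → X → κ K) (K : ℕ) (S : Set (κ K)) :
    MeasurableSet[factor1 τ W] {x | W K x ∈ S} :=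
  measurable_factor1_comp τ W K 0 S

theorem factor1_preimage {X : Type*} (τ : X → X) {κ : ℕ → Type*} (W : (K : ℕ) → X → κ K)
    {A : Set X} (hA : MeasurableSet[factor1 τ W] A) :
    MeasurableSet[factor1 τ W] (τ ⁻¹' A) := by
  have h : (factor1 τ W).comap τ ≤ factor1 τ W := by
    conv_lhs => unfold factor1
    simp only [MeasurableSpace.comap_iSup]
    refine iSup_le fun K => iSup_le fun i => ?_
    rw [MeasurableSpace.comap_comp]
    refine le_iSup_of_le K (le_iSup_of_le (i + 1) ?_)
    apply le_of_eq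
    congr 1
  exact h _ ⟨A, hA, rfl⟩

end PosEnt
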