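import Pool.Agent.Lib_MP_40e650.Defs

/-!
Piece E10: multiplication by a bounded measurable function as an operator on `L²`.
(`ContinuousLinearMap.holderL` for `ContinuousLinearMap.mul ℂ ℂ` with exponents `∞, 2, 2`, or
directly `LinearMap.mkContinuous`.)
-/

open MeasureTheory Filter

namespace PosEnt

variable {X : Type*} [MeasurableSpace X] {μ : Measure X} [IsProbabilityMeasure μ]

theorem exists_mulOp {h : X → ℂ} (hh : Measurable h) {C : ℝ} (hC : ∀ x, ‖h x‖ ≤ C) :
    ∃ S : Lp ℂ 2 μ →L[ℂ] Lp ℂ 2 μ, ∀ f : Lp ℂ 2 μ, (S f : X → ℂ) =ᵐ[μ] fun x => h x * f x := by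
  have hmem : ∀ f : Lp ℂ 2 μ, MemLp (fun x => h x * f x) 2 μ := by
    intro f
    refine (Lp.memLp f).of_le_mul (c := C)
      (hh.aestronglyMeasurable.mul (Lp.aestronglyMeasurable f)) (ae_of_all _ fun x => ?_)
    rw [norm_mul]
    exact mul_le_mul_of_nonneg_right (hC x) (norm_nonneg _)
  let L : Lp ℂ 2 μ →ₗ[ℂ] Lp ℂ 2 μ :=
    { toFun := fun f => (hmem f).toLp _
      map_add' := by
        intro f g
        apply Lp.ext
        refine ((hmem (f + g)).coeFn_toLp).trans ?_
        refine EventuallyEq.trans ?_ (Lp.coeFn_add _ _).symm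
        filter_upwards [(hmem f).coeFn_toLp, (hmem g).coeFn_toLp, Lp.coeFn_add f g]
          with x h1 h2 h3
        rw [Pi.add_apply, h1, h2, h3, Pi.add_apply, mul_add]
      map_smul' := by
        intro c f
        apply Lp.ext
        refine ((hmem (c • f)).coeFn_toLp).trans ?_
        refine EventuallyEq.trans ?_ (Lp.coeFn_smul _ _).symm
        filter_upwards [(hmem f).coeFn_toLp, Lp.coeFn_smul c f] with x h1 h2
        rw [Pi.smul_apply, h1, h2, Pi.smul_apply]
        simp only [smul_eq_mul, RingHom.id_apply]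
        ring }
  refine ⟨L.mkContinuous C fun f => ?_, fun f => (hmem f).coeFn_toLp⟩
  refine Lp.norm_le_mul_norm_of_ae_le_mul ?_
  filter_upwards [(hmem f).coeFn_toLp] with x h1
  change ‖((hmem f).toLp _ : X → ℂ) x‖ ≤ _
  rw [h1, norm_mul]
  exact mul_le_mul_of_nonneg_right (hC x) (norm_nonneg _)

end PosEnt
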