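import Pool.Agent.Lib_MP_40e650.E10_Mul

/-!
Piece E11: the idempotent.

`m` is a sub-σ-algebra with `τ⁻¹ m = m`, `E` the orthogonal projection of `L²(μ)` onto
`K = lpMeas ℂ ℂ m 2 μ` (complete: instance from `Fact (m ≤ m0)`; `Submodule.starProjection` or
`K.subtypeL ∘ K.orthogonalProjection`). With `V = M_{exp u}`, `V' = M_{exp (-u)}` (`exists_mulOp`,
`V V' = V' V = 1`) put `P = V' E V`. `P P = P`. `P ≠ 0` since the constant `1` is in `K`; `P ≠ 1`
since otherwise `K = ⊤` and the indicator of `A` would be a.e. equal to an `m`-measurable function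
`h`, so `A =ᵐ h ⁻¹' {1}`.
Commutation with `T`: `T₁ = V T V'` acts by `T₁ f = w * (f ∘ τ)` a.e. because
`φ = exp (u ∘ τ) exp (-u) w`. It suffices that `E T₁ = T₁ E`, for which it is enough that
`T₁ K ⊆ K` (clear: `w` and `f ∘ τ` are `m`-measurable) and `T₁ Kᗮ ⊆ Kᗮ`: for `k ∈ K`, `v ∈ Kᗮ`,
`⟪k, T₁ v⟫ = ∫ conj k * w * (v ∘ τ) = ∫ (conj k * w) ∘ τ⁻¹ * v = ⟪conj w ∘ τ⁻¹ * k ∘ τ⁻¹, v⟫ = 0`
as `(conj w * k) ∘ τ⁻¹ ∈ K`.
Commutation with a multiplication operator `S = M_ψ`, `ψ` `m`-measurable: `S` commutes with `V`, `V'`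
and `S K ⊆ K`, `S Kᗮ ⊆ Kᗮ` in the same way.
-/

open MeasureTheory Filter

namespace PosEnt

private theorem condExp_comp_equiv {X : Type*} (m : MeasurableSpace X) {m0 : MeasurableSpace X}
    {μ : Measure X} [IsProbabilityMeasure μ] (σ : X ≃ᵐ X) (hσ : MeasurePreserving σ μ μ)
    (hm : m ≤ m0)
    (hm1 : ∀ A, MeasurableSet[m] A → MeasurableSet[m] (σ ⁻¹' A))
    (hm2 : ∀ A, MeasurableSet[m] A → MeasurableSet[m] (σ.symm ⁻¹' A))
    {g : X → ℂ} (hg : Integrable g μ) :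
    μ[fun x => g (σ x) | m] =ᵐ[μ] fun x => (μ[g | m]) (σ x) := by
  symm
  have hcm : Measurable[m, m] (σ : X → X) := fun s hs => hm1 s hs
  have hint : Integrable (fun x => (μ[g | m]) (σ x)) μ :=
    hσ.integrable_comp_of_integrable integrable_condExp
  refine ae_eq_condExp_of_forall_setIntegral_eq hm (hσ.integrable_comp_of_integrable hg) ?_ ?_ ?_
  · intro s _ _
    exact hint.integrableOn
  · intro s hs _
    have hs' : s = σ ⁻¹' (σ.symm ⁻¹' s) := by
      ext x; simp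
    rw [hs']
    rw [hσ.setIntegral_preimage_emb σ.measurableEmbedding (μ[g | m]) (σ.symm ⁻¹' s),
      hσ.setIntegral_preimage_emb σ.measurableEmbedding g (σ.symm ⁻¹' s)]
    exact setIntegral_condExp hm hg (hm2 s hs)
  · exact (stronglyMeasurable_condExp.comp_measurable hcm).aestronglyMeasurable

/-- the conditional expectation as an operator on `L²` -/
private noncomputable def EOp {X : Type*} (m : MeasurableSpace X) {m0 : MeasurableSpace X}
    (μ : Measure X) (hm : m ≤ m0) : Lp ℂ 2 μ →L[ℂ] Lp ℂ 2 μ :=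
  (lpMeas ℂ ℂ m 2 μ).subtypeL ∘L condExpL2 ℂ ℂ hm

private theorem EOp_ae {X : Type*} (m : MeasurableSpace X) {m0 : MeasurableSpace X}
    {μ : Measure X} [IsProbabilityMeasure μ] (hm : m ≤ m0) (f : Lp ℂ 2 μ) :
    (EOp m μ hm f : X → ℂ) =ᵐ[μ] μ[(f : X → ℂ) | m] := by
  have h := MemLp.condExpL2_ae_eq_condExp (𝕜 := ℂ) hm (Lp.memLp f)
  rw [Lp.toLp_coeFn] at h
  exact h

/-- `E T₁ = T₁ E` for a weighted composition operator with `m`-measurable weight. -/
private theorem EOp_comm {X : Type*} (m : MeasurableSpace X) {m0 : MeasurableSpace X}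
    {μ : Measure X} [IsProbabilityMeasure μ] (σ : X ≃ᵐ X) (hσ : MeasurePreserving σ μ μ)
    (hm : m ≤ m0)
    (hm1 : ∀ A, MeasurableSet[m] A → MeasurableSet[m] (σ ⁻¹' A))
    (hm2 : ∀ A, MeasurableSet[m] A → MeasurableSet[m] (σ.symm ⁻¹' A))
    {w : X → ℂ} (hw : Measurable[m] w) (T : Lp ℂ 2 μ →L[ℂ] Lp ℂ 2 μ)
    (hT : ∀ f : Lp ℂ 2 μ, (T f : X → ℂ) =ᵐ[μ] fun x => w x * f (σ x)) (f : Lp ℂ 2 μ) :
    EOp m μ hm (T f) = T (EOp m μ hm f) := by
  apply Lp.ext
  have hwS : StronglyMeasurable[m] w := hw.stronglyMeasurable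
  have hfi : Integrable (f : X → ℂ) μ :=
    memLp_one_iff_integrable.1 <| (Lp.memLp f).mono_exponent one_le_two
  have hTi : Integrable (T f : X → ℂ) μ :=
    memLp_one_iff_integrable.1 <| (Lp.memLp (T f)).mono_exponent one_le_two
  have hfσ : Integrable (fun x => f (σ x)) μ := hσ.integrable_comp_of_integrable hfi
  have h1 : μ[(T f : X → ℂ) | m] =ᵐ[μ] μ[fun x => w x * f (σ x) | m] := condExp_congr_ae (hT f)
  have h2 : μ[fun x => w x * f (σ x) | m] =ᵐ[μ] fun x => w x * (μ[fun x => f (σ x) | m]) x :=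
    condExp_bilin_of_stronglyMeasurable_left (ContinuousLinearMap.mul ℝ ℂ) hwS
      (hTi.congr (hT f)) hfσ
  have h3 := condExp_comp_equiv m σ hσ hm hm1 hm2 hfi
  have h4 := hσ.quasiMeasurePreserving.ae_eq_comp (EOp_ae m hm f)
  filter_upwards [EOp_ae m hm (T f), h1, h2, h3, hT (EOp m μ hm f), h4] with x e1 e2 e3 e4 e5 e6
  rw [e1, e2, e3, e4, e5]
  simp only [Function.comp_apply] at e6
  rw [e6]

private theorem EOp_idem {X : Type*} (m : MeasurableSpace X) {m0 : MeasurableSpace X}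
    {μ : Measure X} [IsProbabilityMeasure μ] (hm : m ≤ m0) (f : Lp ℂ 2 μ) :
    EOp m μ hm (EOp m μ hm f) = EOp m μ hm f := by
  apply Lp.ext
  have h1 : μ[(EOp m μ hm f : X → ℂ) | m] =ᵐ[μ] μ[μ[(f : X → ℂ) | m] | m] :=
    condExp_congr_ae (EOp_ae m hm f)
  have h2 : μ[μ[(f : X → ℂ) | m] | m] = μ[(f : X → ℂ) | m] :=
    condExp_of_stronglyMeasurable hm stronglyMeasurable_condExp integrable_condExp
  filter_upwards [EOp_ae m hm (EOp m μ hm f), h1, EOp_ae m hm f] with x e1 e2 e3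
  rw [e1, e2, h2, e3]

/-- The main commutation lemma. -/
private theorem conj_comm {X : Type*} (m : MeasurableSpace X) {m0 : MeasurableSpace X}
    {μ : Measure X} [IsProbabilityMeasure μ] (σ : X ≃ᵐ X) (hσ : MeasurePreserving σ μ μ)
    (hm : m ≤ m0)
    (hm1 : ∀ A, MeasurableSet[m] A → MeasurableSet[m] (σ ⁻¹' A))
    (hm2 : ∀ A, MeasurableSet[m] A → MeasurableSet[m] (σ.symm ⁻¹' A))
    {u w φ : X → ℂ} (hw : Measurable[m] w)
    (hφ : ∀ᵐ x ∂μ, φ x = Complex.exp (u (σ x)) * Complex.exp (- u x) * w x)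
    (V V' : Lp ℂ 2 μ →L[ℂ] Lp ℂ 2 μ)
    (hV : ∀ f : Lp ℂ 2 μ, (V f : X → ℂ) =ᵐ[μ] fun x => Complex.exp (u x) * f x)
    (hV' : ∀ f : Lp ℂ 2 μ, (V' f : X → ℂ) =ᵐ[μ] fun x => Complex.exp (- u x) * f x)
    (hVV' : V ∘L V' = ContinuousLinearMap.id ℂ _) (hV'V : V' ∘L V = ContinuousLinearMap.id ℂ _)
    (T : Lp ℂ 2 μ →L[ℂ] Lp ℂ 2 μ)
    (hT : ∀ f : Lp ℂ 2 μ, (T f : X → ℂ) =ᵐ[μ] fun x => φ x * f (σ x)) :
    (V' ∘L EOp m μ hm ∘L V) ∘L T = T ∘L (V' ∘L EOp m μ hm ∘L V) := by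
  have hVV'a : ∀ f, V (V' f) = f := fun f => by
    have := congrArg (fun A : Lp ℂ 2 μ →L[ℂ] Lp ℂ 2 μ => A f) hVV'
    simpa using this
  have hV'Va : ∀ f, V' (V f) = f := fun f => by
    have := congrArg (fun A : Lp ℂ 2 μ →L[ℂ] Lp ℂ 2 μ => A f) hV'V
    simpa using this
  have hT1 : ∀ f : Lp ℂ 2 μ, ((V ∘L T ∘L V') f : X → ℂ) =ᵐ[μ] fun x => w x * f (σ x) := by
    intro f
    have h4 := hσ.quasiMeasurePreserving.ae_eq_comp (hV' f)
    filter_upwards [hV (T (V' f)), hT (V' f), hφ, h4] with x e1 e2 e3 e4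
    simp only [Function.comp_apply] at e4
    change (V (T (V' f)) : X → ℂ) x = _
    rw [e1, e2, e3, e4]
    have a1 : Complex.exp (u x) * Complex.exp (- u x) = 1 := by
      rw [← Complex.exp_add]; simp
    have a2 : Complex.exp (u (σ x)) * Complex.exp (- u (σ x)) = 1 := by
      rw [← Complex.exp_add]; simp
    calc Complex.exp (u x) * (Complex.exp (u (σ x)) * Complex.exp (- u x) * w x *
          (Complex.exp (- u (σ x)) * f (σ x)))
        = (Complex.exp (u x) * Complex.exp (- u x)) *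
          (Complex.exp (u (σ x)) * Complex.exp (- u (σ x))) * (w x * f (σ x)) := by ring
      _ = w x * f (σ x) := by rw [a1, a2]; ring
  ext1 f
  change V' (EOp m μ hm (V (T f))) = T (V' (EOp m μ hm (V f)))
  have h := EOp_comm m σ hσ hm hm1 hm2 hw (V ∘L T ∘L V') hT1 (V f)
  change EOp m μ hm (V (T (V' (V f)))) = V (T (V' (EOp m μ hm (V f)))) at h
  rw [hV'Va] at h
  rw [h, hV'Va]

theorem exists_idempotent {X : Type*} (m : MeasurableSpace X) {m0 : MeasurableSpace X}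
    {μ : Measure X} [IsProbabilityMeasure μ] (τ : X ≃ᵐ X) (hτ : MeasurePreserving τ μ μ)
    (hm : m ≤ m0)
    (hm1 : ∀ A, MeasurableSet[m] A → MeasurableSet[m] (τ ⁻¹' A))
    (hm2 : ∀ A, MeasurableSet[m] A → MeasurableSet[m] (τ.symm ⁻¹' A))
    (hproper : ∃ A : Set X, MeasurableSet A ∧ ∀ A', MeasurableSet[m] A' → ¬ (A =ᵐ[μ] A'))
    {u w : X → ℂ} (hu : Measurable u) {C : ℝ} (hC : ∀ x, ‖u x‖ ≤ C)
    (hw : Measurable[m] w) {φ : X → ℂ}
    (hφ : ∀ᵐ x ∂μ, φ x = Complex.exp (u (τ x)) * Complex.exp (- u x) * w x) :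
    ∃ P : Lp ℂ 2 μ →L[ℂ] Lp ℂ 2 μ, P ∘L P = P ∧ P ≠ 0 ∧ P ≠ ContinuousLinearMap.id ℂ _ ∧
      (∀ T : Lp ℂ 2 μ →L[ℂ] Lp ℂ 2 μ,
        (∀ f : Lp ℂ 2 μ, (T f : X → ℂ) =ᵐ[μ] fun x => φ x * f (τ x)) → P ∘L T = T ∘L P) ∧
      (∀ (ψ : X → ℂ) (S : Lp ℂ 2 μ →L[ℂ] Lp ℂ 2 μ), Measurable[m] ψ →
        (∀ f : Lp ℂ 2 μ, (S f : X → ℂ) =ᵐ[μ] fun x => ψ x * f x) → P ∘L S = S ∘L P) := by
  classical
  -- the operators `V`, `V'`
  have hexpu : Measurable fun x => Complex.exp (u x) := Complex.measurable_exp.comp hu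
  have hexpu' : Measurable fun x => Complex.exp (- u x) := Complex.measurable_exp.comp hu.neg
  have hb : ∀ x, ‖Complex.exp (u x)‖ ≤ Real.exp C := fun x => by
    rw [Complex.norm_exp]
    exact Real.exp_le_exp.2 ((Complex.re_le_norm _).trans (hC x))
  have hb' : ∀ x, ‖Complex.exp (- u x)‖ ≤ Real.exp C := fun x => by
    rw [Complex.norm_exp]
    exact Real.exp_le_exp.2 ((Complex.re_le_norm _).trans (by rw [norm_neg]; exact hC x))
  obtain ⟨V, hV⟩ := exists_mulOp (μ := μ) hexpu hb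
  obtain ⟨V', hV'⟩ := exists_mulOp (μ := μ) hexpu' hb'
  have a1 : ∀ x, Complex.exp (u x) * Complex.exp (- u x) = 1 := fun x => by
    rw [← Complex.exp_add]; simp
  have hVV'a : ∀ f, V (V' f) = f := fun f => by
    apply Lp.ext
    filter_upwards [hV (V' f), hV' f] with x e1 e2
    rw [e1, e2, ← mul_assoc, a1, one_mul]
  have hV'Va : ∀ f, V' (V f) = f := fun f => by
    apply Lp.ext
    filter_upwards [hV' (V f), hV f] with x e1 e2
    rw [e1, e2, ← mul_assoc, mul_comm (Complex.exp (- u x)), a1, one_mul]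
  have hVV' : V ∘L V' = ContinuousLinearMap.id ℂ _ := by
    ext1 f; exact hVV'a f
  have hV'V : V' ∘L V = ContinuousLinearMap.id ℂ _ := by
    ext1 f; exact hV'Va f
  refine ⟨V' ∘L EOp m μ hm ∘L V, ?_, ?_, ?_, ?_, ?_⟩
  · ext1 f
    change V' (EOp m μ hm (V (V' (EOp m μ hm (V f))))) = V' (EOp m μ hm (V f))
    rw [hVV'a, EOp_idem]
  · intro h0
    -- `E = V P V' = 0` but `E 1 = 1`
    have hE : ∀ f, EOp m μ hm f = 0 := fun f => by
      have h1 := congrArg (fun A : Lp ℂ 2 μ →L[ℂ] Lp ℂ 2 μ => V (A (V' f))) h0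
      change V (V' (EOp m μ hm (V (V' f)))) = V 0 at h1
      rw [hVV'a, hVV'a, map_zero] at h1
      exact h1
    have h1 := hE (indicatorConstLp 2 MeasurableSet.univ (measure_ne_top μ _) (1 : ℂ))
    have h2 := EOp_ae m hm (indicatorConstLp 2 MeasurableSet.univ (measure_ne_top μ _) (1 : ℂ))
    have h3 : μ[(indicatorConstLp 2 MeasurableSet.univ (measure_ne_top μ _) (1 : ℂ) : X → ℂ) | m]
        =ᵐ[μ] μ[fun _ : X => (1 : ℂ) | m] := by
      apply condExp_congr_ae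
      filter_upwards [indicatorConstLp_coeFn (p := 2) (μ := μ) (hs := MeasurableSet.univ)
        (hμs := measure_ne_top μ _) (c := (1 : ℂ))] with x hx
      rw [hx]; simp
    rw [condExp_const hm (1 : ℂ)] at h3
    rw [h1] at h2
    have h4 : ∀ᵐ _x ∂μ, False := by
      filter_upwards [h2, h3, Lp.coeFn_zero ℂ 2 μ] with x e1 e2 e3
      rw [e2, e3] at e1
      simp at e1
    exact IsProbabilityMeasure.ne_zero μ (by simpa using h4)
  · intro h0
    have hE : ∀ f, EOp m μ hm f = f := fun f => by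
      have h1 := congrArg (fun A : Lp ℂ 2 μ →L[ℂ] Lp ℂ 2 μ => V (A (V' f))) h0
      change V (V' (EOp m μ hm (V (V' f)))) = V (V' f) at h1
      rw [hVV'a, hVV'a] at h1
      exact h1
    obtain ⟨A, hA, hA'⟩ := hproper
    have h1 := hE (indicatorConstLp 2 hA (measure_ne_top μ _) (1 : ℂ))
    have h2 := EOp_ae m hm (indicatorConstLp 2 hA (measure_ne_top μ _) (1 : ℂ))
    rw [h1] at h2
    set h := μ[(indicatorConstLp 2 hA (measure_ne_top μ _) (1 : ℂ) : X → ℂ) | m] with hh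
    have hsm : StronglyMeasurable[m] h := stronglyMeasurable_condExp
    refine hA' (h ⁻¹' {1}) (hsm.measurable (measurableSet_singleton 1)) ?_
    filter_upwards [h2, indicatorConstLp_coeFn (p := 2) (μ := μ) (hs := hA)
        (hμs := measure_ne_top μ _) (c := (1 : ℂ))] with x e1 e2
    rw [e2] at e1
    change (x ∈ A) = (x ∈ h ⁻¹' {1})
    apply propext
    rw [Set.mem_preimage, Set.mem_singleton_iff, ← e1]
    by_cases hx : x ∈ A
    · simp [hx]
    · simp [hx]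
  · intro T hT
    exact conj_comm m τ hτ hm hm1 hm2 hw hφ V V' hV hV' hVV' hV'V T hT
  · intro ψ S hψ hS
    refine conj_comm m (MeasurableEquiv.refl X) (MeasurePreserving.id μ) hm (fun A hA => hA)
      (fun A hA => hA) (u := u) (w := ψ) (φ := ψ) hψ ?_ V V' hV hV' hVV' hV'V S hS
    refine ae_of_all _ fun x => ?_
    change ψ x = Complex.exp (u x) * Complex.exp (- u x) * ψ x
    rw [a1, one_mul]

end PosEnt
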