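import Pool.Agent.Lib_MP_40e650.Defs

/-!
Piece E1: basic properties of the Shannon entropy of finite-valued functions.

All index types are finite with the discrete measurable structure; measurability of `V : X → ι`
is `∀ v, MeasurableSet (V ⁻¹' {v})`.

Proofs.
* `shannon_nonneg`: every term is `≥ 0` (`Real.negMulLog_nonneg`).
* `shannon_comp_le`: `μ {F ∘ V = w} = ∑_{v : F v = w} μ {V = v}` and
  `negMulLog (∑ a_v) ≤ ∑ negMulLog a_v` for `a_v ≥ 0` (because `-log (∑ a) ≤ -log a_v` when
  `a_v > 0`).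
* `shannon_pi_le` (subadditivity), by Gibbs: `p v = μ {V = v}`, `p_j` the marginals,
  `r v = ∏_j p_j (v j)`, `∑_v r v = ∏_j ∑_i p_j i = 1` (`Finset.prod_univ_sum` / `Fintype.piFinset`),
  `p v > 0 → r v > 0`, and `-p log p ≤ -p log r + (r - p)` from `log x ≤ x - 1`;
  `∑_v p v log (1/r v) = ∑_j ∑_i p_j i log (1 / p_j i)`.
* `shannon_comp_measurePreserving`: preimages have the same measure.
-/

open MeasureTheory Filter

namespace PosEnt

variable {X : Type*} [MeasurableSpace X] {μ : Measure X} [IsProbabilityMeasure μ]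

theorem shannon_nonneg {ι : Type*} [Fintype ι] (V : X → ι) : 0 ≤ shannon μ V := by
  unfold shannon
  refine Finset.sum_nonneg fun i _ => Real.negMulLog_nonneg measureReal_nonneg ?_
  exact measureReal_le_one

private theorem negMulLog_sum_le {ι : Type*} (s : Finset ι) (a : ι → ℝ)
    (ha : ∀ i ∈ s, 0 ≤ a i) :
    Real.negMulLog (∑ i ∈ s, a i) ≤ ∑ i ∈ s, Real.negMulLog (a i) := by
  unfold Real.negMulLog
  rw [neg_mul, Finset.sum_mul, ← Finset.sum_neg_distrib]
  refine Finset.sum_le_sum fun i hi => ?_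
  rw [neg_mul]
  rcases (ha i hi).eq_or_lt with h0 | h0
  · rw [← h0]; simp
  · have h1 : a i ≤ ∑ j ∈ s, a j := Finset.single_le_sum ha hi
    have h2 : Real.log (a i) ≤ Real.log (∑ j ∈ s, a j) := Real.log_le_log h0 h1
    nlinarith

theorem shannon_comp_le {ι κ : Type*} [Fintype ι] [Fintype κ] (V : X → ι)
    (hV : ∀ v, MeasurableSet (V ⁻¹' {v})) (F : ι → κ) :
    shannon μ (fun x => F (V x)) ≤ shannon μ V := by
  classical
  unfold shannon
  have key : ∀ w : κ, μ.real ((fun x => F (V x)) ⁻¹' {w}) =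
      ∑ v ∈ Finset.univ.filter (fun v => F v = w), μ.real (V ⁻¹' {v}) := by
    intro w
    have hset : (fun x => F (V x)) ⁻¹' {w} =
        ⋃ v ∈ Finset.univ.filter (fun v => F v = w), V ⁻¹' {v} := by
      ext x
      simp
    rw [hset]
    refine measureReal_biUnion_finset ?_ (fun v _ => hV v)
    intro a _ b _ hab
    refine Set.disjoint_left.mpr fun x hx hx' => hab ?_
    simp only [Set.mem_preimage, Set.mem_singleton_iff] at hx hx'
    rw [← hx, ← hx']
  calc ∑ w, Real.negMulLog (μ.real ((fun x => F (V x)) ⁻¹' {w}))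
      = ∑ w, Real.negMulLog
          (∑ v ∈ Finset.univ.filter (fun v => F v = w), μ.real (V ⁻¹' {v})) := by
        refine Finset.sum_congr rfl fun w _ => ?_
        rw [key w]
    _ ≤ ∑ w, ∑ v ∈ Finset.univ.filter (fun v => F v = w),
          Real.negMulLog (μ.real (V ⁻¹' {v})) :=
        Finset.sum_le_sum fun w _ => negMulLog_sum_le _ _ fun _ _ => measureReal_nonneg
    _ = ∑ v, Real.negMulLog (μ.real (V ⁻¹' {v})) := by
        exact Finset.sum_fiberwise Finset.univ F fun v => Real.negMulLog (μ.real (V ⁻¹' {v}))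

theorem shannon_comp_measurePreserving {ι : Type*} [Fintype ι] (V : X → ι)
    (hV : ∀ v, MeasurableSet (V ⁻¹' {v})) {τ : X → X} (hτ : MeasurePreserving τ μ μ) :
    shannon μ (fun x => V (τ x)) = shannon μ V := by
  unfold shannon
  refine Finset.sum_congr rfl fun v _ => ?_
  have h : (fun x => V (τ x)) ⁻¹' {v} = τ ⁻¹' (V ⁻¹' {v}) := rfl
  rw [h]
  congr 1
  exact hτ.measureReal_preimage (hV v).nullMeasurableSet

end PosEnt
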