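import Pool.Agent.Lib_MP_40e650.E1_Shannon

/-!
Piece E1b: subadditivity of the Shannon entropy of finite-valued functions.

* `shannon_pi_le` (subadditivity), by Gibbs: `p v = μ {V = v}`, `p_j` the marginals,
  `r v = ∏_j p_j (v j)`, `∑_v r v = ∏_j ∑_i p_j i = 1` (`Finset.prod_univ_sum` / `Fintype.piFinset`),
  `p v > 0 → r v > 0`, and `-p log p ≤ -p log r + (r - p)` from `log x ≤ x - 1`;
  `∑_v p v log (1/r v) = ∑_j ∑_i p_j i log (1 / p_j i)`.
* `shannon_prod_le`: the same with two factors (or from `shannon_pi_le` with `J = Bool` and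
  `shannon_comp_le`).
-/

open MeasureTheory Filter

namespace PosEnt

variable {X : Type*} [MeasurableSpace X] {μ : Measure X} [IsProbabilityMeasure μ]

/-- the law of `F (U x)` from the law of `U x` -/
private lemma E1b_Pi_fiber {ι κ : Type*} [Fintype ι] [DecidableEq κ] (U : X → ι)
    (hU : ∀ v, MeasurableSet (U ⁻¹' {v})) (F : ι → κ) (k : κ) :
    μ.real ((fun x => F (U x)) ⁻¹' {k}) = ∑ v, if F v = k then μ.real (U ⁻¹' {v}) else 0 := by
  have h1 : (fun x => F (U x)) ⁻¹' {k} =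
      ⋃ v ∈ Finset.univ.filter (fun v => F v = k), U ⁻¹' {v} := by
    ext x
    simp
  rw [h1, measureReal_biUnion_finset, Finset.sum_filter]
  · intro a _ b _ hab
    exact Disjoint.preimage U (Set.disjoint_singleton.mpr hab)
  · intro b _
    exact hU b

/-- change of variables for finite laws -/
private lemma E1b_Pi_change {ι κ : Type*} [Fintype ι] [Fintype κ] (U : X → ι)
    (hU : ∀ v, MeasurableSet (U ⁻¹' {v})) (F : ι → κ) (g : κ → ℝ) :
    ∑ v, μ.real (U ⁻¹' {v}) * g (F v) =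
      ∑ k, μ.real ((fun x => F (U x)) ⁻¹' {k}) * g k := by
  classical
  have h1 : ∀ k, μ.real ((fun x => F (U x)) ⁻¹' {k}) * g k =
      ∑ v, if F v = k then μ.real (U ⁻¹' {v}) * g k else 0 := by
    intro k
    rw [E1b_Pi_fiber U hU F k, Finset.sum_mul]
    refine Finset.sum_congr rfl fun v _ => ?_
    split_ifs <;> simp
  simp_rw [h1]
  rw [Finset.sum_comm]
  refine Finset.sum_congr rfl fun v _ => ?_
  simp

/-- total mass -/
private lemma E1b_Pi_total {ι : Type*} [Fintype ι] (U : X → ι)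
    (hU : ∀ v, MeasurableSet (U ⁻¹' {v})) : ∑ v, μ.real (U ⁻¹' {v}) = 1 := by
  have h := E1b_Pi_fiber (μ := μ) U hU (fun _ => ()) ()
  simp only [if_true] at h
  rw [← h]
  have : (fun _ : X => ()) ⁻¹' {()} = Set.univ := by ext; simp
  rw [this]
  simp

/-- Gibbs -/
private lemma E1b_Pi_gibbs (p r : ℝ) (hp : 0 ≤ p) (hr : 0 ≤ r) (hpr : 0 < p → 0 < r) :
    Real.negMulLog p ≤ p * (-Real.log r) + (r - p) := by
  rcases hp.eq_or_lt with h0 | h0
  · subst h0
    simp [Real.negMulLog, hr]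
  · have hr0 := hpr h0
    have h1 : Real.log (r / p) ≤ r / p - 1 := Real.log_le_sub_one_of_pos (div_pos hr0 h0)
    have h2 : p * Real.log (r / p) ≤ p * (r / p - 1) := mul_le_mul_of_nonneg_left h1 h0.le
    rw [Real.log_div hr0.ne' h0.ne'] at h2
    have h3 : p * (r / p - 1) = r - p := by field_simp
    rw [h3] at h2
    unfold Real.negMulLog
    nlinarith [h2]

theorem shannon_pi_le {J : Type*} [Fintype J] {ι : J → Type*} [∀ j, Fintype (ι j)]
    (V : (j : J) → X → ι j) (hV : ∀ j v, MeasurableSet (V j ⁻¹' {v}))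
    [DecidableEq J] :
    shannon μ (fun x (j : J) => V j x) ≤ ∑ j, shannon μ (V j) := by
  classical
  set U : X → (j : J) → ι j := fun x j => V j x with hUdef
  have hU : ∀ v, MeasurableSet (U ⁻¹' {v}) := by
    intro v
    have : U ⁻¹' {v} = ⋂ j, V j ⁻¹' {v j} := by
      ext x
      simp [hUdef, funext_iff]
    rw [this]
    exact MeasurableSet.iInter fun j => hV j (v j)
  have hle : ∀ v j, μ.real (U ⁻¹' {v}) ≤ μ.real (V j ⁻¹' {v j}) := by
    intro v j
    refine measureReal_mono ?_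
    intro x hx
    have : U x = v := hx
    simp [← this, hUdef]
  have hsum1 : ∑ v : (j : J) → ι j, ∏ j, μ.real (V j ⁻¹' {v j}) = 1 := by
    have h := Finset.prod_univ_sum (fun j : J => (Finset.univ : Finset (ι j)))
      (fun j i => μ.real (V j ⁻¹' {i}))
    rw [Fintype.piFinset_univ] at h
    rw [← h]
    exact Finset.prod_eq_one fun j _ => E1b_Pi_total (V j) (hV j)
  have hg : ∀ v, Real.negMulLog (μ.real (U ⁻¹' {v})) ≤
      μ.real (U ⁻¹' {v}) * (∑ j, -Real.log (μ.real (V j ⁻¹' {v j}))) +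
        (∏ j, μ.real (V j ⁻¹' {v j}) - μ.real (U ⁻¹' {v})) := by
    intro v
    have h := E1b_Pi_gibbs (μ.real (U ⁻¹' {v})) (∏ j, μ.real (V j ⁻¹' {v j}))
      measureReal_nonneg (Finset.prod_nonneg fun j _ => measureReal_nonneg)
      (fun hp => Finset.prod_pos fun j _ => hp.trans_le (hle v j))
    refine h.trans (le_of_eq ?_)
    congr 1
    rcases (measureReal_nonneg (μ := μ) (s := U ⁻¹' {v})).eq_or_lt with h0 | h0
    · rw [← h0]; simp
    · rw [Real.log_prod (fun j _ => (h0.trans_le (hle v j)).ne'), Finset.sum_neg_distrib]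
  have hchange : ∀ j, ∑ v, μ.real (U ⁻¹' {v}) * (-Real.log (μ.real (V j ⁻¹' {v j}))) =
      shannon μ (V j) := by
    intro j
    have h := E1b_Pi_change (μ := μ) U hU (fun v => v j)
      (fun i => -Real.log (μ.real (V j ⁻¹' {i})))
    rw [h]
    unfold shannon Real.negMulLog
    refine Finset.sum_congr rfl fun i _ => ?_
    simp [hUdef]
  calc shannon μ U = ∑ v, Real.negMulLog (μ.real (U ⁻¹' {v})) := rfl
    _ ≤ ∑ v, (μ.real (U ⁻¹' {v}) * (∑ j, -Real.log (μ.real (V j ⁻¹' {v j}))) +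
        (∏ j, μ.real (V j ⁻¹' {v j}) - μ.real (U ⁻¹' {v}))) := Finset.sum_le_sum fun v _ => hg v
    _ = ∑ v, μ.real (U ⁻¹' {v}) * (∑ j, -Real.log (μ.real (V j ⁻¹' {v j}))) := by
        rw [Finset.sum_add_distrib, Finset.sum_sub_distrib, hsum1, E1b_Pi_total U hU]
        simp
    _ = ∑ j, ∑ v, μ.real (U ⁻¹' {v}) * (-Real.log (μ.real (V j ⁻¹' {v j}))) := by
        rw [Finset.sum_comm]
        exact Finset.sum_congr rfl fun v _ => Finset.mul_sum _ _ _
    _ = ∑ j, shannon μ (V j) := Finset.sum_congr rfl fun j _ => hchange j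

/-- pairs -/
theorem shannon_prod_le {ι κ : Type*} [Fintype ι] [Fintype κ] (V : X → ι) (W : X → κ)
    (hV : ∀ v, MeasurableSet (V ⁻¹' {v})) (hW : ∀ v, MeasurableSet (W ⁻¹' {v})) :
    shannon μ (fun x => (V x, W x)) ≤ shannon μ V + shannon μ W := by
  classical
  set U : X → ι × κ := fun x => (V x, W x) with hUdef
  have hU : ∀ v, MeasurableSet (U ⁻¹' {v}) := by
    rintro ⟨a, b⟩
    have : U ⁻¹' {(a, b)} = V ⁻¹' {a} ∩ W ⁻¹' {b} := by
      ext x
      simp [hUdef]
    rw [this]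
    exact (hV a).inter (hW b)
  have hle1 : ∀ v : ι × κ, μ.real (U ⁻¹' {v}) ≤ μ.real (V ⁻¹' {v.1}) := by
    intro v
    refine measureReal_mono ?_
    intro x hx
    have : U x = v := hx
    simp [← this, hUdef]
  have hle2 : ∀ v : ι × κ, μ.real (U ⁻¹' {v}) ≤ μ.real (W ⁻¹' {v.2}) := by
    intro v
    refine measureReal_mono ?_
    intro x hx
    have : U x = v := hx
    simp [← this, hUdef]
  have hsum1 : ∑ v : ι × κ, μ.real (V ⁻¹' {v.1}) * μ.real (W ⁻¹' {v.2}) = 1 := by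
    rw [Fintype.sum_prod_type]
    simp_rw [← Finset.mul_sum]
    rw [E1b_Pi_total W hW]
    simp [E1b_Pi_total V hV]
  have hg : ∀ v, Real.negMulLog (μ.real (U ⁻¹' {v})) ≤
      (μ.real (U ⁻¹' {v}) * (-Real.log (μ.real (V ⁻¹' {v.1}))) +
       μ.real (U ⁻¹' {v}) * (-Real.log (μ.real (W ⁻¹' {v.2})))) +
        (μ.real (V ⁻¹' {v.1}) * μ.real (W ⁻¹' {v.2}) - μ.real (U ⁻¹' {v})) := by
    intro v
    have h := E1b_Pi_gibbs (μ.real (U ⁻¹' {v})) (μ.real (V ⁻¹' {v.1}) * μ.real (W ⁻¹' {v.2}))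
      measureReal_nonneg (mul_nonneg measureReal_nonneg measureReal_nonneg)
      (fun hp => mul_pos (hp.trans_le (hle1 v)) (hp.trans_le (hle2 v)))
    refine h.trans (le_of_eq ?_)
    congr 1
    rcases (measureReal_nonneg (μ := μ) (s := U ⁻¹' {v})).eq_or_lt with h0 | h0
    · rw [← h0]; simp
    · rw [Real.log_mul (h0.trans_le (hle1 v)).ne' (h0.trans_le (hle2 v)).ne']
      ring
  have hc1 : ∑ v, μ.real (U ⁻¹' {v}) * (-Real.log (μ.real (V ⁻¹' {v.1}))) = shannon μ V := by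
    have h := E1b_Pi_change (μ := μ) U hU Prod.fst (fun i => -Real.log (μ.real (V ⁻¹' {i})))
    rw [h]
    unfold shannon Real.negMulLog
    refine Finset.sum_congr rfl fun i _ => ?_
    simp [hUdef]
  have hc2 : ∑ v, μ.real (U ⁻¹' {v}) * (-Real.log (μ.real (W ⁻¹' {v.2}))) = shannon μ W := by
    have h := E1b_Pi_change (μ := μ) U hU Prod.snd (fun i => -Real.log (μ.real (W ⁻¹' {i})))
    rw [h]
    unfold shannon Real.negMulLog
    refine Finset.sum_congr rfl fun i _ => ?_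
    simp [hUdef]
  calc shannon μ U = ∑ v, Real.negMulLog (μ.real (U ⁻¹' {v})) := rfl
    _ ≤ ∑ v, ((μ.real (U ⁻¹' {v}) * (-Real.log (μ.real (V ⁻¹' {v.1}))) +
       μ.real (U ⁻¹' {v}) * (-Real.log (μ.real (W ⁻¹' {v.2})))) +
        (μ.real (V ⁻¹' {v.1}) * μ.real (W ⁻¹' {v.2}) - μ.real (U ⁻¹' {v}))) :=
          Finset.sum_le_sum fun v _ => hg v
    _ = shannon μ V + shannon μ W := by
        rw [Finset.sum_add_distrib, Finset.sum_sub_distrib, hsum1, E1b_Pi_total U hU,
          Finset.sum_add_distrib, hc1, hc2]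
        simp

end PosEnt
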