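import Pool.Agent.Lib_MP_40e650.Defs

/-!
Piece E2b: entropy of a truncated function with values in `ℕ`.

The elementary inequality is `-p log p ≤ p s + exp (-1 - s)` for `p ≥ 0` and every real `s`
(`log y ≤ y - 1` with `y = exp (-1-s) / p`), and `-p log p ≤ 1 - p` for `0 ≤ p ≤ 1`.

`p_n = μ {min D K = n}`. For `1 ≤ n ≤ K` use `s = 2 log (n + J)`:
  `-p_n log p_n ≤ 2 p_n log (n + J) + (n+J)^(-2)`, `log (n+J) ≤ log (1+n) + log (1+J)`,
  `∑_{n ≥ 1} (n+J)^(-2) ≤ 1/J` (telescope `1/((n+J)(n+J-1))`), `∑_{n≥1} p_n log (1+n) ≤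
  ∫ log (1+D)`, `∑_{n ≥ 1} p_n = μ {D ≥ 1}` for `K ≥ 1`; the term `n = 0` is `≤ 1 - p_0 = μ {D ≥ 1}`
  (for `K = 0` everything is `0`).
-/

open MeasureTheory Filter

namespace PosEnt

variable {X : Type*} [MeasurableSpace X] {μ : Measure X} [IsProbabilityMeasure μ]

private theorem nml_le_aux {x : ℝ} (hx : 0 ≤ x) (s : ℝ) :
    Real.negMulLog x ≤ x * s + Real.exp (-1 - s) := by
  rcases hx.eq_or_lt with h | h
  · rw [← h]
    simp only [Real.negMulLog_zero, zero_mul, zero_add]
    exact (Real.exp_pos _).le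
  · have h1 : Real.log (Real.exp (-1 - s) / x) ≤ Real.exp (-1 - s) / x - 1 :=
      Real.log_le_sub_one_of_pos (div_pos (Real.exp_pos _) h)
    rw [Real.log_div (Real.exp_pos _).ne' h.ne', Real.log_exp] at h1
    have h2 : -Real.log x ≤ s + Real.exp (-1 - s) / x := by linarith
    have h3 : x * (-Real.log x) ≤ x * (s + Real.exp (-1 - s) / x) :=
      mul_le_mul_of_nonneg_left h2 hx
    have h4 : x * (s + Real.exp (-1 - s) / x) = x * s + Real.exp (-1 - s) := by
      field_simp
    rw [h4] at h3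
    unfold Real.negMulLog
    linarith

private theorem nml_le_one_sub {x : ℝ} (hx : 0 ≤ x) :
    Real.negMulLog x ≤ 1 - x := by
  have h := nml_le_aux hx (-1)
  have h1 : Real.exp (-1 - -1) = 1 := by norm_num
  rw [h1] at h
  linarith

private theorem tail_sum (J : ℕ) (hJ : 1 ≤ J) (K : ℕ) :
    ∑ i : Fin K, (((i : ℕ) + 1 + J : ℝ) ^ 2)⁻¹ ≤ 1 / J - 1 / (K + J) := by
  induction K with
  | zero => simp
  | succ K ih =>
    rw [Fin.sum_univ_castSucc]
    simp only [Fin.val_castSucc, Fin.val_last]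
    have hJ0 : (0 : ℝ) < J := by exact_mod_cast hJ
    have hK0 : (0 : ℝ) ≤ K := Nat.cast_nonneg K
    have h1 : (((K : ℝ) + 1 + (J : ℝ)) ^ 2)⁻¹ ≤
        1 / ((K : ℝ) + (J : ℝ)) - 1 / ((K : ℝ) + 1 + (J : ℝ)) := by
      rw [div_sub_div _ _ (by positivity) (by positivity), inv_eq_one_div,
        div_le_div_iff₀ (by positivity) (by positivity)]
      nlinarith
    have h2 : (((K + 1 : ℕ) : ℝ)) = (K : ℝ) + 1 := by push_cast; ring
    rw [h2]
    linarith

private theorem step_term (J : ℕ) (hJ : 1 ≤ J) (n : ℕ) {p : ℝ} (hp : 0 ≤ p) :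
    Real.negMulLog p ≤ 2 * (p * Real.log (1 + ((n + 1 : ℕ) : ℝ))) + 2 * Real.log (1 + J) * p
      + (((n : ℝ) + 1 + J) ^ 2)⁻¹ := by
  have hJ0 : (0 : ℝ) < J := by exact_mod_cast hJ
  have hn0 : (0 : ℝ) ≤ n := Nat.cast_nonneg n
  have hpos : (0 : ℝ) < n + 1 + J := by positivity
  have h := nml_le_aux hp (2 * Real.log (n + 1 + J))
  have h1 : Real.log (n + 1 + J) ≤ Real.log (1 + ((n + 1 : ℕ) : ℝ)) + Real.log (1 + J) := by
    rw [← Real.log_mul (by positivity) (by positivity)]
    apply Real.log_le_log hpos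
    push_cast
    nlinarith
  have h2 : Real.exp (-1 - 2 * Real.log (n + 1 + J)) ≤ (((n : ℝ) + 1 + J) ^ 2)⁻¹ := by
    have h3 : Real.exp (-(2 * Real.log (n + 1 + J))) = (((n : ℝ) + 1 + J) ^ 2)⁻¹ := by
      rw [Real.exp_neg, two_mul, Real.exp_add, Real.exp_log hpos, pow_two]
    rw [← h3]
    apply Real.exp_le_exp.2
    linarith
  have h4 : p * (2 * Real.log (n + 1 + J)) ≤
      2 * (p * Real.log (1 + ((n + 1 : ℕ) : ℝ))) + 2 * Real.log (1 + J) * p := by
    nlinarith [mul_le_mul_of_nonneg_left h1 hp]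
  linarith

theorem shannon_trunc_le (D : X → ℕ) (hD : Measurable D)
    (hint : Integrable (fun x => Real.log (1 + D x)) μ) {J : ℕ} (hJ : 1 ≤ J) (K : ℕ) :
    shannon μ (trunc D K) ≤ 2 * (∫ x, Real.log (1 + D x) ∂μ)
      + μ.real {x | 1 ≤ D x} * (1 + 2 * Real.log (1 + J)) + 1 / J := by
  have hQ : Measurable (trunc D K) := by
    have hf : Measurable (fun n : ℕ => (⟨min n K, by omega⟩ : Fin (K + 1))) :=
      measurable_from_top
    exact hf.comp hD
  set p : Fin (K + 1) → ℝ := fun i => μ.real (trunc D K ⁻¹' {i}) with hp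
  have hp0 : ∀ i, 0 ≤ p i := fun i => measureReal_nonneg
  -- integrals of functions of `trunc D K`
  have hsum : ∀ g : Fin (K + 1) → ℝ, ∫ x, g (trunc D K x) ∂μ = ∑ i, p i * g i := by
    intro g
    have h1 : ∫ x, g (trunc D K x) ∂μ = ∫ y, g y ∂(μ.map (trunc D K)) :=
      (integral_map hQ.aemeasurable (measurable_of_finite g).aestronglyMeasurable).symm
    have : IsProbabilityMeasure (μ.map (trunc D K)) :=
      Measure.isProbabilityMeasure_map hQ.aemeasurable
    rw [h1, integral_fintype (Integrable.of_finite)]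
    apply Finset.sum_congr rfl
    intro i _
    rw [smul_eq_mul, map_measureReal_apply hQ (MeasurableSet.singleton i)]
  have hone : ∑ i, p i = 1 := by
    have h1 := hsum fun _ => 1
    simp only [mul_one] at h1
    rw [← h1, integral_const, smul_eq_mul, mul_one, probReal_univ]
  have hlog : ∑ i : Fin (K + 1), p i * Real.log (1 + (i : ℕ)) ≤ ∫ x, Real.log (1 + D x) ∂μ := by
    rw [← hsum fun i => Real.log (1 + (i : ℕ))]
    have hI : Integrable (fun x => Real.log (1 + ((trunc D K x : Fin (K + 1)) : ℕ))) μ := by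
      refine Integrable.mono' (g := fun _ => Real.log (1 + K)) (integrable_const _) ?_ ?_
      · exact ((measurable_of_finite fun i : Fin (K + 1) => Real.log (1 + (i : ℕ))).comp
          hQ).aestronglyMeasurable
      · refine Eventually.of_forall fun x => ?_
        have h1 : ((trunc D K x : Fin (K + 1)) : ℕ) ≤ K := Nat.lt_succ_iff.1 (trunc D K x).2
        have h2 : (((trunc D K x : Fin (K + 1)) : ℕ) : ℝ) ≤ K := by exact_mod_cast h1
        have h3 : (0 : ℝ) ≤ (((trunc D K x : Fin (K + 1)) : ℕ) : ℝ) := Nat.cast_nonneg _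
        rw [Real.norm_eq_abs, abs_of_nonneg (Real.log_nonneg (by linarith))]
        exact Real.log_le_log (by linarith) (by linarith)
    apply integral_mono hI hint
    intro x
    have h1 : ((trunc D K x : Fin (K + 1)) : ℕ) ≤ D x := min_le_left _ _
    have h2 : (((trunc D K x : Fin (K + 1)) : ℕ) : ℝ) ≤ D x := by exact_mod_cast h1
    have h3 : (0 : ℝ) ≤ (((trunc D K x : Fin (K + 1)) : ℕ) : ℝ) := Nat.cast_nonneg _
    exact Real.log_le_log (by linarith) (by linarith)
  have hS : 1 - p 0 ≤ μ.real {x | 1 ≤ D x} := by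
    have h1 : MeasurableSet (trunc D K ⁻¹' {0}) := hQ (MeasurableSet.singleton 0)
    have h2 : μ.real (trunc D K ⁻¹' {0})ᶜ = 1 - p 0 := by
      rw [measureReal_compl h1, probReal_univ]
    rw [← h2]
    apply measureReal_mono
    · intro x hx
      have h3 : trunc D K x ≠ 0 := hx
      have h4 : min (D x) K ≠ 0 := by
        intro h5
        apply h3
        apply Fin.ext
        exact h5
      change 1 ≤ D x
      omega
    · exact measure_ne_top _ _
  rw [Fin.sum_univ_succ] at hone hlog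
  have hz : p 0 * Real.log (1 + ((0 : Fin (K + 1)) : ℕ)) = 0 := by simp
  rw [hz, zero_add] at hlog
  have hent : shannon μ (trunc D K) = Real.negMulLog (p 0) +
      ∑ i : Fin K, Real.negMulLog (p i.succ) := by
    unfold shannon
    rw [Fin.sum_univ_succ]
  have hterms : ∑ i : Fin K, Real.negMulLog (p i.succ) ≤
      2 * (∑ i : Fin K, p i.succ * Real.log (1 + ((i.succ : Fin (K + 1)) : ℕ))) +
        2 * Real.log (1 + J) * (∑ i : Fin K, p i.succ) +
        ∑ i : Fin K, (((i : ℕ) + 1 + J : ℝ) ^ 2)⁻¹ := by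
    rw [Finset.mul_sum, Finset.mul_sum, ← Finset.sum_add_distrib, ← Finset.sum_add_distrib]
    apply Finset.sum_le_sum
    intro i _
    have h := step_term J hJ i (hp0 i.succ)
    simpa using h
  have hq : ∑ i : Fin K, p i.succ ≤ μ.real {x | 1 ≤ D x} := by linarith
  have htail := tail_sum J hJ K
  have hJ0 : (0 : ℝ) < J := by exact_mod_cast hJ
  have hKJ : (0 : ℝ) ≤ 1 / (K + J) := by positivity
  have hz0 := nml_le_one_sub (hp0 0)
  have hlJ : 0 ≤ Real.log (1 + J) := Real.log_nonneg (by linarith)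
  have h5 : 2 * Real.log (1 + J) * (∑ i : Fin K, p i.succ) ≤
      2 * Real.log (1 + J) * μ.real {x | 1 ≤ D x} :=
    mul_le_mul_of_nonneg_left hq (by linarith)
  rw [hent]
  linarith

end PosEnt
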