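import Pool.Agent.Lib_MP_40e650.E1b_Pi

/-!
Piece E4a: the entropy inequality for names of length `n`.

Put `C l = {x | (W (τ^[i] x))_{i ≤ 2m} ∈ c l}` and
`Δ l = symmDiff (τ^[m] ⁻¹' (Q ⁻¹' {l})) (C l)`.
The name `(Q (τ^[k+m] x))_{k < n}` is a function of
`(W (τ^[i] x))_{i < n + 2 m}` and `(decide (τ^[k] x ∈ Δ l))_{k < n, l}`: indeed
`Q (τ^[m] (τ^[k] x)) = l` iff exactly one of `τ^[k] x ∈ C l`, `τ^[k] x ∈ Δ l` holds.
So (`shannon_comp_le`, `shannon_prod_le`, `shannon_pi_le`, `shannon_comp_measurePreserving`)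
`H_n(Q) = shannon (name τ Q n ∘ τ^[m]) ≤ (n + 2 m) shannon W + n r η`.
(If `n = 0` or `r = 0` nothing special happens: `r = 0` is impossible since `X` is non-empty.)
-/

open MeasureTheory Filter

namespace PosEnt

variable {X : Type*} [MeasurableSpace X] {μ : Measure X} [IsProbabilityMeasure μ]

omit [IsProbabilityMeasure μ] in
private theorem nm_set {ι : Type*} [Fintype ι] (V : X → ι)
    (hV : ∀ v, MeasurableSet (V ⁻¹' {v})) (S : Set ι) : MeasurableSet (V ⁻¹' S) := by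
  have h : V ⁻¹' S = ⋃ v ∈ S, V ⁻¹' {v} := by
    ext x
    simp
  rw [h]
  exact MeasurableSet.biUnion (Set.to_countable S) fun v _ => hV v

private theorem nm_pi {J : Type*} [Fintype J] {ι : J → Type*}
    (V : (j : J) → X → ι j) (hV : ∀ j v, MeasurableSet (V j ⁻¹' {v})) (v : (j : J) → ι j) :
    MeasurableSet ((fun x (j : J) => V j x) ⁻¹' {v}) := by
  have h : (fun x (j : J) => V j x) ⁻¹' {v} = ⋂ j, V j ⁻¹' {v j} := by
    ext x
    simp [funext_iff]
  rw [h]
  exact MeasurableSet.iInter fun j => hV j (v j)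

/-- the entropy inequality for one `n` -/
theorem name_entropy_le (τ : X ≃ᵐ X) (hτ : MeasurePreserving τ μ μ) {κ : Type*} [Fintype κ]
    (W : X → κ) (hW : ∀ v, MeasurableSet (W ⁻¹' {v})) {r : ℕ} (Q : X → Fin r)
    (hQ : Measurable Q) (m : ℕ) (c : Fin r → Set (Fin (2 * m + 1) → κ)) {b η : ℝ}
    (hb : shannon μ W ≤ b)
    (hη : ∀ l, ∀ D : Set X, D = symmDiff ((τ^[m]) ⁻¹' (Q ⁻¹' {l}))
        {x | (fun i : Fin (2 * m + 1) => W (τ^[(i : ℕ)] x)) ∈ c l} →
      shannon μ (fun x => @decide (x ∈ D) (Classical.propDecidable _)) ≤ η) (n : ℕ) :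
    shannon μ (name τ Q n) ≤ (n + 2 * m) * b + n * (r * η) := by
  classical
  obtain ⟨x0⟩ : Nonempty X := nonempty_of_isProbabilityMeasure μ
  have hmeas : ∀ k : ℕ, Measurable (τ^[k]) := fun k => τ.measurable.iterate k
  have hQs : ∀ v, MeasurableSet (Q ⁻¹' {v}) := fun v => hQ (MeasurableSet.singleton v)
  -- the sets
  set C : Fin r → Set X := fun l =>
    {x | (fun i : Fin (2 * m + 1) => W (τ^[(i : ℕ)] x)) ∈ c l} with hC
  set Δ : Fin r → Set X := fun l => symmDiff ((τ^[m]) ⁻¹' (Q ⁻¹' {l})) (C l) with hΔ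
  have hWk : ∀ (k : ℕ) v, MeasurableSet ((fun x => W (τ^[k] x)) ⁻¹' {v}) :=
    fun k v => hmeas k (hW v)
  have hCm : ∀ l, MeasurableSet (C l) := fun l =>
    nm_set (fun x (i : Fin (2 * m + 1)) => W (τ^[(i : ℕ)] x))
      (nm_pi (fun (i : Fin (2 * m + 1)) x => W (τ^[(i : ℕ)] x)) fun i v => hWk i v) (c l)
  have hΔm : ∀ l, MeasurableSet (Δ l) := fun l => ((hmeas m) (hQs l)).symmDiff (hCm l)
  -- the bits
  set e : Fin r → X → Bool := fun l x => decide (x ∈ Δ l) with he
  have hem : ∀ l v, MeasurableSet (e l ⁻¹' {v}) := by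
    intro l v
    cases v with
    | true =>
      have h : e l ⁻¹' {true} = Δ l := by
        ext x
        simp [he]
      rw [h]
      exact hΔm l
    | false =>
      have h : e l ⁻¹' {false} = (Δ l)ᶜ := by
        ext x
        simp [he]
      rw [h]
      exact (hΔm l).compl
  have hele : ∀ l, shannon μ (e l) ≤ η := by
    intro l
    have h := hη l (Δ l) rfl
    have h2 : (fun x => @decide (x ∈ Δ l) (Classical.propDecidable _)) = e l := by
      funext x
      simp only [he]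
    rw [h2] at h
    exact h
  -- the two vectors
  set A : X → Fin (n + 2 * m) → κ := fun x i => W (τ^[(i : ℕ)] x) with hA
  set B : X → Fin n × Fin r → Bool := fun x kl => e kl.2 (τ^[(kl.1 : ℕ)] x) with hB
  have hAm : ∀ v, MeasurableSet (A ⁻¹' {v}) :=
    nm_pi (fun (i : Fin (n + 2 * m)) x => W (τ^[(i : ℕ)] x)) fun i v => hWk i v
  have hBk : ∀ (kl : Fin n × Fin r) v,
      MeasurableSet ((fun x => e kl.2 (τ^[(kl.1 : ℕ)] x)) ⁻¹' {v}) :=
    fun kl v => hmeas _ (hem kl.2 v)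
  have hBm : ∀ v, MeasurableSet (B ⁻¹' {v}) :=
    nm_pi (fun (kl : Fin n × Fin r) x => e kl.2 (τ^[(kl.1 : ℕ)] x)) hBk
  have hAle : shannon μ A ≤ (n + 2 * m) * b := by
    have h1 : shannon μ A ≤ ∑ i : Fin (n + 2 * m), shannon μ (fun x => W (τ^[(i : ℕ)] x)) :=
      shannon_pi_le (fun (i : Fin (n + 2 * m)) x => W (τ^[(i : ℕ)] x)) fun i v => hWk i v
    refine h1.trans ?_
    have h2 : ∀ i : Fin (n + 2 * m), shannon μ (fun x => W (τ^[(i : ℕ)] x)) ≤ b := by
      intro i
      rw [shannon_comp_measurePreserving W hW (hτ.iterate (i : ℕ))]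
      exact hb
    refine (Finset.sum_le_sum fun i _ => h2 i).trans (le_of_eq ?_)
    rw [Finset.sum_const, Finset.card_univ, Fintype.card_fin, nsmul_eq_mul]
    push_cast
    ring
  have hBle : shannon μ B ≤ n * (r * η) := by
    have h1 : shannon μ B ≤
        ∑ kl : Fin n × Fin r, shannon μ (fun x => e kl.2 (τ^[(kl.1 : ℕ)] x)) :=
      shannon_pi_le (fun (kl : Fin n × Fin r) x => e kl.2 (τ^[(kl.1 : ℕ)] x)) hBk
    refine h1.trans ?_
    have h2 : ∀ kl : Fin n × Fin r, shannon μ (fun x => e kl.2 (τ^[(kl.1 : ℕ)] x)) ≤ η := by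
      intro kl
      rw [shannon_comp_measurePreserving (e kl.2) (hem kl.2) (hτ.iterate (kl.1 : ℕ))]
      exact hele kl.2
    refine (Finset.sum_le_sum fun i _ => h2 i).trans (le_of_eq ?_)
    rw [Finset.sum_const, Finset.card_univ, Fintype.card_prod, Fintype.card_fin,
      Fintype.card_fin, nsmul_eq_mul]
    push_cast
    ring
  -- the decoding function
  set F : (Fin (n + 2 * m) → κ) × (Fin n × Fin r → Bool) → Fin n → Fin r := fun ab k =>
    if h : ∃ l : Fin r, Xor' ((fun i : Fin (2 * m + 1) =>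
        ab.1 ⟨(k : ℕ) + (i : ℕ), by have := k.2; have := i.2; omega⟩) ∈ c l)
        (ab.2 (k, l) = true) then h.choose else Q x0 with hF
  have hFe : ∀ x, name τ Q n (τ^[m] x) = F (A x, B x) := by
    intro x
    funext k
    have hiter : τ^[(k : ℕ)] (τ^[m] x) = τ^[m] (τ^[(k : ℕ)] x) := by
      rw [← Function.iterate_add_apply, Nat.add_comm, Function.iterate_add_apply]
    have hwin : ∀ i : Fin (2 * m + 1),
        A x ⟨(k : ℕ) + (i : ℕ), by have := k.2; have := i.2; omega⟩ =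
          W (τ^[(i : ℕ)] (τ^[(k : ℕ)] x)) := by
      intro i
      rw [← Function.iterate_add_apply, Nat.add_comm (i : ℕ) (k : ℕ)]
    have hiff : ∀ l : Fin r, Xor' ((fun i : Fin (2 * m + 1) =>
        A x ⟨(k : ℕ) + (i : ℕ), by have := k.2; have := i.2; omega⟩) ∈ c l)
        (B x (k, l) = true) ↔ Q (τ^[m] (τ^[(k : ℕ)] x)) = l := by
      intro l
      have h1 : ((fun i : Fin (2 * m + 1) =>
          A x ⟨(k : ℕ) + (i : ℕ), by have := k.2; have := i.2; omega⟩) ∈ c l) ↔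
          τ^[(k : ℕ)] x ∈ C l := by
        rw [show (fun i : Fin (2 * m + 1) =>
          A x ⟨(k : ℕ) + (i : ℕ), by have := k.2; have := i.2; omega⟩) =
          fun i : Fin (2 * m + 1) => W (τ^[(i : ℕ)] (τ^[(k : ℕ)] x)) from funext hwin]
        exact Iff.rfl
      have h2 : B x (k, l) = true ↔ τ^[(k : ℕ)] x ∈ Δ l := by
        simp only [hB, he, decide_eq_true_eq]
      have h3 : τ^[(k : ℕ)] x ∈ Δ l ↔
          Xor' (Q (τ^[m] (τ^[(k : ℕ)] x)) = l) (τ^[(k : ℕ)] x ∈ C l) := by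
        rw [hΔ]
        exact Set.mem_symmDiff
      rw [h1, h2, h3]
      by_cases p1 : τ^[(k : ℕ)] x ∈ C l <;> by_cases p2 : Q (τ^[m] (τ^[(k : ℕ)] x)) = l <;>
        simp [Xor', p1, p2]
    have hex : ∃ l : Fin r, Xor' ((fun i : Fin (2 * m + 1) =>
        A x ⟨(k : ℕ) + (i : ℕ), by have := k.2; have := i.2; omega⟩) ∈ c l)
        (B x (k, l) = true) := ⟨_, (hiff _).2 rfl⟩
    have h4 : F (A x, B x) k = hex.choose := by
      simp only [hF]
      exact dif_pos hex
    rw [h4]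
    change Q (τ^[(k : ℕ)] (τ^[m] x)) = _
    rw [hiter]
    exact (hiff _).1 hex.choose_spec
  have hnm : ∀ v, MeasurableSet (name τ Q n ⁻¹' {v}) :=
    nm_pi (fun (k : Fin n) x => Q (τ^[(k : ℕ)] x)) fun k v => hmeas _ (hQs v)
  calc shannon μ (name τ Q n) = shannon μ (fun x => name τ Q n (τ^[m] x)) :=
        (shannon_comp_measurePreserving (name τ Q n) hnm (hτ.iterate m)).symm
    _ = shannon μ (fun x => F (A x, B x)) := by
        rw [show (fun x => name τ Q n (τ^[m] x)) = fun x => F (A x, B x) from funext hFe]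
    _ ≤ shannon μ (fun x => (A x, B x)) := by
        refine shannon_comp_le (fun x => (A x, B x)) ?_ F
        rintro ⟨v, w⟩
        have h : (fun x => (A x, B x)) ⁻¹' {(v, w)} = A ⁻¹' {v} ∩ B ⁻¹' {w} := by
          ext x
          simp
        rw [h]
        exact (hAm v).inter (hBm w)
    _ ≤ shannon μ A + shannon μ B := shannon_prod_le A B hAm hBm
    _ ≤ (n + 2 * m) * b + n * (r * η) := add_le_add hAle hBle

end PosEnt
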