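import Pool.Agent.Lib_MP_40e650.Defs

/-!
Piece E5a: positive entropy gives sets of arbitrarily small positive measure.

If every measurable set has measure `0` or `> δ` (wlog `δ < 1`) then for every finite-valued
measurable `V` all atoms `p_v > 0` satisfy `- log p_v ≤ log (1/δ)`, so
`shannon μ V ≤ log (1/δ) * ∑ p_v = log (1/δ)`; so `H_n(Q) / n → 0` for all `Q`
and `ksEntropy μ τ ≤ 0`, a contradiction.
-/

open MeasureTheory Filter

namespace PosEnt

variable {X : Type*} [MeasurableSpace X] {μ : Measure X} [IsProbabilityMeasure μ]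

private lemma shannon_le_of_atoms {ι : Type*} [Fintype ι] {V : X → ι}
    (hV : ∀ i, MeasurableSet (V ⁻¹' {i})) {δ : ℝ} (hδ : 0 < δ)
    (h : ∀ A : Set X, MeasurableSet A → 0 < μ.real A → δ < μ.real A) :
    shannon μ V ≤ -Real.log δ := by
  have hsum : ∑ i, μ.real (V ⁻¹' {i}) = 1 := by
    rw [sum_measureReal_preimage_singleton (μ := μ) Finset.univ (fun y _ => hV y)]
    simp
  calc shannon μ V = ∑ i, Real.negMulLog (μ.real (V ⁻¹' {i})) := rfl
    _ ≤ ∑ i, μ.real (V ⁻¹' {i}) * (-Real.log δ) := by
        refine Finset.sum_le_sum fun i _ => ?_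
        rcases (measureReal_nonneg : 0 ≤ μ.real (V ⁻¹' {i})).eq_or_lt with h0 | h0
        · rw [← h0]; simp
        · have h1 := h _ (hV i) h0
          have h2 : Real.log δ ≤ Real.log (μ.real (V ⁻¹' {i})) := Real.log_le_log hδ h1.le
          unfold Real.negMulLog
          nlinarith
    _ = -Real.log δ := by rw [← Finset.sum_mul, hsum, one_mul]

private lemma measurable_name {r : ℕ} {τ : X → X} (hτ : Measurable τ) {Q : X → Fin r}
    (hQ : Measurable Q) (n : ℕ) : Measurable (name τ Q n) := by
  refine measurable_pi_lambda _ fun k => ?_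
  exact hQ.comp (hτ.iterate _)

theorem exists_small_set (τ : X → X) (hτ : MeasurePreserving τ μ μ)
    (hent : 0 < ksEntropy μ τ) {δ : ℝ} (hδ : 0 < δ) :
    ∃ A : Set X, MeasurableSet A ∧ 0 < μ.real A ∧ μ.real A ≤ δ := by
  by_contra hcon
  push Not at hcon
  have hle : ksEntropy μ τ ≤ 0 := by
    refine iSup_le fun r => iSup_le fun Q => iSup_le fun hQ => ?_
    have hlim : Tendsto (fun n : ℕ => (((-Real.log δ) / n : ℝ) : EReal)) atTop (nhds 0) := by
      have h1 : Tendsto (fun n : ℕ => (-Real.log δ) / (n : ℝ)) atTop (nhds 0) :=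
        tendsto_const_div_atTop_nhds_zero_nat _
      exact (continuous_coe_real_ereal.tendsto 0).comp h1
    rw [← hlim.limsup_eq]
    refine limsup_le_limsup (Eventually.of_forall fun n => ?_)
    have h2 : shannon μ (name τ Q n) ≤ -Real.log δ :=
      shannon_le_of_atoms (fun i => measurable_name hτ.measurable hQ n (measurableSet_singleton i))
        hδ hcon
    exact EReal.coe_le_coe_iff.2 (div_le_div_of_nonneg_right h2 (Nat.cast_nonneg n))
  exact absurd hent (not_lt.2 hle)

end PosEnt
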