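import Pool.Agent.Lib_MP_40e650.Defs

/-!
Piece E6: one step of the cohomological quantisation.

`χ = 1 - 1_B`; `s x = ∑_{j<N} (∏_{i ≤ j} χ (τ⁻ⁱ x)) e (τ⁻ʲ⁻¹ x)`. Then
`s (τ x) = χ (τ x) (e x + s x)`: shift the index; the boundary term contains
`∏_{i < N} χ (τ⁻ⁱ x) = 0` because of the gap condition. So
`e x = s (τ x) - s x + 1_B (τ x) (e x + s x)` and `‖s x‖ ≤ N E`, `‖e x + s x‖ ≤ (N+1) E`.
Let `y = e x + s x` if `τ x ∈ B` and `y = 0` otherwise; round `y.re / ε`, `y.im / ε` to the nearest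
integers `a`, `b` (`round`), `|a|, |b| ≤ (N+1)E/ε + 1 ≤ L`, `w x = (a + L, b + L)`,
`e' = y - ε (a + b i)`, `‖e'‖ ≤ ε`.
-/

open MeasureTheory Filter

namespace PosEnt

variable {X : Type*} [MeasurableSpace X]

/-- label of the nearest integer, clamped -/
private noncomputable def rd (L : ℕ) (t : ℝ) : Fin (2 * L + 1) :=
  ⟨min (⌊t + 1 / 2⌋ + L).toNat (2 * L), by omega⟩

private theorem measurable_rd (L : ℕ) : Measurable (rd L) := by
  have h : rd L = (fun z : ℤ => (⟨min (z + L).toNat (2 * L), by omega⟩ : Fin (2 * L + 1))) ∘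
      (fun t : ℝ => ⌊t + 1 / 2⌋) := rfl
  rw [h]
  refine Measurable.comp (Measurable.of_discrete) ?_
  exact Int.measurable_floor.comp (measurable_id.add_const _)

private theorem rd_zero (L : ℕ) : rd L 0 = ⟨L, by omega⟩ := by
  unfold rd
  have : ⌊(0 : ℝ) + 1 / 2⌋ = 0 := by
    rw [Int.floor_eq_iff]; norm_num
  simp only [this, Fin.mk.injEq]
  omega

private theorem rd_err {L : ℕ} {t : ℝ} (ht : |t| + 1 ≤ L) :
    |t - (((rd L t : Fin (2 * L + 1)) : ℝ) - L)| ≤ 1 / 2 := by
  have h1 := abs_le.1 (show |t| ≤ (L : ℝ) - 1 by linarith)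
  set a : ℤ := ⌊t + 1 / 2⌋ with ha
  have h2 : (a : ℝ) ≤ t + 1 / 2 := Int.floor_le _
  have h3 : t + 1 / 2 < a + 1 := Int.lt_floor_add_one _
  have h4 : a ≤ L := by
    have : (a : ℝ) ≤ (L : ℤ) := by push_cast; linarith
    exact_mod_cast this
  have h5 : -(L : ℤ) ≤ a := by
    have : ((-(L : ℤ) : ℤ) : ℝ) ≤ a := by push_cast; linarith
    exact_mod_cast this
  have h6 : (((rd L t : Fin (2 * L + 1)) : ℕ) : ℤ) = a + L := by
    unfold rd
    simp only
    rw [← ha]
    omega
  have h7 : ((rd L t : Fin (2 * L + 1)) : ℝ) = a + L := by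
    have := congrArg (fun z : ℤ => (z : ℝ)) h6
    push_cast at this
    exact this
  rw [h7, abs_le]
  constructor <;> linarith

theorem step (τ : X ≃ᵐ X) {B : Set X} (hB : MeasurableSet B) {N : ℕ}
    (hgap : ∀ x, ∃ i < N, (τ.symm^[i]) x ∈ B) {e : X → ℂ} (he : Measurable e) {E : ℝ}
    (hE : ∀ x, ‖e x‖ ≤ E) {ε : ℝ} (hε : 0 < ε) {L : ℕ} (hL : (N + 1) * E / ε + 1 ≤ L) :
    ∃ (s e' : X → ℂ) (w : X → Box L), Measurable s ∧ Measurable e' ∧ Measurable w ∧
      (∀ x, e x = s (τ x) - s x + val ε L (w x) + e' x) ∧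
      (∀ x, ‖s x‖ ≤ N * E) ∧ (∀ x, ‖e' x‖ ≤ ε) ∧ (∀ x, τ x ∉ B → w x = zeroBox L) := by
  classical
  set χ : X → ℂ := Bᶜ.indicator (fun _ => 1) with hχ
  have hχm : Measurable χ := measurable_const.indicator hB.compl
  have hχ1 : ∀ x, ‖χ x‖ ≤ 1 := by
    intro x
    by_cases hx : x ∈ B
    · simp [hχ, hx]
    · simp [hχ, hx]
  have hit : ∀ i, Measurable (τ.symm^[i]) := fun i => τ.symm.measurable.iterate i
  set T : ℕ → X → ℂ := fun j x => (∏ i ∈ Finset.range (j + 1), χ ((τ.symm^[i]) x)) *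
    e ((τ.symm^[j + 1]) x) with hT
  have hTm : ∀ j, Measurable (T j) := by
    intro j
    refine Measurable.mul ?_ (he.comp (hit _))
    exact Finset.measurable_prod _ (fun i _ => hχm.comp (hit i))
  have hTn : ∀ j x, ‖T j x‖ ≤ E := by
    intro j x
    have hE0 : 0 ≤ E := (norm_nonneg _).trans (hE x)
    simp only [hT, norm_mul, norm_prod]
    have h1 : ∏ i ∈ Finset.range (j + 1), ‖χ ((τ.symm^[i]) x)‖ ≤ 1 :=
      Finset.prod_le_one (fun _ _ => norm_nonneg _) (fun _ _ => hχ1 _)
    calc _ ≤ 1 * E := mul_le_mul h1 (hE _) (norm_nonneg _) zero_le_one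
      _ = E := one_mul _
  set s : X → ℂ := fun x => ∑ j ∈ Finset.range N, T j x with hs
  have hsm : Measurable s := Finset.measurable_sum _ (fun j _ => hTm j)
  have hsn : ∀ x, ‖s x‖ ≤ N * E := by
    intro x
    calc ‖s x‖ ≤ ∑ j ∈ Finset.range N, ‖T j x‖ := norm_sum_le _ _
      _ ≤ ∑ j ∈ Finset.range N, E := Finset.sum_le_sum (fun j _ => hTn j x)
      _ = N * E := by simp
  -- shift
  have hshift : ∀ j x, T (j + 1) (τ x) = χ (τ x) * T j x := by
    intro j x
    simp only [hT]
    rw [Finset.prod_range_succ' (fun i => χ ((τ.symm^[i]) (τ x))) (j + 1)]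
    simp only [Function.iterate_succ, Function.comp_apply, MeasurableEquiv.symm_apply_apply,
      Function.iterate_zero, id_eq]
    ring
  have hshift0 : ∀ x, T 0 (τ x) = χ (τ x) * e x := by
    intro x
    simp [hT]
  have hlast : ∀ x, ∀ M, N = M + 1 → T M x = 0 := by
    intro x M hM
    obtain ⟨i, hi, hiB⟩ := hgap x
    simp only [hT]
    rw [Finset.prod_eq_zero (i := i) (by simp; omega) (by simp [hχ, hiB]), zero_mul]
  have hsτ : ∀ x, s (τ x) = χ (τ x) * (e x + s x) := by
    intro x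
    obtain ⟨i, hi, -⟩ := hgap x
    obtain ⟨M, hM⟩ : ∃ M, N = M + 1 := ⟨N - 1, by omega⟩
    have hl := hlast x M hM
    simp only [hs]
    rw [hM, Finset.sum_range_succ', Finset.sum_range_succ (fun j => T j x), hl, hshift0, add_zero,
      mul_add, Finset.mul_sum]
    simp only [hshift]
    ring
  set y : X → ℂ := fun x => if τ x ∈ B then e x + s x else 0 with hy
  have hym : Measurable y :=
    Measurable.ite (τ.measurable hB) (he.add hsm) measurable_const
  have hyn : ∀ x, ‖y x‖ ≤ (N + 1) * E := by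
    intro x
    have hE0 : 0 ≤ E := (norm_nonneg _).trans (hE x)
    by_cases hx : τ x ∈ B
    · simp only [hy, hx, if_true]
      calc ‖e x + s x‖ ≤ ‖e x‖ + ‖s x‖ := norm_add_le _ _
        _ ≤ E + N * E := add_le_add (hE x) (hsn x)
        _ = (N + 1) * E := by ring
    · simp only [hy, hx, if_false, norm_zero]
      positivity
  have hey : ∀ x, e x = s (τ x) - s x + y x := by
    intro x
    rw [hsτ]
    by_cases hx : τ x ∈ B
    · simp only [hy, hx, if_true]
      have : χ (τ x) = 0 := by simp [hχ, hx]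
      rw [this]; ring
    · simp only [hy, hx, if_false]
      have : χ (τ x) = 1 := by simp [hχ, hx]
      rw [this]; ring
  set w : X → Box L := fun x => (rd L ((y x).re / ε), rd L ((y x).im / ε)) with hw
  have hwm : Measurable w := by
    refine Measurable.prodMk ?_ ?_
    · exact (measurable_rd L).comp ((Complex.measurable_re.comp hym).div_const ε)
    · exact (measurable_rd L).comp ((Complex.measurable_im.comp hym).div_const ε)
  have hvm : Measurable (fun x => val ε L (w x)) := (Measurable.of_discrete (f := val ε L)).comp hwm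
  refine ⟨s, fun x => y x - val ε L (w x), w, hsm, hym.sub hvm, hwm, ?_, hsn, ?_, ?_⟩
  · intro x
    rw [hey x]; ring
  · intro x
    have key : ∀ r : ℝ, |r| ≤ ‖y x‖ → |r - ε * (((rd L (r / ε) : Fin (2 * L + 1)) : ℝ) - L)| ≤
        ε / 2 := by
      intro r hr
      have h1 : |r / ε| + 1 ≤ L := by
        refine le_trans ?_ hL
        rw [abs_div, abs_of_pos hε]
        have := div_le_div_of_nonneg_right (hr.trans (hyn x)) hε.le
        linarith
      have h2 := rd_err h1
      have h3 : r - ε * (((rd L (r / ε) : Fin (2 * L + 1)) : ℝ) - L) =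
          ε * (r / ε - (((rd L (r / ε) : Fin (2 * L + 1)) : ℝ) - L)) := by
        field_simp
      rw [h3, abs_mul, abs_of_pos hε]
      nlinarith
    have hre := key (y x).re (Complex.abs_re_le_norm _)
    have him := key (y x).im (Complex.abs_im_le_norm _)
    refine (Complex.norm_le_abs_re_add_abs_im _).trans ?_
    simp only [val, hw, Complex.sub_re, Complex.sub_im, Complex.add_re, Complex.add_im,
      Complex.mul_re, Complex.mul_im, Complex.ofReal_re, Complex.ofReal_im, Complex.I_re,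
      Complex.I_im, mul_zero, mul_one, sub_zero, add_zero, zero_add]
    linarith
  · intro x hx
    simp only [hw, hy, hx, if_false, Complex.zero_re, Complex.zero_im, zero_div, rd_zero]
    rfl

end PosEnt
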