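import Pool.Agent.Lib_MP_40e650.E2b_Trunc

/-!
Piece E9: cutting off the part where `|φ|` is very small.

`ρ x = log ‖φ x‖`. For an integer `R0 ≥ 1` put `D x = ⌊-ρ x⌋₊` if `ρ x < -R0` and `D x = 0`
otherwise, and `f x = Complex.log (φ x) + D x` if `φ x ≠ 0` and `‖φ x‖ ≤ max C 1`, `f x = 0`
otherwise. Then `φ x = exp (f x) * exp (- D x)` a.e., `|re f| ≤ max (log (max C 1)) R0 + 1`,
`|im f| ≤ π`. `log (1 + D x) ≤ log (1 + |ρ x|)` on `{ρ < -R0}` and `= 0` elsewhere, and the sets
`{ρ < -R0}` decrease to the empty set, so `∫ log (1+D) → 0` and `μ {D ≥ 1} ≤ μ {ρ < -R0} → 0` as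
`R0 → ∞` (dominated convergence). `shannon_trunc_le` with `1/J ≤ η/4`, then `R0` large.
-/

open MeasureTheory Filter Topology

namespace PosEnt

variable {X : Type*} [MeasurableSpace X] {μ : Measure X} [IsProbabilityMeasure μ]

/-- integrals over the sets `{ρ < -R}` tend to `0` -/
private lemma tendsto_integral_tail {ρ g : X → ℝ} (hρ : Measurable ρ) (hg : Integrable g μ) :
    Tendsto (fun R : ℕ => ∫ x, Set.indicator {y | ρ y < -(R : ℝ)} g x ∂μ) atTop (𝓝 0) := by
  have hmeas : ∀ R : ℕ, MeasurableSet {y | ρ y < -(R : ℝ)} := fun R =>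
    measurableSet_lt hρ measurable_const
  have h := tendsto_integral_of_dominated_convergence (μ := μ)
    (F := fun (R : ℕ) (x : X) => Set.indicator {y | ρ y < -(R : ℝ)} g x)
    (f := fun _ => (0 : ℝ)) (fun x => ‖g x‖)
    (fun R => (hg.indicator (hmeas R)).aestronglyMeasurable) hg.norm
    (fun R => Filter.Eventually.of_forall fun x => norm_indicator_le_norm_self _ _)
    (Filter.Eventually.of_forall fun x => by
      obtain ⟨N, hN⟩ := exists_nat_gt (-(ρ x))
      refine tendsto_const_nhds.congr' ?_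
      filter_upwards [eventually_ge_atTop N] with R hR
      have hNR : (N : ℝ) ≤ (R : ℝ) := by exact_mod_cast hR
      rw [Set.indicator_of_notMem]
      simp only [Set.mem_setOf_eq, not_lt]
      linarith)
  simpa using h

theorem exists_cut {φ : X → ℂ} (hφ : Measurable φ) (hb : ∃ C : ℝ, ∀ᵐ x ∂μ, ‖φ x‖ ≤ C)
    (h0 : ∀ᵐ x ∂μ, φ x ≠ 0) (hlog : Integrable (fun x => Real.log (1 + |Real.log ‖φ x‖|)) μ)
    {η : ℝ} (hη : 0 < η) :
    ∃ (D : X → ℕ) (f : X → ℂ) (F : ℝ), Measurable D ∧ Measurable f ∧ (∀ x, ‖f x‖ ≤ F) ∧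
      (∀ᵐ x ∂μ, φ x = Complex.exp (f x) * (Real.exp (-(D x : ℝ)) : ℂ)) ∧
      ∀ K, shannon μ (trunc D K) ≤ η := by
  classical
  obtain ⟨C, hC⟩ := hb
  set ρ : X → ℝ := fun x => Real.log ‖φ x‖ with hρdef
  have hρ : Measurable ρ := Real.measurable_log.comp hφ.norm
  set g : X → ℝ := fun x => Real.log (1 + |ρ x|) with hgdef
  have hg : Integrable g μ := hlog
  have hg0 : ∀ x, 0 ≤ g x := fun x => Real.log_nonneg (by have := abs_nonneg (ρ x); linarith)
  -- the choice of `J`
  obtain ⟨J, hJ⟩ := exists_nat_gt (4 / η)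
  have hJ0 : (0 : ℝ) < J := lt_trans (by positivity) hJ
  have hJ1 : 1 ≤ J := by
    have : 0 < J := by exact_mod_cast hJ0
    omega
  have hJη : 1 / (J : ℝ) ≤ η / 4 := by
    rw [div_le_div_iff₀ hJ0 (by norm_num)]
    rw [div_lt_iff₀ hη] at hJ
    linarith
  set B : ℝ := 1 + 2 * Real.log (1 + J) with hBdef
  have hB : 0 < B := by
    have : 0 ≤ Real.log (1 + (J : ℝ)) := Real.log_nonneg (by linarith)
    rw [hBdef]; linarith
  -- the choice of `R`
  have t1 := tendsto_integral_tail (μ := μ) hρ hg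
  have t2 := tendsto_integral_tail (μ := μ) hρ (integrable_const (1 : ℝ))
  have e1 : ∀ᶠ R : ℕ in atTop, ∫ x, Set.indicator {y | ρ y < -(R : ℝ)} g x ∂μ < η / 8 :=
    t1.eventually (gt_mem_nhds (by positivity))
  have e2 : ∀ᶠ R : ℕ in atTop,
      ∫ x, Set.indicator {y | ρ y < -(R : ℝ)} (fun _ => (1 : ℝ)) x ∂μ < η / 4 / B :=
    t2.eventually (gt_mem_nhds (by positivity))
  obtain ⟨R, hR1, hR2⟩ := (e1.and e2).exists
  set A : Set X := {y | ρ y < -(R : ℝ)} with hAdef
  have hA : MeasurableSet A := measurableSet_lt hρ measurable_const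
  have hR0 : (0 : ℝ) ≤ R := Nat.cast_nonneg R
  set D : X → ℕ := fun x => if ρ x < -(R : ℝ) then ⌊-ρ x⌋₊ else 0 with hDdef
  have hD : Measurable D := by
    refine Measurable.ite hA ?_ measurable_const
    exact Nat.measurable_floor.comp hρ.neg
  have hDle : ∀ x, x ∈ A → (D x : ℝ) ≤ -ρ x ∧ -ρ x < D x + 1 := by
    intro x hx
    have hx' : ρ x < -(R : ℝ) := hx
    have hpos : 0 ≤ -ρ x := by linarith
    simp only [hDdef, if_pos hx']
    exact ⟨Nat.floor_le hpos, Nat.lt_floor_add_one _⟩
  have hD0 : ∀ x, x ∉ A → D x = 0 := by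
    intro x hx
    have hx' : ¬ ρ x < -(R : ℝ) := hx
    simp only [hDdef, if_neg hx']
  have hlogD : ∀ x, Real.log (1 + D x) ≤ Set.indicator A g x := by
    intro x
    by_cases hx : x ∈ A
    · rw [Set.indicator_of_mem hx]
      refine Real.log_le_log (by positivity) ?_
      have h1 := (hDle x hx).1
      have h2 := neg_le_abs (ρ x)
      linarith
    · rw [Set.indicator_of_notMem hx, hD0 x hx]
      simp
  have hlogD0 : ∀ x, 0 ≤ Real.log (1 + (D x : ℝ)) := fun x =>
    Real.log_nonneg (by have : (0 : ℝ) ≤ D x := Nat.cast_nonneg _; linarith)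
  have hgA : Integrable (Set.indicator A g) μ := hg.indicator hA
  have hDmeasR : Measurable (fun x => (D x : ℝ)) := measurable_from_top.comp hD
  have hintD : Integrable (fun x => Real.log (1 + D x)) μ := by
    refine Integrable.mono' hgA ?_ ?_
    · exact (Real.measurable_log.comp (measurable_const.add hDmeasR)).aestronglyMeasurable
    · refine Filter.Eventually.of_forall fun x => ?_
      rw [Real.norm_of_nonneg (hlogD0 x)]
      exact hlogD x
  have hI : ∫ x, Real.log (1 + D x) ∂μ ≤ η / 8 :=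
    (integral_mono hintD hgA hlogD).trans hR1.le
  have hm : μ.real {x | 1 ≤ D x} ≤ η / 4 / B := by
    have h1 : μ.real {x | 1 ≤ D x} ≤ μ.real A := by
      refine measureReal_mono ?_ (measure_ne_top μ A)
      intro x hx
      by_contra hxA
      have := hD0 x hxA
      have h1x : 1 ≤ D x := hx
      omega
    have h2 : ∫ x, Set.indicator A (fun _ => (1 : ℝ)) x ∂μ = μ.real A := by
      rw [integral_indicator hA]
      simp
    linarith
  -- the function `f`
  set C' : ℝ := max C 1 with hC'def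
  have hC'1 : 1 ≤ C' := le_max_right _ _
  have hS : MeasurableSet {x | φ x ≠ 0 ∧ ‖φ x‖ ≤ C'} := by
    refine MeasurableSet.inter ?_ (measurableSet_le hφ.norm measurable_const)
    exact (measurableSet_eq_fun hφ measurable_const).compl
  set f : X → ℂ := fun x => if φ x ≠ 0 ∧ ‖φ x‖ ≤ C' then Complex.log (φ x) + ((D x : ℝ) : ℂ) else 0
    with hfdef
  have hf : Measurable f := by
    refine Measurable.ite hS ?_ measurable_const
    exact (Complex.measurable_log.comp hφ).add (Complex.measurable_ofReal.comp hDmeasR)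
  have hlogC' : 0 ≤ Real.log C' := Real.log_nonneg hC'1
  refine ⟨D, f, (R + Real.log C' + 1) + Real.pi, hD, hf, ?_, ?_, ?_⟩
  · intro x
    by_cases hx : φ x ≠ 0 ∧ ‖φ x‖ ≤ C'
    · have hfx : f x = Complex.log (φ x) + ((D x : ℝ) : ℂ) := by simp only [hfdef, if_pos hx]
      have hre : (f x).re = ρ x + D x := by
        rw [hfx, Complex.add_re, Complex.log_re, Complex.ofReal_re]
      have him : (f x).im = (φ x).arg := by
        rw [hfx, Complex.add_im, Complex.log_im, Complex.ofReal_im, add_zero]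
      have hreb : |(f x).re| ≤ R + Real.log C' + 1 := by
        rw [hre]
        have hup : ρ x ≤ Real.log C' :=
          Real.log_le_log (norm_pos_iff.mpr hx.1) hx.2
        by_cases hxA : x ∈ A
        · have h1 := hDle x hxA
          rw [abs_le]
          constructor <;> linarith [h1.1, h1.2]
        · rw [hD0 x hxA]
          have hge : -(R : ℝ) ≤ ρ x := not_lt.mp hxA
          rw [abs_le]
          constructor <;> simp only [Nat.cast_zero, add_zero] <;> linarith
      have himb : |(f x).im| ≤ Real.pi := by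
        rw [him]; exact Complex.abs_arg_le_pi _
      calc ‖f x‖ ≤ |(f x).re| + |(f x).im| := Complex.norm_le_abs_re_add_abs_im _
        _ ≤ _ := add_le_add hreb himb
    · have hfx : f x = 0 := by simp only [hfdef, if_neg hx]
      rw [hfx, norm_zero]
      have := Real.pi_pos
      positivity
  · filter_upwards [hC, h0] with x hx1 hx2
    have hx : φ x ≠ 0 ∧ ‖φ x‖ ≤ C' := ⟨hx2, hx1.trans (le_max_left _ _)⟩
    have hfx : f x = Complex.log (φ x) + ((D x : ℝ) : ℂ) := by simp only [hfdef, if_pos hx]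
    rw [hfx, Complex.exp_add, Complex.exp_log hx2, mul_assoc, Complex.ofReal_exp, ← Complex.exp_add]
    simp
  · intro K
    have h := shannon_trunc_le (μ := μ) D hD hintD hJ1 K
    have h3 : μ.real {x | 1 ≤ D x} * B ≤ η / 4 := by
      have := mul_le_mul_of_nonneg_right hm hB.le
      rwa [div_mul_cancel₀ _ hB.ne'] at this
    have h4 : μ.real {x | 1 ≤ D x} * (1 + 2 * Real.log (1 + J)) ≤ η / 4 := h3
    linarith

end PosEnt
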