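import Pool.Agent.Lib_MP_40e650.E1b_Pi
import Pool.Agent.Lib_MP_40e650.E4a_Name

/-!
Piece F4a: entropy of names when the present is determined by the future, up to small errors.

`W = (R, E)`. `C v = {x | (W (τ^[i+1] x))_{i < m} ∈ c v}` predicts `R x = v` from the future window,
with error set `Δ v = symmDiff (R ⁻¹' {v}) (C v)`; `C' l = {x | (W (τ^[i] x))_{i < m} ∈ c' l}`
approximates `{Q = l}` with error set `Δ' l`. Data of `x`:
`(W (τ^[n+j] x))_{j<m}`, `(E (τ^[t] x))_{t<n}`, `(decide (τ^[t] x ∈ Δ v))_{t<n, v}`,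
`(decide (τ^[t] x ∈ Δ' l))_{t<n, l}`. If two points `x`, `y` have the same data then
`W (τ^[t] x) = W (τ^[t] y)` for all `t < n + m`, by backward induction on `t` (for `t < n`:
`R (τ^[t] x) = v` iff exactly one of `τ^[t] x ∈ C v`, `τ^[t] x ∈ Δ v`, and membership in `C v` only
depends on `W (τ^[t+1+i] x)`, `i < m`; and `E` is in the data); hence also `Q (τ^[t] x) = Q (τ^[t] y)`
for `t < n`. So `name τ Q n` is a function of the data (choice), and by `shannon_comp_le`,
`shannon_prod_le`, `shannon_pi_le` and invariance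
`shannon (name τ Q n) ≤ m b₁ + n (b + (card ρ) η + s η)`.
-/

open MeasureTheory Filter

namespace PosEnt

variable {X : Type*} [MeasurableSpace X] {μ : Measure X} [IsProbabilityMeasure μ]

omit [IsProbabilityMeasure μ] in
private theorem F4a_set {ι : Type*} [Fintype ι] (V : X → ι)
    (hV : ∀ v, MeasurableSet (V ⁻¹' {v})) (S : Set ι) : MeasurableSet (V ⁻¹' S) := by
  have h : V ⁻¹' S = ⋃ v ∈ S, V ⁻¹' {v} := by
    ext x
    simp
  rw [h]
  exact MeasurableSet.biUnion (Set.to_countable S) fun v _ => hV v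

private theorem F4a_pi {J : Type*} [Fintype J] {ι : J → Type*}
    (V : (j : J) → X → ι j) (hV : ∀ j v, MeasurableSet (V j ⁻¹' {v})) (v : (j : J) → ι j) :
    MeasurableSet ((fun x (j : J) => V j x) ⁻¹' {v}) := by
  have h : (fun x (j : J) => V j x) ⁻¹' {v} = ⋂ j, V j ⁻¹' {v j} := by
    ext x
    simp [funext_iff]
  rw [h]
  exact MeasurableSet.iInter fun j => hV j (v j)

private theorem F4a_prod {ι κ : Type*} (V : X → ι) (W : X → κ)
    (hV : ∀ v, MeasurableSet (V ⁻¹' {v})) (hW : ∀ v, MeasurableSet (W ⁻¹' {v})) (v : ι × κ) :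
    MeasurableSet ((fun x => (V x, W x)) ⁻¹' {v}) := by
  obtain ⟨a, b⟩ := v
  have h : (fun x => (V x, W x)) ⁻¹' {(a, b)} = V ⁻¹' {a} ∩ W ⁻¹' {b} := by
    ext x
    simp
  rw [h]
  exact (hV a).inter (hW b)

/-- a finite-valued function determined by another one has smaller entropy -/
theorem shannon_le_of_determined {ι κ : Type*} [Fintype ι] [Fintype κ] (V : X → ι) (Y : X → κ)
    (hV : ∀ v, MeasurableSet (V ⁻¹' {v})) (h : ∀ x y, V x = V y → Y x = Y y) :
    shannon μ Y ≤ shannon μ V := by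
  classical
  obtain ⟨x0⟩ : Nonempty X := nonempty_of_isProbabilityMeasure μ
  have hY : Y = fun x => (fun v => if hv : ∃ y, V y = v then Y hv.choose else Y x0) (V x) := by
    funext x
    have hex : ∃ y, V y = V x := ⟨x, rfl⟩
    simp only
    rw [dif_pos hex]
    exact (h _ _ hex.choose_spec).symm
  have h1 := shannon_comp_le (μ := μ) V hV
    (fun v => if hv : ∃ y, V y = v then Y hv.choose else Y x0)
  rw [← hY] at h1
  exact h1

/-- a family of `k` functions with equal entropy bounds -/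
private theorem F4a_vec {J κ : Type*} [Fintype J] [DecidableEq J] [Fintype κ] (V : J → X → κ)
    (hV : ∀ j v, MeasurableSet (V j ⁻¹' {v})) {b : ℝ} (hb : ∀ j, shannon μ (V j) ≤ b) :
    shannon μ (fun x (j : J) => V j x) ≤ Fintype.card J * b := by
  refine (shannon_pi_le V hV).trans ((Finset.sum_le_sum fun i _ => hb i).trans (le_of_eq ?_))
  rw [Finset.sum_const, Finset.card_univ, nsmul_eq_mul]

theorem name_entropy_le1 (τ : X → X) (hτ : MeasurePreserving τ μ μ) {ρ κ : Type*} [Fintype ρ]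
    [Fintype κ] (R : X → ρ) (E : X → κ) (hR : ∀ v, MeasurableSet (R ⁻¹' {v}))
    (hE : ∀ v, MeasurableSet (E ⁻¹' {v})) {s : ℕ} (Q : X → Fin s) (hQ : Measurable Q)
    (m : ℕ) (c : ρ → Set (Fin m → ρ × κ)) (c' : Fin s → Set (Fin m → ρ × κ)) {b b₁ η : ℝ}
    (hb : shannon μ E ≤ b) (hb₁ : shannon μ (fun x => (R x, E x)) ≤ b₁)
    (hη : ∀ v, ∀ D : Set X, D = symmDiff (R ⁻¹' {v})
        {x | (fun i : Fin m => (R (τ^[(i : ℕ) + 1] x), E (τ^[(i : ℕ) + 1] x))) ∈ c v} →
      shannon μ (fun x => @decide (x ∈ D) (Classical.propDecidable _)) ≤ η)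
    (hη' : ∀ l, ∀ D : Set X, D = symmDiff (Q ⁻¹' {l})
        {x | (fun i : Fin m => (R (τ^[(i : ℕ)] x), E (τ^[(i : ℕ)] x))) ∈ c' l} →
      shannon μ (fun x => @decide (x ∈ D) (Classical.propDecidable _)) ≤ η) (n : ℕ) :
    shannon μ (name τ Q n) ≤ m * b₁ + n * (b + Fintype.card ρ * η + s * η) := by
  classical
  have hmeas : ∀ k : ℕ, Measurable (τ^[k]) := fun k => hτ.measurable.iterate k
  have hQs : ∀ v, MeasurableSet (Q ⁻¹' {v}) := fun v => hQ (MeasurableSet.singleton v)
  set W : X → ρ × κ := fun x => (R x, E x) with hWdef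
  have hW : ∀ v, MeasurableSet (W ⁻¹' {v}) := F4a_prod R E hR hE
  have hWk : ∀ (k : ℕ) v, MeasurableSet ((fun x => W (τ^[k] x)) ⁻¹' {v}) :=
    fun k v => hmeas k (hW v)
  -- the sets
  set C : ρ → Set X := fun v =>
    {x | (fun i : Fin m => W (τ^[(i : ℕ) + 1] x)) ∈ c v} with hC
  set C' : Fin s → Set X := fun l =>
    {x | (fun i : Fin m => W (τ^[(i : ℕ)] x)) ∈ c' l} with hC'
  set Δ : ρ → Set X := fun v => symmDiff (R ⁻¹' {v}) (C v) with hΔ
  set Δ' : Fin s → Set X := fun l => symmDiff (Q ⁻¹' {l}) (C' l) with hΔ'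
  have hCm : ∀ v, MeasurableSet (C v) := fun v =>
    F4a_set (fun x (i : Fin m) => W (τ^[(i : ℕ) + 1] x))
      (F4a_pi (fun (i : Fin m) x => W (τ^[(i : ℕ) + 1] x)) fun i v => hWk _ v) (c v)
  have hCm' : ∀ l, MeasurableSet (C' l) := fun l =>
    F4a_set (fun x (i : Fin m) => W (τ^[(i : ℕ)] x))
      (F4a_pi (fun (i : Fin m) x => W (τ^[(i : ℕ)] x)) fun i v => hWk _ v) (c' l)
  have hΔm : ∀ v, MeasurableSet (Δ v) := fun v => (hR v).symmDiff (hCm v)
  have hΔm' : ∀ l, MeasurableSet (Δ' l) := fun l => (hQs l).symmDiff (hCm' l)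
  -- the bits
  set e : ρ → X → Bool := fun v x => decide (x ∈ Δ v) with he
  set e' : Fin s → X → Bool := fun l x => decide (x ∈ Δ' l) with he'
  have hbit : ∀ D : Set X, MeasurableSet D →
      ∀ v, MeasurableSet ((fun x => decide (x ∈ D)) ⁻¹' {v}) := by
    intro D hD v
    cases v with
    | true =>
      have h : (fun x => decide (x ∈ D)) ⁻¹' {true} = D := by
        ext x
        simp
      rw [h]
      exact hD
    | false =>
      have h : (fun x => decide (x ∈ D)) ⁻¹' {false} = Dᶜ := by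
        ext x
        simp
      rw [h]
      exact hD.compl
  have hem : ∀ l v, MeasurableSet (e l ⁻¹' {v}) := fun l => hbit _ (hΔm l)
  have hem' : ∀ l v, MeasurableSet (e' l ⁻¹' {v}) := fun l => hbit _ (hΔm' l)
  have hele : ∀ l, shannon μ (e l) ≤ η := by
    intro l
    have h := hη l (Δ l) rfl
    have h2 : (fun x => @decide (x ∈ Δ l) (Classical.propDecidable _)) = e l := by
      funext x
      simp only [he]
    rw [h2] at h
    exact h
  have hele' : ∀ l, shannon μ (e' l) ≤ η := by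
    intro l
    have h := hη' l (Δ' l) rfl
    have h2 : (fun x => @decide (x ∈ Δ' l) (Classical.propDecidable _)) = e' l := by
      funext x
      simp only [he']
    rw [h2] at h
    exact h
  -- the data
  set A : X → Fin m → ρ × κ := fun x j => W (τ^[n + (j : ℕ)] x) with hA
  set B : X → Fin n → κ := fun x t => E (τ^[(t : ℕ)] x) with hB
  set G : X → Fin n × ρ → Bool := fun x kl => e kl.2 (τ^[(kl.1 : ℕ)] x) with hG
  set G' : X → Fin n × Fin s → Bool := fun x kl => e' kl.2 (τ^[(kl.1 : ℕ)] x) with hG'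
  have hAk : ∀ (j : Fin m) v, MeasurableSet ((fun x => W (τ^[n + (j : ℕ)] x)) ⁻¹' {v}) :=
    fun j v => hWk _ v
  have hBk : ∀ (t : Fin n) v, MeasurableSet ((fun x => E (τ^[(t : ℕ)] x)) ⁻¹' {v}) :=
    fun t v => hmeas _ (hE v)
  have hGk : ∀ (kl : Fin n × ρ) v,
      MeasurableSet ((fun x => e kl.2 (τ^[(kl.1 : ℕ)] x)) ⁻¹' {v}) :=
    fun kl v => hmeas _ (hem kl.2 v)
  have hGk' : ∀ (kl : Fin n × Fin s) v,
      MeasurableSet ((fun x => e' kl.2 (τ^[(kl.1 : ℕ)] x)) ⁻¹' {v}) :=
    fun kl v => hmeas _ (hem' kl.2 v)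
  have hAm : ∀ v, MeasurableSet (A ⁻¹' {v}) :=
    F4a_pi (fun (j : Fin m) x => W (τ^[n + (j : ℕ)] x)) hAk
  have hBm : ∀ v, MeasurableSet (B ⁻¹' {v}) :=
    F4a_pi (fun (t : Fin n) x => E (τ^[(t : ℕ)] x)) hBk
  have hGm : ∀ v, MeasurableSet (G ⁻¹' {v}) :=
    F4a_pi (fun (kl : Fin n × ρ) x => e kl.2 (τ^[(kl.1 : ℕ)] x)) hGk
  have hGm' : ∀ v, MeasurableSet (G' ⁻¹' {v}) :=
    F4a_pi (fun (kl : Fin n × Fin s) x => e' kl.2 (τ^[(kl.1 : ℕ)] x)) hGk'
  have hAle : shannon μ A ≤ m * b₁ := by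
    have h := F4a_vec (μ := μ) (fun (j : Fin m) x => W (τ^[n + (j : ℕ)] x)) hAk (b := b₁)
      (fun j => by
        rw [shannon_comp_measurePreserving W hW (hτ.iterate (n + (j : ℕ)))]
        exact hb₁)
    rw [Fintype.card_fin] at h
    exact h
  have hBle : shannon μ B ≤ n * b := by
    have h := F4a_vec (μ := μ) (fun (t : Fin n) x => E (τ^[(t : ℕ)] x)) hBk (b := b)
      (fun t => by
        rw [shannon_comp_measurePreserving E hE (hτ.iterate (t : ℕ))]
        exact hb)
    rw [Fintype.card_fin] at h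
    exact h
  have hGle : shannon μ G ≤ n * (Fintype.card ρ * η) := by
    have h := F4a_vec (μ := μ) (fun (kl : Fin n × ρ) x => e kl.2 (τ^[(kl.1 : ℕ)] x)) hGk (b := η)
      (fun kl => by
        rw [shannon_comp_measurePreserving (e kl.2) (hem kl.2) (hτ.iterate (kl.1 : ℕ))]
        exact hele kl.2)
    rw [Fintype.card_prod, Fintype.card_fin] at h
    push_cast at h
    rw [mul_assoc] at h
    exact h
  have hGle' : shannon μ G' ≤ n * (s * η) := by
    have h := F4a_vec (μ := μ) (fun (kl : Fin n × Fin s) x => e' kl.2 (τ^[(kl.1 : ℕ)] x)) hGk'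
      (b := η) (fun kl => by
        rw [shannon_comp_measurePreserving (e' kl.2) (hem' kl.2) (hτ.iterate (kl.1 : ℕ))]
        exact hele' kl.2)
    rw [Fintype.card_prod, Fintype.card_fin, Fintype.card_fin] at h
    push_cast at h
    rw [mul_assoc] at h
    exact h
  -- the data determine the name
  have hRiff : ∀ v z, R z = v ↔ Xor' (z ∈ C v) (e v z = true) := by
    intro v z
    have h2 : e v z = true ↔ z ∈ Δ v := by
      simp only [he, decide_eq_true_eq]
    have h3 : z ∈ Δ v ↔ Xor' (R z = v) (z ∈ C v) := by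
      rw [hΔ]
      exact Set.mem_symmDiff
    rw [h2, h3]
    by_cases p1 : z ∈ C v <;> by_cases p2 : R z = v <;> simp [Xor', p1, p2]
  have hQiff : ∀ l z, Q z = l ↔ Xor' (z ∈ C' l) (e' l z = true) := by
    intro l z
    have h2 : e' l z = true ↔ z ∈ Δ' l := by
      simp only [he', decide_eq_true_eq]
    have h3 : z ∈ Δ' l ↔ Xor' (Q z = l) (z ∈ C' l) := by
      rw [hΔ']
      exact Set.mem_symmDiff
    rw [h2, h3]
    by_cases p1 : z ∈ C' l <;> by_cases p2 : Q z = l <;> simp [Xor', p1, p2]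
  have hdet : ∀ x y, ((A x, B x), (G x, G' x)) = ((A y, B y), (G y, G' y)) →
      name τ Q n x = name τ Q n y := by
    intro x y hxy
    have hAe : A x = A y := congrArg (fun z => z.1.1) hxy
    have hBe : B x = B y := congrArg (fun z => z.1.2) hxy
    have hGe : G x = G y := congrArg (fun z => z.2.1) hxy
    have hGe' : G' x = G' y := congrArg (fun z => z.2.2) hxy
    have hWe : ∀ d t, d + t = n + m → 0 < d → W (τ^[t] x) = W (τ^[t] y) := by
      intro d
      induction d using Nat.strong_induction_on with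
      | _ d ih =>
        intro t hdt hd
        by_cases ht : n ≤ t
        · obtain ⟨j, rfl⟩ := Nat.exists_eq_add_of_le ht
          exact congrFun hAe ⟨j, by omega⟩
        · rw [not_le] at ht
          have hEe : E (τ^[t] x) = E (τ^[t] y) := congrFun hBe ⟨t, ht⟩
          have hwin : (fun i : Fin m => W (τ^[(i : ℕ) + 1] (τ^[t] x))) =
              fun i : Fin m => W (τ^[(i : ℕ) + 1] (τ^[t] y)) := by
            funext i
            have hi := i.2
            rw [← Function.iterate_add_apply, ← Function.iterate_add_apply]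
            exact ih (n + m - ((i : ℕ) + 1 + t)) (by omega) _ (by omega) (by omega)
          have hRe : R (τ^[t] x) = R (τ^[t] y) := by
            symm
            rw [hRiff (R (τ^[t] x)) (τ^[t] y)]
            have h1 := (hRiff (R (τ^[t] x)) (τ^[t] x)).1 rfl
            have h2 : e (R (τ^[t] x)) (τ^[t] x) = e (R (τ^[t] x)) (τ^[t] y) :=
              congrFun hGe (⟨t, ht⟩, R (τ^[t] x))
            have h3 : τ^[t] x ∈ C (R (τ^[t] x)) ↔ τ^[t] y ∈ C (R (τ^[t] x)) := by
              simp only [hC, Set.mem_setOf_eq]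
              rw [hwin]
            rw [← h2, ← h3]
            exact h1
          exact Prod.ext hRe hEe
    funext k
    have hk := k.2
    have hwin : (fun i : Fin m => W (τ^[(i : ℕ)] (τ^[(k : ℕ)] x))) =
        fun i : Fin m => W (τ^[(i : ℕ)] (τ^[(k : ℕ)] y)) := by
      funext i
      have hi := i.2
      rw [← Function.iterate_add_apply, ← Function.iterate_add_apply]
      exact hWe (n + m - ((i : ℕ) + k)) _ (by omega) (by omega)
    change Q (τ^[(k : ℕ)] x) = Q (τ^[(k : ℕ)] y)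
    symm
    rw [hQiff (Q (τ^[(k : ℕ)] x)) (τ^[(k : ℕ)] y)]
    have h1 := (hQiff (Q (τ^[(k : ℕ)] x)) (τ^[(k : ℕ)] x)).1 rfl
    have h2 : e' (Q (τ^[(k : ℕ)] x)) (τ^[(k : ℕ)] x) = e' (Q (τ^[(k : ℕ)] x)) (τ^[(k : ℕ)] y) :=
      congrFun hGe' (k, Q (τ^[(k : ℕ)] x))
    have h3 : τ^[(k : ℕ)] x ∈ C' (Q (τ^[(k : ℕ)] x)) ↔
        τ^[(k : ℕ)] y ∈ C' (Q (τ^[(k : ℕ)] x)) := by
      simp only [hC', Set.mem_setOf_eq]
      rw [hwin]
    rw [← h2, ← h3]
    exact h1
  calc shannon μ (name τ Q n) ≤ shannon μ (fun x => ((A x, B x), (G x, G' x))) :=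
        shannon_le_of_determined (fun x => ((A x, B x), (G x, G' x))) (name τ Q n)
          (F4a_prod _ _ (F4a_prod A B hAm hBm) (F4a_prod G G' hGm hGm')) hdet
    _ ≤ shannon μ (fun x => (A x, B x)) + shannon μ (fun x => (G x, G' x)) :=
        shannon_prod_le _ _ (F4a_prod A B hAm hBm) (F4a_prod G G' hGm hGm')
    _ ≤ (shannon μ A + shannon μ B) + (shannon μ G + shannon μ G') :=
        add_le_add (shannon_prod_le A B hAm hBm) (shannon_prod_le G G' hGm hGm')
    _ ≤ (m * b₁ + n * b) + (n * (Fintype.card ρ * η) + n * (s * η)) := by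
        linarith
    _ = m * b₁ + n * (b + Fintype.card ρ * η + s * η) := by ring

end PosEnt
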