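import Pool.Agent.Lib_MP_40e650.Defs

/-!
Elementary facts on `factor`.
-/

open MeasureTheory Filter Topology

namespace PosEnt

variable {X : Type*}

theorem measurable_factor_comp (τ : Equiv.Perm X) {κ : ℕ → Type*} (W : (K : ℕ) → X → κ K)
    (K : ℕ) (i : ℤ) (S : Set (κ K)) :
    MeasurableSet[factor τ W] {x | W K ((τ ^ i) x) ∈ S} := by
  have h : (⊤ : MeasurableSpace (κ K)).comap (fun x => W K ((τ ^ i) x)) ≤ factor τ W :=
    le_iSup_of_le K (le_iSup (fun i : ℤ =>
      (⊤ : MeasurableSpace (κ K)).comap (fun x => W K ((τ ^ i) x))) i)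
  exact h _ ⟨S, trivial, rfl⟩

theorem measurable_factor (τ : Equiv.Perm X) {κ : ℕ → Type*} (W : (K : ℕ) → X → κ K)
    (K : ℕ) (S : Set (κ K)) : MeasurableSet[factor τ W] {x | W K x ∈ S} := by
  simpa using measurable_factor_comp τ W K 0 S

theorem factor_preimage (τ : Equiv.Perm X) {κ : ℕ → Type*} (W : (K : ℕ) → X → κ K)
    {A : Set X} (hA : MeasurableSet[factor τ W] A) (j : ℤ) :
    MeasurableSet[factor τ W] ((τ ^ j : Equiv.Perm X) ⁻¹' A) := by
  have h : (factor τ W).comap (τ ^ j : Equiv.Perm X) ≤ factor τ W := by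
    conv_lhs => unfold factor
    simp only [MeasurableSpace.comap_iSup]
    refine iSup_le fun K => iSup_le fun i => ?_
    rw [MeasurableSpace.comap_comp]
    refine le_iSup_of_le K (le_iSup_of_le (i + j) ?_)
    apply le_of_eq
    congr 1
    funext x
    simp [zpow_add, Equiv.Perm.mul_apply]
  exact h _ ⟨A, hA, rfl⟩

end PosEnt
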